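import Pool.Agent.H49.ID.PATH

/-!
Module AVG. Averaging over the signs.

Proof. Let `N ≥ 1` (if `G` is empty everything is trivial: take `lam = 0`; otherwise `x a d < N`).
`M l a := (∑ ε, sg (ε a) * Λ ε l a) / 2 ^ #G` (average). If `l` is increasing of length `d`, entries
`< N`, all `i ∈ l` are `< x a d`, then `M l a = 0`: pair `ε` with `ε` flipped at `a`, by (iii) `Λ` is
the same for both (only `b` with `x b d ≤ i` for some `i ∈ l` matter, and `a` is not among them), and
the sign changes (`Finset.sum_involution` or `Equiv` + `neg`). For `l` increasing of length `d + 1`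
in `[x a 0, N)`: `dl (M · a) l = if Chi d (x a) l then 1 else 0` (`sg b * sg b = 1`).
Put `lam a m = re (M (m ++ [N-1]) a)`. For `l` increasing of length `d` in `[x a 0, x a d)`:
`l ++ [N-1]` is increasing with entries `< N` (entries of `l` are `< x a d ≤ N - 1`), and
`dl_append_singleton` gives `dl (fun l' => M (l' ++ [N-1]) a) l + (-1)^d • M l a = 1 or 0`, with
`M l a = 0`; `Chi d (x a) (l ++ [N-1]) ↔ Box (x a) l ∧ x a d ≤ N - 1` (`chi_append`). Take real parts.
Cost: for `m` increasing of length `d - 1`, if no `a` has `m ⊂ [x a 0, x a d)` the sum is `0 ≤ C`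
(`0 ≤ C` is assumed); otherwise all entries of `m` are `< N - 1`, `m ++ [N-1]` is increasing. Let
`θ a = ± 1` be the sign of `re (M (m ++ [N-1]) a)` if `m ⊂ [x a 0, x a d)` and `0` otherwise. Then the cost is
`re ∑ a, θ a * M (m ++ [N-1]) a = avg over ε of re ∑ a, (θ a * sg (ε a)) * Λ ε (m ++ [N-1]) a ≤ C` by
(i), since `x a 0 ≤ i` for all `i ∈ m ++ [N-1]` if `θ a ≠ 0` (`x a 0 ≤ x a d ≤ N - 1`).
-/

open Cardinal Filter Topology
open scoped ENNReal ZeroAtInfty

namespace Pool.H49.ID

open Pool.H74.ID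

section avg

variable {𝕜 : Type} [RCLike 𝕜] {G : Type} [Fintype G]

open scoped Classical in
/-- The average. -/
private noncomputable def avg_M (Λ : (G → Bool) → List ℕ → G → 𝕜) (l : List ℕ) (a : G) : 𝕜 :=
  ((Fintype.card (G → Bool) : ℕ) : 𝕜)⁻¹ • ∑ ε : G → Bool, sg 𝕜 (ε a) • Λ ε l a

private theorem avg_sg_mul (b : Bool) : sg 𝕜 b * sg 𝕜 b = 1 := by
  cases b <;> simp [sg]

private theorem avg_sg_not (b : Bool) : sg 𝕜 (!b) = - sg 𝕜 b := by
  cases b <;> simp [sg]

open scoped Classical in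
private theorem avg_card_ne : ((Fintype.card (G → Bool) : ℕ) : 𝕜) ≠ 0 := by
  rw [Nat.cast_ne_zero]
  exact Fintype.card_ne_zero

open scoped Classical in
private theorem avg_zero (d N : ℕ) (x : G → ℕ → ℕ) (Λ : (G → Bool) → List ℕ → G → 𝕜)
    (h3 : ∀ (ε ε' : G → Bool) (l : List ℕ) (a : G), l.length = d → l.Pairwise (· < ·) →
        (∀ i ∈ l, i < N) → (∀ b, (∃ i ∈ l, x b d ≤ i) → ε b = ε' b) → Λ ε l a = Λ ε' l a)
    (l : List ℕ) (a : G) (hl : l.length = d) (hp : l.Pairwise (· < ·)) (hN : ∀ i ∈ l, i < N)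
    (hlt : ∀ i ∈ l, i < x a d) : avg_M Λ l a = 0 := by
  classical
  unfold avg_M
  have key : ∑ ε : G → Bool, sg 𝕜 (ε a) • Λ ε l a = 0 := by
    set σ : (G → Bool) → (G → Bool) := fun ε => Function.update ε a (!(ε a)) with hσ
    have hinv : Function.Involutive σ := by
      intro ε
      funext b
      by_cases hb : b = a
      · subst hb
        simp [hσ]
      · simp [hσ, Function.update_of_ne hb]
    have h1 : ∑ ε : G → Bool, sg 𝕜 (σ ε a) • Λ (σ ε) l a = ∑ ε : G → Bool, sg 𝕜 (ε a) • Λ ε l a :=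
      (Equiv.sum_comp hinv.toPerm (fun ε => sg 𝕜 (ε a) • Λ ε l a))
    have h2 : ∀ ε : G → Bool, sg 𝕜 (σ ε a) • Λ (σ ε) l a = - (sg 𝕜 (ε a) • Λ ε l a) := by
      intro ε
      have e1 : Λ (σ ε) l a = Λ ε l a := by
        apply h3 _ _ l a hl hp hN
        rintro b ⟨i, hi, hb⟩
        have : b ≠ a := by
          rintro rfl
          exact absurd (hlt i hi) (by omega)
        simp [hσ, Function.update_of_ne this]
      rw [e1]
      have e2 : sg 𝕜 (σ ε a) = - sg 𝕜 (ε a) := by
        simp only [hσ, Function.update_self]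
        exact avg_sg_not _
      rw [e2, neg_smul]
    simp only [h2, Finset.sum_neg_distrib] at h1
    have h4 : (2 : 𝕜) * ∑ ε : G → Bool, sg 𝕜 (ε a) • Λ ε l a = 0 := by
      linear_combination (-1 : 𝕜) * h1
    rcases mul_eq_zero.1 h4 with h | h
    · exact absurd h two_ne_zero
    · exact h
  rw [key, smul_zero]

open scoped Classical in
private theorem avg_dl (d N : ℕ) (x : G → ℕ → ℕ) (Λ : (G → Bool) → List ℕ → G → 𝕜)
    (h2 : ∀ (ε : G → Bool) (l : List ℕ) (a : G), l.length = d + 1 → l.Pairwise (· < ·) →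
        (∀ i ∈ l, i < N ∧ x a 0 ≤ i) →
        dl (fun l' => Λ ε l' a) l = if Chi d (x a) l then sg 𝕜 (ε a) else 0)
    (l : List ℕ) (a : G) (hl : l.length = d + 1) (hp : l.Pairwise (· < ·))
    (hN : ∀ i ∈ l, i < N ∧ x a 0 ≤ i) :
    dl (fun l' => avg_M Λ l' a) l = if Chi d (x a) l then 1 else 0 := by
  classical
  unfold avg_M
  rw [dl_smul, dl_sum]
  have : ∀ ε : G → Bool, dl (fun l' => sg 𝕜 (ε a) • Λ ε l' a) l =
      if Chi d (x a) l then 1 else 0 := by
    intro ε
    rw [dl_smul, h2 ε l a hl hp hN]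
    split_ifs
    · rw [smul_eq_mul, avg_sg_mul]
    · rw [smul_zero]
  rw [Finset.sum_congr rfl (fun ε _ => this ε)]
  rw [Finset.sum_const, Finset.card_univ]
  split_ifs
  · rw [nsmul_eq_mul, mul_one, smul_eq_mul]
    exact inv_mul_cancel₀ avg_card_ne
  · simp

end avg

open scoped Classical in
theorem avg_signs (𝕜 : Type) [RCLike 𝕜] (d N : ℕ) {G : Type} [Fintype G] (hd : 1 ≤ d)
    (x : G → ℕ → ℕ) (hx : ∀ a, Monotone (x a)) (hN : ∀ a, x a d < N) (C : ℝ) (hC : 0 ≤ C)
    (Λ : (G → Bool) → List ℕ → G → 𝕜)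
    (h1 : ∀ (ε : G → Bool) (l : List ℕ) (f : G → 𝕜), l.length = d → l.Pairwise (· < ·) →
        (∀ i ∈ l, i < N) → (∀ a, f a ≠ 0 → ∀ i ∈ l, x a 0 ≤ i) → (∀ a, ‖f a‖ ≤ 1) →
        ‖∑ a, f a * Λ ε l a‖ ≤ C)
    (h2 : ∀ (ε : G → Bool) (l : List ℕ) (a : G), l.length = d + 1 → l.Pairwise (· < ·) →
        (∀ i ∈ l, i < N ∧ x a 0 ≤ i) →
        dl (fun l' => Λ ε l' a) l = if Chi d (x a) l then sg 𝕜 (ε a) else 0)
    (h3 : ∀ (ε ε' : G → Bool) (l : List ℕ) (a : G), l.length = d → l.Pairwise (· < ·) →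
        (∀ i ∈ l, i < N) → (∀ b, (∃ i ∈ l, x b d ≤ i) → ε b = ε' b) → Λ ε l a = Λ ε' l a) :
    ∃ lam : G → List ℕ → ℝ,
      (∀ (a : G) (l : List ℕ), l.length = d → l.Pairwise (· < ·) →
        (∀ i ∈ l, x a 0 ≤ i ∧ i < x a d) → dl (lam a) l = if Box (x a) l then 1 else 0) ∧
      ∀ m : List ℕ, m.length + 1 = d → m.Pairwise (· < ·) →
        (∑ a, if (∀ i ∈ m, x a 0 ≤ i ∧ i < x a d) then |lam a m| else 0) ≤ C := by
  classical
  refine ⟨fun a m => RCLike.re (avg_M Λ (m ++ [N - 1]) a), ?_, ?_⟩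
  · intro a l hl hp hin
    have hNa := hN a
    have e0 : dl (fun m => RCLike.re (avg_M Λ (m ++ [N - 1]) a)) l =
        RCLike.re (dl (fun m => avg_M Λ (m ++ [N - 1]) a) l) :=
      dl_map_hom (RCLike.re : 𝕜 →+ ℝ) l (fun m => avg_M Λ (m ++ [N - 1]) a)
    rw [e0]
    have hp' : (l ++ [N - 1]).Pairwise (· < ·) := by
      rw [List.pairwise_append]
      refine ⟨hp, List.pairwise_singleton _ _, ?_⟩
      intro i hi j hj
      rw [List.mem_singleton] at hj
      subst hj
      have := (hin i hi).2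
      omega
    have e1 := dl_append_singleton l (N - 1) (fun l' => avg_M Λ l' a)
    have e2 : avg_M Λ l a = 0 := by
      apply avg_zero d N x Λ h3 l a hl hp
      · intro i hi
        have := (hin i hi).2
        omega
      · intro i hi
        exact (hin i hi).2
    have e3 := avg_dl d N x Λ h2 (l ++ [N - 1]) a (by simp [hl]) hp' (by
      intro i hi
      rcases List.mem_append.1 hi with hi | hi
      · have := hin i hi
        omega
      · rw [List.mem_singleton] at hi
        subst hi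
        have := hx a (Nat.zero_le d)
        omega)
    rw [e3, e2, smul_zero, add_zero] at e1
    rw [← e1]
    have e4 := chi_append d (x a) l (N - 1) hl
    by_cases hb : Box (x a) l
    · rw [if_pos (e4.2 ⟨hb, by omega⟩), if_pos hb, RCLike.one_re]
    · rw [if_neg (fun h => hb (e4.1 h).1), if_neg hb, map_zero]
  · intro m hm hp
    by_cases hex : ∃ a : G, ∀ i ∈ m, x a 0 ≤ i ∧ i < x a d
    · obtain ⟨a0, ha0⟩ := hex
      have hN0 := hN a0
      have hp' : (m ++ [N - 1]).Pairwise (· < ·) := by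
        rw [List.pairwise_append]
        refine ⟨hp, List.pairwise_singleton _ _, ?_⟩
        intro i hi j hj
        rw [List.mem_singleton] at hj
        subst hj
        have := (ha0 i hi).2
        omega
      have hlen : (m ++ [N - 1]).length = d := by simp [hm]
      have hlt : ∀ i ∈ m ++ [N - 1], i < N := by
        intro i hi
        rcases List.mem_append.1 hi with hi | hi
        · have := (ha0 i hi).2
          omega
        · rw [List.mem_singleton] at hi
          omega
      set l := m ++ [N - 1] with hldef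
      set P : G → Prop := fun a => ∀ i ∈ m, x a 0 ≤ i ∧ i < x a d with hP
      set θ : G → ℝ := fun a => if P a then (if 0 ≤ RCLike.re (avg_M Λ l a) then 1 else -1) else 0
        with hθ
      have hθ1 : ∀ a, ‖((θ a : ℝ) : 𝕜)‖ ≤ 1 := by
        intro a
        rw [RCLike.norm_ofReal]
        simp only [hθ]
        split_ifs <;> simp
      have hsum : (∑ a, if P a then |RCLike.re (avg_M Λ l a)| else 0) =
          RCLike.re (∑ a, ((θ a : ℝ) : 𝕜) * avg_M Λ l a) := by
        rw [map_sum]
        refine Finset.sum_congr rfl fun a _ => ?_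
        rw [RCLike.re_ofReal_mul]
        simp only [hθ]
        by_cases hPa : P a
        · rw [if_pos hPa, if_pos hPa]
          by_cases h0 : 0 ≤ RCLike.re (avg_M Λ l a)
          · rw [if_pos h0, abs_of_nonneg h0, one_mul]
          · rw [if_neg h0, abs_of_neg (not_le.1 h0)]
            ring
        · rw [if_neg hPa, if_neg hPa, zero_mul]
      show (∑ a, if P a then |RCLike.re (avg_M Λ l a)| else 0) ≤ C
      rw [hsum]
      refine (RCLike.re_le_norm _).trans ?_
      have hswap : ∑ a, ((θ a : ℝ) : 𝕜) * avg_M Λ l a =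
          ((Fintype.card (G → Bool) : ℕ) : 𝕜)⁻¹ *
            ∑ ε : G → Bool, ∑ a, (((θ a : ℝ) : 𝕜) * sg 𝕜 (ε a)) * Λ ε l a := by
        rw [Finset.sum_comm, Finset.mul_sum]
        refine Finset.sum_congr rfl fun a _ => ?_
        unfold avg_M
        rw [smul_eq_mul, ← mul_assoc, mul_comm (((θ a : ℝ) : 𝕜)), mul_assoc, Finset.mul_sum]
        congr 1
        refine Finset.sum_congr rfl fun ε _ => ?_
        rw [smul_eq_mul]
        ring
      rw [hswap, norm_mul, norm_inv]
      have hb : ‖∑ ε : G → Bool, ∑ a, (((θ a : ℝ) : 𝕜) * sg 𝕜 (ε a)) * Λ ε l a‖ ≤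
          (Fintype.card (G → Bool) : ℕ) * C := by
        refine (norm_sum_le _ _).trans ?_
        have hle : ∀ ε ∈ (Finset.univ : Finset (G → Bool)),
            ‖∑ a, (((θ a : ℝ) : 𝕜) * sg 𝕜 (ε a)) * Λ ε l a‖ ≤ C := by
          intro ε _
          apply h1 ε l (fun a => ((θ a : ℝ) : 𝕜) * sg 𝕜 (ε a)) hlen hp' hlt
          · intro a ha i hi
            have hPa : P a := by
              by_contra hPa
              apply ha
              simp [hθ, hPa]
            rcases List.mem_append.1 hi with hi | hi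
            · exact (hPa i hi).1
            · rw [List.mem_singleton] at hi
              subst hi
              have := hx a (Nat.zero_le d)
              have := hN a
              omega
          · intro a
            rw [norm_mul, norm_sg, mul_one]
            exact hθ1 a
        refine (Finset.sum_le_card_nsmul _ _ _ hle).trans ?_
        rw [nsmul_eq_mul, Finset.card_univ]
      have hpos : (0 : ℝ) < (Fintype.card (G → Bool) : ℕ) := by
        exact_mod_cast Fintype.card_pos
      have hnorm : ‖((Fintype.card (G → Bool) : ℕ) : 𝕜)‖ = (Fintype.card (G → Bool) : ℕ) :=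
        RCLike.norm_natCast _
      rw [hnorm]
      calc ((Fintype.card (G → Bool) : ℕ) : ℝ)⁻¹ *
            ‖∑ ε : G → Bool, ∑ a, (((θ a : ℝ) : 𝕜) * sg 𝕜 (ε a)) * Λ ε l a‖
          ≤ ((Fintype.card (G → Bool) : ℕ) : ℝ)⁻¹ * ((Fintype.card (G → Bool) : ℕ) * C) :=
            mul_le_mul_of_nonneg_left hb (inv_nonneg.2 hpos.le)
        _ = C := by
            rw [← mul_assoc, inv_mul_cancel₀ hpos.ne', one_mul]
    · rw [Finset.sum_eq_zero]
      · exact hC
      · intro a _
        rw [if_neg (fun h => hex ⟨a, h⟩)]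

end Pool.H49.ID
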