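import Pool.Agent.H49.ID.Defs

/-!
Module DIG. Digits in base `R = h + 1`, all digits `x c < h`, so that the digit `h` is larger than
all digits used. `iN h M x = ∑_{c < M} x c * R^c` and `jN h M x b` is the number with the same
digits as `iN` above `b`, digit `h` at `b`, and zeros below `b`.

Everything follows from `∑_{c < a} x c * R^c < R^a` (induction) and splitting the sum
`iN = ∑_{c < a} + ∑_{a ≤ c < M}`, the second part being a multiple `R^a * k` of `R^a`, so that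
`iN / R^a = k`.
-/

namespace Pool.H49.ID

def iN (h M : ℕ) (x : ℕ → ℕ) : ℕ := ∑ c ∈ Finset.range M, x c * (h + 1) ^ c

def jN (h M : ℕ) (x : ℕ → ℕ) (b : ℕ) : ℕ :=
  (∑ c ∈ Finset.Ico (b + 1) M, x c * (h + 1) ^ c) + h * (h + 1) ^ b

theorem dig_ico (h : ℕ) (x : ℕ → ℕ) (hx : ∀ c, x c < h) (a b : ℕ) (hab : a ≤ b) :
    (∑ c ∈ Finset.Ico a b, x c * (h + 1) ^ c) + (h + 1) ^ a ≤ (h + 1) ^ b := by
  induction b, hab using Nat.le_induction with
  | base => simp
  | succ b hab ih =>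
    rw [Finset.sum_Ico_succ_top hab, pow_succ]
    have h1 := hx b
    have h2 : (x b + 1) * (h + 1) ^ b ≤ (h + 1) * (h + 1) ^ b :=
      Nat.mul_le_mul_right _ (by omega)
    nlinarith

theorem dig_low (h : ℕ) (x : ℕ → ℕ) (hx : ∀ c, x c < h) (a : ℕ) :
    ∑ c ∈ Finset.range a, x c * (h + 1) ^ c < (h + 1) ^ a := by
  have h1 := dig_ico h x hx 0 a (Nat.zero_le a)
  rw [pow_zero, ← Finset.range_eq_Ico] at h1
  omega

theorem dig_block (h M : ℕ) (x : ℕ → ℕ) (hx : ∀ c, x c < h) (a : ℕ) (ha : a ≤ M) :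
    iN h M x / (h + 1) ^ a * (h + 1) ^ a = ∑ c ∈ Finset.Ico a M, x c * (h + 1) ^ c := by
  have h1 : iN h M x = (∑ c ∈ Finset.range a, x c * (h + 1) ^ c) +
      ∑ c ∈ Finset.Ico a M, x c * (h + 1) ^ c := by
    unfold iN
    rw [Finset.range_eq_Ico, Finset.range_eq_Ico, Finset.sum_Ico_consecutive _ (Nat.zero_le a) ha]
  have h2 : (h + 1) ^ a ∣ ∑ c ∈ Finset.Ico a M, x c * (h + 1) ^ c := by
    refine Finset.dvd_sum fun c hc => ?_
    exact Dvd.dvd.mul_left (pow_dvd_pow _ (Finset.mem_Ico.1 hc).1) _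
  obtain ⟨k, hk⟩ := h2
  rw [h1, hk, Nat.add_mul_div_left _ _ (by positivity), Nat.div_eq_of_lt (dig_low h x hx a),
    zero_add, mul_comm]

theorem iN_lt (h M : ℕ) (x : ℕ → ℕ) (hx : ∀ c, x c < h) : iN h M x < (h + 1) ^ M :=
  dig_low h x hx M

/-- For `a ≤ b` the number `jN b` is beyond the block of size `R^a` of `iN`. -/
theorem le_jN (h M : ℕ) (x : ℕ → ℕ) (hx : ∀ c, x c < h) (a b : ℕ) (hab : a ≤ b) (hb : b < M) :
    (iN h M x / (h + 1) ^ a + 1) * (h + 1) ^ a ≤ jN h M x b := by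
  rw [add_mul, dig_block h M x hx a (by omega), one_mul]
  have h1 := dig_ico h x hx a b hab
  have h2 := hx b
  have h3 : ∑ c ∈ Finset.Ico a M, x c * (h + 1) ^ c = (∑ c ∈ Finset.Ico a b, x c * (h + 1) ^ c) +
      (x b * (h + 1) ^ b + ∑ c ∈ Finset.Ico (b + 1) M, x c * (h + 1) ^ c) := by
    rw [← Finset.sum_eq_sum_Ico_succ_bot hb (fun c => x c * (h + 1) ^ c),
      Finset.sum_Ico_consecutive _ hab hb.le]
  rw [h3]
  unfold jN
  have h4 : (x b + 1) * (h + 1) ^ b ≤ h * (h + 1) ^ b := Nat.mul_le_mul_right _ (by omega)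
  nlinarith

/-- For `b < a` the number `jN b` is in the block of size `R^a` of `iN`. -/
theorem jN_lt (h M : ℕ) (x : ℕ → ℕ) (hx : ∀ c, x c < h) (a b : ℕ) (hab : b < a) (hb : b < M) :
    jN h M x b < (iN h M x / (h + 1) ^ a + 1) * (h + 1) ^ a := by
  have hp : 0 < (h + 1) ^ b := by positivity
  have hps : (h + 1) ^ (b + 1) = h * (h + 1) ^ b + (h + 1) ^ b := by ring
  by_cases ha : a ≤ M
  · rw [add_mul, dig_block h M x hx a ha, one_mul]
    have h1 := dig_ico h x hx (b + 1) a hab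
    have h3 : ∑ c ∈ Finset.Ico (b + 1) M, x c * (h + 1) ^ c =
        (∑ c ∈ Finset.Ico (b + 1) a, x c * (h + 1) ^ c) +
          ∑ c ∈ Finset.Ico a M, x c * (h + 1) ^ c := by
      rw [Finset.sum_Ico_consecutive _ hab ha]
    unfold jN
    rw [h3]
    omega
  · have h1 := dig_ico h x hx (b + 1) M hb
    have h2 : (h + 1) ^ M ≤ (h + 1) ^ a := Nat.pow_le_pow_right (by omega) (by omega)
    have h3 : (h + 1) ^ a ≤ (iN h M x / (h + 1) ^ a + 1) * (h + 1) ^ a :=
      Nat.le_mul_of_pos_left _ (Nat.succ_pos _)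
    refine lt_of_lt_of_le ?_ (h2.trans h3)
    unfold jN
    omega

theorem iN_lt_jN (h M : ℕ) (x : ℕ → ℕ) (hx : ∀ c, x c < h) (b : ℕ) (hb : b < M) :
    iN h M x < jN h M x b := by
  have h1 := le_jN h M x hx 0 b (Nat.zero_le b) hb
  simp only [pow_zero, Nat.div_one, mul_one] at h1
  omega

theorem jN_lt_jN (h M : ℕ) (x : ℕ → ℕ) (hx : ∀ c, x c < h) (b b' : ℕ) (hbb : b < b')
    (hb : b' < M) : jN h M x b < jN h M x b' :=
  (jN_lt h M x hx b' b hbb (hbb.trans hb)).trans_le (le_jN h M x hx b' b' le_rfl hb)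

theorem jN_congr (h M : ℕ) (x x' : ℕ → ℕ) (b : ℕ) (hx : ∀ c, b < c → x c = x' c) :
    jN h M x b = jN h M x' b := by
  unfold jN
  congr 1
  refine Finset.sum_congr rfl fun c hc => ?_
  rw [hx c (by have := (Finset.mem_Ico.1 hc).1; omega)]

/-- If `x` and `x'` agree except at `b ≥ a`, and have the same block of size `R^a`, they agree. -/
theorem eq_of_block_eq (h M : ℕ) (x x' : ℕ → ℕ) (hx : ∀ c, x c < h) (hx' : ∀ c, x' c < h)
    (a b : ℕ) (hab : a ≤ b) (hb : b < M) (hxx : ∀ c, c ≠ b → x c = x' c)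
    (he : iN h M x / (h + 1) ^ a = iN h M x' / (h + 1) ^ a) : x b = x' b := by
  have h1 := dig_block h M x hx a (by omega)
  have h2 := dig_block h M x' hx' a (by omega)
  rw [he, h2] at h1
  have hmem : b ∈ Finset.Ico a M := Finset.mem_Ico.2 ⟨hab, hb⟩
  rw [← Finset.add_sum_erase _ _ hmem, ← Finset.add_sum_erase _ _ hmem] at h1
  have h3 : ∑ c ∈ (Finset.Ico a M).erase b, x' c * (h + 1) ^ c =
      ∑ c ∈ (Finset.Ico a M).erase b, x c * (h + 1) ^ c :=
    Finset.sum_congr rfl fun c hc => by rw [hxx c (Finset.mem_erase.1 hc).1]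
  rw [h3] at h1
  have h4 : x' b * (h + 1) ^ b = x b * (h + 1) ^ b := Nat.add_right_cancel h1
  exact (Nat.eq_of_mul_eq_mul_right (by positivity) h4).symm

end Pool.H49.ID
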