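import Pool.Agent.H49.ID.DL
import Pool.Agent.H49.ID.DIG

/-!
Module BAD. `Bad d K η` holds for all `d ≥ 1`, all `K` and all `η < 1`.

BASE `bad_one`: `G = Fin n` with `n (1 - η) ≥ K`, `x a 0 = a`, `x a q = a + 1` for `q ≥ 1`. Then
`Box (x a) [i]` iff `i = a`, and the hypothesis at `l = [a]` reads `|lam a [] - 1| ≤ η` (because
`dl L [i] = L []`), so `lam a [] ≥ 1 - η` and `m = []` works.

STEP `bad_step`. Let `(G', a)` (thresholds `a : G' → ℕ → ℕ`) be a system for `Bad d K η'`, `d ≥ 1`.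
Take `M` with `a g q ≤ M` for all `g` and all `q ≤ d`, and `h ≥ 1` with `K⁺ / h ≤ η' - η`
(`K⁺ = max K 0`). `R = h + 1`. New index type `G = G' × Fin (R ^ M)`, thresholds
`x (g, J) 0 = J * R ^ (a g 0)`, `x (g, J) (q + 1) = (J * R ^ (a g 0) / R ^ (a g q) + 1) * R ^ (a g q)`
(so `x (q+1)` is the end of the block of size `R ^ (a g q)` that contains `p = J * R ^ (a g 0)`).
Monotone: `p ≤ (p / R^a + 1) R^a`, and for `a ≤ b` the number `(p / R^b + 1) R^b` is a multiple of
`R^a` that is `> p`, hence is `≥ (p / R^a + 1) R^a`.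
One box at most: let `l = i :: l'` be of length `d + 1`. If `Box (x (g,J)) l`, then
`J = i / R ^ (a g 0)`; blocks of `i` and of `p` agree at all scales `≥ a g 0`. For `j ∈ l'`, `j > i`,
let `sp i j` be the largest `b` with `i / R^b ≠ j / R^b` (the position of the highest digit where
`i` and `j` differ; `sp i j < B` iff `i / R^B = j / R^B` iff (as `i ≤ j`) `j < (i / R^B + 1) R^B`).
Then `Box (x (g,J)) (i :: l')` says exactly (given `J = i / R^(a g 0)`) that
`Box (a g) (l'.map (sp i))`, whose length is `d`; so `g` is unique by the hypothesis on `G'`, and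
then `J` is.
Main part: let `lam` be given satisfying the hypothesis with `η`, and suppose that
`S m := ∑ a, if m ⊂ [x a 0, x a d) then |lam a m| else 0 < K` for all strictly increasing `m` of
length `d`. For digits `x : Fin M → Fin h` (extended by `0`, so `i(x) = iN h M x`,
`j_b(x) = jN h M x b`) and `g ∈ G'` let `J_g(x) = i(x) / R ^ (a g 0) < R ^ M`, and define
`lam' g bs = - avg_x lam (g, J_g(x)) (i(x) :: bs.map (j_·(x)))`
if all entries of `bs` are `< M`. Let `bs` be strictly increasing of length `d` with entries in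
`[a g 0, a g d)`. The list `l = i(x) :: bs.map j(x)` is strictly increasing, lies in
`[x 0, x (d+1))` of `(g, J_g(x))`, and `Box (x (g, J_g(x))) l ↔ Box (a g) bs` (by `le_jN`, `jN_lt`:
`x (q+1) ≤ j_b(x)` iff `a g q ≤ b`). Since `dl L (i :: js) = L js - dl (fun l => L (i :: l)) js`,
averaging over `x` gives
`dl (lam' g) bs = avg_x dl (lam (g,J_g(x))) (i(x) :: js(x)) - μ`, `μ = avg_x lam (g, J_g(x)) (js(x))`,
so `|dl (lam' g) bs - 1_Box| ≤ η + |μ|`. Bound of `μ`: let `b` be the head of `bs` (`a g 0 ≤ b < M`);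
`js(x)` does not depend on the digit `x b` (`jN_congr`) and the numbers `J_g` of the `h` points with
digit `b` varied are different (`eq_of_block_eq`), so for fixed other digits
`∑_{digit b} |lam (g, J_g(x)) (js(x))| ≤ S (js) < K` (all entries of `js` are in `[x 0, x (d+1))`);
so `|μ| ≤ K / h ≤ η' - η`. By `Bad d K η'` there is `m'` of length `d - 1` with
`∑_{g : m' ⊂ [a g 0, a g d)} |lam' g m'| ≥ K`. But for every `x`,
`∑_{g : m' ⊂ ..} |lam (g, J_g(x)) (i(x) :: js)| ≤ S (i(x) :: js) < K`; average: contradiction.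
-/

namespace Pool.H49.ID

/-! ### Auxiliary lemmas -/

theorem bad_box_imp (f : ℕ → ℕ) : ∀ (l : List ℕ) (x y : ℕ → ℕ),
    (∀ q b, y q ≤ b → b < y (q + 1) → x q ≤ f b ∧ f b < x (q + 1)) → Box y l → Box x (l.map f)
  | [], _, _, _, _ => trivial
  | i :: l, x, y, h, hb => by
    rw [List.map_cons]
    exact ⟨h 0 i hb.1.1 hb.1.2, bad_box_imp f l _ _ (fun q b => h (q + 1) b) hb.2⟩

theorem bad_box_iff (f : ℕ → ℕ) : ∀ (l : List ℕ) (x y : ℕ → ℕ),
    (∀ q, ∀ b ∈ l, y q ≤ f b ↔ x q ≤ b) → (Box y (l.map f) ↔ Box x l)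
  | [], _, _, _ => Iff.rfl
  | i :: l, x, y, h => by
    rw [List.map_cons]
    have h0 := h 0 i (by simp)
    have h1 := h 1 i (by simp)
    have ih := bad_box_iff f l (fun q => x (q + 1)) (fun q => y (q + 1))
      (fun q b hb => h (q + 1) b (by simp [hb]))
    show ((y 0 ≤ f i ∧ f i < y 1) ∧ Box (fun q => y (q + 1)) (l.map f)) ↔
      ((x 0 ≤ i ∧ i < x 1) ∧ Box (fun q => x (q + 1)) l)
    rw [ih, h0, ← not_le, h1, not_le]

/-- The end of the block of size `R ^ a` that contains `p`. -/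
def badBlk (R a p : ℕ) : ℕ := (p / R ^ a + 1) * R ^ a

theorem bad_lt_blk (R a p : ℕ) (hR : 0 < R) : p < badBlk R a p := by
  unfold badBlk
  rw [← Nat.div_lt_iff_lt_mul (pow_pos hR a)]
  exact Nat.lt_succ_self _

theorem bad_lt_blk_iff (R a p j : ℕ) (hR : 0 < R) : j < badBlk R a p ↔ j / R ^ a ≤ p / R ^ a := by
  unfold badBlk
  rw [← Nat.div_lt_iff_lt_mul (pow_pos hR a)]
  exact Nat.lt_succ_iff

theorem bad_div_mono (R a b p j : ℕ) (hab : a ≤ b) (h : j / R ^ a ≤ p / R ^ a) :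
    j / R ^ b ≤ p / R ^ b := by
  obtain ⟨c, rfl⟩ := Nat.exists_eq_add_of_le hab
  rw [pow_add, ← Nat.div_div_eq_div_mul, ← Nat.div_div_eq_div_mul]
  exact Nat.div_le_div_right h

theorem bad_blk_mono (R a b p : ℕ) (hR : 0 < R) (hab : a ≤ b) : badBlk R a p ≤ badBlk R b p := by
  by_contra hlt
  push Not at hlt
  rw [bad_lt_blk_iff R a p _ hR] at hlt
  have h2 := bad_div_mono R a b _ _ hab hlt
  rw [← bad_lt_blk_iff R b p _ hR] at h2
  exact lt_irrefl _ h2

theorem bad_div_trunc (R a b i : ℕ) (hR : 0 < R) (hab : a ≤ b) :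
    (i / R ^ a * R ^ a) / R ^ b = i / R ^ b := by
  obtain ⟨c, rfl⟩ := Nat.exists_eq_add_of_le hab
  rw [pow_add, ← Nat.div_div_eq_div_mul, ← Nat.div_div_eq_div_mul,
    Nat.mul_div_cancel _ (pow_pos hR a)]

theorem bad_blk_trunc (R a b i : ℕ) (hR : 0 < R) (hab : a ≤ b) :
    badBlk R b (i / R ^ a * R ^ a) = badBlk R b i := by
  unfold badBlk
  rw [bad_div_trunc R a b i hR hab]

/-- The least scale at which `j` is in the block of `i`. -/
noncomputable def badT (R i j : ℕ) : ℕ := sInf {B | j / R ^ B ≤ i / R ^ B}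

theorem badT_le_iff (R i j B : ℕ) (hR : 2 ≤ R) : badT R i j ≤ B ↔ j < badBlk R B i := by
  have hne : {B | j / R ^ B ≤ i / R ^ B}.Nonempty := by
    refine ⟨j, ?_⟩
    have : j / R ^ j = 0 := by
      apply Nat.div_eq_of_lt
      exact Nat.lt_pow_self hR
    show j / R ^ j ≤ i / R ^ j
    rw [this]
    exact Nat.zero_le _
  rw [bad_lt_blk_iff R B i j (by omega)]
  constructor
  · intro h
    have h1 : j / R ^ (badT R i j) ≤ i / R ^ (badT R i j) := Nat.sInf_mem hne
    exact bad_div_mono R _ _ _ _ h h1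
  · intro h
    exact Nat.sInf_le h

/-- thresholds of the new system -/
def badX {G' : Type} (a : G' → ℕ → ℕ) (R M : ℕ) (p : G' × Fin (R ^ M)) : ℕ → ℕ
  | 0 => (p.2 : ℕ) * R ^ (a p.1 0)
  | q + 1 => badBlk R (a p.1 q) ((p.2 : ℕ) * R ^ (a p.1 0))

theorem badX_mono {G' : Type} (a : G' → ℕ → ℕ) (ha : ∀ g, Monotone (a g)) (R M : ℕ) (hR : 0 < R)
    (p : G' × Fin (R ^ M)) : Monotone (badX a R M p) := by
  apply monotone_nat_of_le_succ
  intro n
  cases n with
  | zero => exact (bad_lt_blk _ _ _ hR).le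
  | succ q => exact bad_blk_mono _ _ _ _ hR (ha _ (Nat.le_succ q))

theorem badX_box {G' : Type} (a : G' → ℕ → ℕ) (ha : ∀ g, Monotone (a g)) (R M : ℕ) (hR : 2 ≤ R)
    (p : G' × Fin (R ^ M)) (i : ℕ) (l : List ℕ) (h : Box (badX a R M p) (i :: l)) :
    (p.2 : ℕ) = i / R ^ (a p.1 0) ∧ Box (a p.1) (l.map fun j => badT R i j - 1) := by
  have hR0 : 0 < R := by omega
  have hp := pow_pos hR0 (a p.1 0)
  obtain ⟨⟨h1, h2⟩, h3⟩ := h
  have h1' : (p.2 : ℕ) * R ^ (a p.1 0) ≤ i := h1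
  have h2' : i < badBlk R (a p.1 0) ((p.2 : ℕ) * R ^ (a p.1 0)) := h2
  rw [bad_lt_blk_iff _ _ _ _ hR0, Nat.mul_div_cancel _ hp] at h2'
  have h4 : (p.2 : ℕ) = i / R ^ (a p.1 0) :=
    le_antisymm ((Nat.le_div_iff_mul_le hp).mpr h1') h2'
  refine ⟨h4, ?_⟩
  refine bad_box_imp (fun j => badT R i j - 1) l (a p.1) _ ?_ h3
  intro q b hq1 hq2
  have e1 : ∀ q, badX a R M p (q + 1) = badBlk R (a p.1 q) i := by
    intro q
    show badBlk R (a p.1 q) ((p.2 : ℕ) * R ^ (a p.1 0)) = _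
    rw [h4, bad_blk_trunc _ _ _ _ hR0 (ha _ (Nat.zero_le q))]
  simp only [e1] at hq1 hq2
  rw [← badT_le_iff _ _ _ _ hR] at hq2
  rw [← not_lt, ← badT_le_iff _ _ _ _ hR, not_le] at hq1
  show a p.1 q ≤ badT R i b - 1 ∧ badT R i b - 1 < a p.1 (q + 1)
  omega

theorem badX_uniq {G' : Type} (a : G' → ℕ → ℕ) (ha : ∀ g, Monotone (a g)) (R M d : ℕ) (hR : 2 ≤ R)
    (hu : ∀ (l : List ℕ) (g g' : G'), l.length = d → Box (a g) l → Box (a g') l → g = g')
    (l : List ℕ) (p p' : G' × Fin (R ^ M)) (hl : l.length = d + 1)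
    (h : Box (badX a R M p) l) (h' : Box (badX a R M p') l) : p = p' := by
  cases l with
  | nil => simp at hl
  | cons i l =>
    obtain ⟨h1, h2⟩ := badX_box a ha R M hR p i l h
    obtain ⟨h3, h4⟩ := badX_box a ha R M hR p' i l h'
    have h5 : p.1 = p'.1 := hu _ _ _ (by simpa using hl) h2 h4
    refine Prod.ext h5 (Fin.ext ?_)
    rw [h1, h3, h5]

/-! ### The digits -/

/-- extension of the digits by `0` -/
def badExt {h M : ℕ} (w : Fin M → Fin h) (c : ℕ) : ℕ := if hc : c < M then (w ⟨c, hc⟩ : ℕ) else 0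

theorem badExt_lt {h M : ℕ} (h0 : 0 < h) (w : Fin M → Fin h) (c : ℕ) : badExt w c < h := by
  unfold badExt
  split_ifs with hc
  · exact (w _).2
  · exact h0

/-- block of the test point -/
def badJ {h M : ℕ} (h0 : 0 < h) (a0 : ℕ) (w : Fin M → Fin h) : Fin ((h + 1) ^ M) :=
  ⟨iN h M (badExt w) / (h + 1) ^ a0,
    lt_of_le_of_lt (Nat.div_le_self _ _) (iN_lt h M _ (badExt_lt h0 w))⟩

theorem badX_succ {G' : Type} (a : G' → ℕ → ℕ) (ha : ∀ g, Monotone (a g)) {h M : ℕ} (h0 : 0 < h)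
    (g : G') (w : Fin M → Fin h) (q : ℕ) :
    badX a (h + 1) M (g, badJ h0 (a g 0) w) (q + 1) =
      badBlk (h + 1) (a g q) (iN h M (badExt w)) := by
  show badBlk (h + 1) (a g q) (iN h M (badExt w) / (h + 1) ^ (a g 0) * (h + 1) ^ (a g 0)) = _
  rw [bad_blk_trunc _ _ _ _ (Nat.succ_pos h) (ha _ (Nat.zero_le q))]

theorem badX_le_jN {G' : Type} (a : G' → ℕ → ℕ) (ha : ∀ g, Monotone (a g)) {h M : ℕ} (h0 : 0 < h)
    (g : G') (w : Fin M → Fin h) (q b : ℕ) (hb : b < M) :
    badX a (h + 1) M (g, badJ h0 (a g 0) w) (q + 1) ≤ jN h M (badExt w) b ↔ a g q ≤ b := by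
  rw [badX_succ a ha h0]
  constructor
  · intro h1
    by_contra h2
    push Not at h2
    exact absurd h1 (not_le.mpr (jN_lt h M _ (badExt_lt h0 w) _ b h2 hb))
  · intro h1
    exact le_jN h M _ (badExt_lt h0 w) _ b h1 hb

theorem badX_zero_le {G' : Type} (a : G' → ℕ → ℕ) {h M : ℕ} (h0 : 0 < h)
    (g : G') (w : Fin M → Fin h) :
    badX a (h + 1) M (g, badJ h0 (a g 0) w) 0 ≤ iN h M (badExt w) :=
  Nat.div_mul_le_self _ _

theorem badX_iN_lt {G' : Type} (a : G' → ℕ → ℕ) (ha : ∀ g, Monotone (a g)) {h M : ℕ} (h0 : 0 < h)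
    (g : G') (w : Fin M → Fin h) (q : ℕ) :
    iN h M (badExt w) < badX a (h + 1) M (g, badJ h0 (a g 0) w) (q + 1) := by
  rw [badX_succ a ha h0]
  exact bad_lt_blk _ _ _ (Nat.succ_pos h)

theorem badX_box_iff {G' : Type} (a : G' → ℕ → ℕ) (ha : ∀ g, Monotone (a g)) {h M : ℕ} (h0 : 0 < h)
    (g : G') (w : Fin M → Fin h) (bs : List ℕ) (hb : ∀ b ∈ bs, b < M) :
    Box (badX a (h + 1) M (g, badJ h0 (a g 0) w))
      (iN h M (badExt w) :: bs.map (jN h M (badExt w))) ↔ Box (a g) bs := by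
  have h1 := badX_zero_le a h0 g w
  have h2 := badX_iN_lt a ha h0 g w 0
  have h3 := bad_box_iff (jN h M (badExt w)) bs (a g)
    (fun q => badX a (h + 1) M (g, badJ h0 (a g 0) w) (q + 1))
    (fun q b hbb => badX_le_jN a ha h0 g w q b (hb b hbb))
  constructor
  · intro h4
    exact h3.mp h4.2
  · intro h4
    exact ⟨⟨h1, h2⟩, h3.mpr h4⟩

/-- entries of the test list are in the big interval -/
theorem bad_mem {G' : Type} (a : G' → ℕ → ℕ) (ha : ∀ g, Monotone (a g)) {h M : ℕ} (h0 : 0 < h)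
    (g : G') (w : Fin M → Fin h) (d : ℕ) (bs : List ℕ) (hbM : ∀ b ∈ bs, b < M)
    (hb : ∀ b ∈ bs, a g 0 ≤ b ∧ b < a g d) (i : ℕ)
    (hi : i ∈ iN h M (badExt w) :: bs.map (jN h M (badExt w))) :
    badX a (h + 1) M (g, badJ h0 (a g 0) w) 0 ≤ i ∧
      i < badX a (h + 1) M (g, badJ h0 (a g 0) w) (d + 1) := by
  have h1 := badX_zero_le a h0 g w
  have h2 := badX_iN_lt a ha h0 g w d
  rw [List.mem_cons] at hi
  rcases hi with rfl | hi
  · exact ⟨h1, h2⟩
  · rw [List.mem_map] at hi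
    obtain ⟨b, hbb, rfl⟩ := hi
    obtain ⟨h3, h4⟩ := hb b hbb
    have h5 := (badX_le_jN a ha h0 g w 0 b (hbM b hbb)).mpr h3
    have h6 := badX_le_jN a ha h0 g w d b (hbM b hbb)
    refine ⟨(badX_mono a ha (h + 1) M (Nat.succ_pos h) _ (Nat.zero_le 1)).trans h5, ?_⟩
    rw [← not_le, h6]
    omega

theorem bad_pairwise {h M : ℕ} (h0 : 0 < h) (w : Fin M → Fin h) (bs : List ℕ)
    (hbM : ∀ b ∈ bs, b < M) (hbs : bs.Pairwise (· < ·)) :
    (bs.map (jN h M (badExt w))).Pairwise (· < ·) := by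
  rw [List.pairwise_map]
  refine List.Pairwise.imp_of_mem ?_ hbs
  intro b b' hb hb' hlt
  exact jN_lt_jN h M _ (badExt_lt h0 w) b b' hlt (hbM b' hb')

theorem bad_pairwise' {h M : ℕ} (h0 : 0 < h) (w : Fin M → Fin h) (bs : List ℕ)
    (hbM : ∀ b ∈ bs, b < M) (hbs : bs.Pairwise (· < ·)) :
    (iN h M (badExt w) :: bs.map (jN h M (badExt w))).Pairwise (· < ·) := by
  rw [List.pairwise_cons]
  refine ⟨?_, bad_pairwise h0 w bs hbM hbs⟩
  intro j hj
  rw [List.mem_map] at hj
  obtain ⟨b, hb, rfl⟩ := hj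
  exact iN_lt_jN h M _ (badExt_lt h0 w) b (hbM b hb)

theorem bad_sum_inj {ι κ : Type} [Fintype ι] [Fintype κ] (φ : ι → κ) (hφ : Function.Injective φ)
    (f : ι → ℝ) (F : κ → ℝ) (hF : ∀ k, 0 ≤ F k) (hf : ∀ i, f i ≤ F (φ i)) :
    ∑ i, f i ≤ ∑ k, F k := by
  classical
  calc ∑ i, f i ≤ ∑ i, F (φ i) := Finset.sum_le_sum fun i _ => hf i
    _ = ∑ k ∈ Finset.univ.image φ, F k := by
        rw [Finset.sum_image (fun i _ j _ hij => hφ hij)]
    _ ≤ ∑ k, F k := Finset.sum_le_sum_of_subset_of_nonneg (Finset.subset_univ _) fun k _ _ => hF k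

theorem bad_one (K η : ℝ) (hη : η < 1) : Bad 1 K η := by
  obtain ⟨n, hn⟩ := exists_nat_ge (K / (1 - η))
  have h1 : 0 < 1 - η := by linarith
  refine ⟨Fin n, inferInstance, fun a q => if q = 0 then (a : ℕ) else a + 1, ?_, ?_, ?_⟩
  · intro a
    apply monotone_nat_of_le_succ
    intro k
    dsimp only
    rw [if_neg (Nat.succ_ne_zero k)]
    split_ifs <;> omega
  · intro l a b hl ha hb
    obtain ⟨i, rfl⟩ := List.length_eq_one_iff.mp hl
    have h1 := ha.1
    have h2 := hb.1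
    simp only [if_true, one_ne_zero, if_false] at h1 h2
    ext
    omega
  · intro lam hlam
    refine ⟨[], rfl, List.Pairwise.nil, ?_⟩
    have h2 : ∀ a : Fin n, 1 - η ≤ |lam a []| := by
      intro a
      have h3 := hlam a [(a : ℕ)] rfl (by simp) (by simp)
      rw [if_pos (by simp [Box])] at h3
      have h4 : dl (lam a) [(a : ℕ)] = lam a [] := by simp [dl_cons]
      rw [h4] at h3
      have h5 := abs_le.mp h3
      have h6 := le_abs_self (lam a [])
      linarith
    have h3 : (n : ℝ) * (1 - η) ≤ ∑ a : Fin n, |lam a []| := by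
      calc (n : ℝ) * (1 - η) = ∑ a : Fin n, (1 - η) := by
            rw [Finset.sum_const, Finset.card_univ, Fintype.card_fin, nsmul_eq_mul]
        _ ≤ _ := Finset.sum_le_sum fun a _ => h2 a
    rw [div_le_iff₀ h1] at hn
    refine hn.trans (h3.trans (le_of_eq ?_))
    apply Finset.sum_congr rfl
    intro a _
    rw [if_pos (by simp)]

open scoped Classical in
/-- the cost -/
noncomputable def badS {G : Type} [Fintype G] (x : G → ℕ → ℕ) (d : ℕ) (lam : G → List ℕ → ℝ)
    (m : List ℕ) : ℝ :=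
  ∑ a, if (∀ i ∈ m, x a 0 ≤ i ∧ i < x a d) then |lam a m| else 0

theorem badS_nonneg {G : Type} [Fintype G] (x : G → ℕ → ℕ) (d : ℕ) (lam : G → List ℕ → ℝ)
    (m : List ℕ) : 0 ≤ badS x d lam m := by
  unfold badS
  apply Finset.sum_nonneg
  intro a _
  split_ifs
  · exact abs_nonneg _
  · exact le_rfl

theorem badExt_congr {h M : ℕ} (w w' : Fin M → Fin h) (b : ℕ)
    (hw : ∀ j : Fin M, (j : ℕ) ≠ b → w j = w' j) (c : ℕ) (hc : c ≠ b) :
    badExt w c = badExt w' c := by
  unfold badExt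
  split_ifs with h1
  · rw [hw ⟨c, h1⟩ hc]
  · rfl

theorem bad_mu {G' : Type} [Fintype G'] (a : G' → ℕ → ℕ) (ha : ∀ g, Monotone (a g)) {h M d : ℕ}
    (h0 : 0 < h) (lam : G' × Fin ((h + 1) ^ M) → List ℕ → ℝ) (K : ℝ)
    (hS : ∀ m : List ℕ, m.length = d → m.Pairwise (· < ·) →
      badS (badX a (h + 1) M) (d + 1) lam m < K)
    (g : G') (b : ℕ) (bs : List ℕ) (hl : (b :: bs).length = d) (hp : (b :: bs).Pairwise (· < ·))
    (hbM : ∀ b' ∈ b :: bs, b' < M) (hb : ∀ b' ∈ b :: bs, a g 0 ≤ b' ∧ b' < a g d) :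
    (h : ℝ) * ∑ w : Fin M → Fin h,
      |lam (g, badJ h0 (a g 0) w) ((b :: bs).map (jN h M (badExt w)))| ≤
      (Fintype.card (Fin M → Fin h) : ℝ) * K := by
  classical
  have hbM0 : b < M := hbM b (by simp)
  have hba : a g 0 ≤ b := (hb b (by simp)).1
  let e := Equiv.funSplitAt (⟨b, hbM0⟩ : Fin M) (Fin h)
  have hcard : (Fintype.card (Fin M → Fin h) : ℝ) =
      (h : ℝ) * (Fintype.card ({j : Fin M // j ≠ ⟨b, hbM0⟩} → Fin h) : ℝ) := by
    rw [Fintype.card_congr e, Fintype.card_prod, Fintype.card_fin]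
    push_cast
    rfl
  have hsum : ∑ w : Fin M → Fin h,
      |lam (g, badJ h0 (a g 0) w) ((b :: bs).map (jN h M (badExt w)))| =
      ∑ r : ({j : Fin M // j ≠ ⟨b, hbM0⟩} → Fin h), ∑ t : Fin h,
        |lam (g, badJ h0 (a g 0) (e.symm (t, r)))
          ((b :: bs).map (jN h M (badExt (e.symm (t, r)))))| := by
    rw [← Equiv.sum_comp e.symm, Fintype.sum_prod_type_right]
  rw [hsum, hcard, mul_assoc]
  refine mul_le_mul_of_nonneg_left ?_ (Nat.cast_nonneg h)
  have hle : ∀ r : ({j : Fin M // j ≠ ⟨b, hbM0⟩} → Fin h), ∑ t : Fin h,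
        |lam (g, badJ h0 (a g 0) (e.symm (t, r)))
          ((b :: bs).map (jN h M (badExt (e.symm (t, r)))))| ≤ K := by
    intro r
    have hagree : ∀ t t' : Fin h, ∀ j : Fin M, (j : ℕ) ≠ b →
        (e.symm (t, r)) j = (e.symm (t', r)) j := by
      intro t t' j hj
      have hj' : j ≠ ⟨b, hbM0⟩ := fun hh => hj (by rw [hh])
      simp [e, Equiv.funSplitAt, Equiv.piSplitAt, hj']
    have hself : ∀ t : Fin h, (e.symm (t, r)) ⟨b, hbM0⟩ = t := by
      intro t
      simp [e, Equiv.funSplitAt, Equiv.piSplitAt]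
    have hjs : ∀ t : Fin h, (b :: bs).map (jN h M (badExt (e.symm (t, r)))) =
        (b :: bs).map (jN h M (badExt (e.symm (⟨0, h0⟩, r)))) := by
      intro t
      apply List.map_congr_left
      intro b' hb'
      apply jN_congr
      intro c hc
      apply badExt_congr _ _ b (hagree _ _)
      have : b ≤ b' := by
        rw [List.mem_cons] at hb'
        rcases hb' with rfl | hb'
        · exact le_rfl
        · exact ((List.pairwise_cons.mp hp).1 b' hb').le
      omega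
    have hmS := hS ((b :: bs).map (jN h M (badExt (e.symm (⟨0, h0⟩, r)))))
      (by simpa using hl) (bad_pairwise h0 _ _ hbM hp)
    refine le_trans ?_ hmS.le
    unfold badS
    apply bad_sum_inj (fun t : Fin h => (g, badJ h0 (a g 0) (e.symm (t, r))))
    · intro t t' htt
      have h1 : badJ h0 (a g 0) (e.symm (t, r)) = badJ h0 (a g 0) (e.symm (t', r)) :=
        (Prod.mk.inj htt).2
      have h2 := congrArg Fin.val h1
      have h3 := eq_of_block_eq h M _ _ (badExt_lt h0 (e.symm (t, r)))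
        (badExt_lt h0 (e.symm (t', r))) (a g 0) b hba hbM0
        (fun c hc => badExt_congr _ _ b (hagree t t') c hc) h2
      unfold badExt at h3
      rw [dif_pos hbM0, dif_pos hbM0, hself, hself] at h3
      exact Fin.ext h3
    · intro k
      split_ifs
      · exact abs_nonneg _
      · exact le_rfl
    · intro t
      rw [if_pos, hjs t]
      intro i hi
      rw [← hjs t] at hi
      exact bad_mem a ha h0 g _ d (b :: bs) hbM hb i (List.mem_cons_of_mem _ hi)
  calc _ ≤ ∑ r : ({j : Fin M // j ≠ ⟨b, hbM0⟩} → Fin h), K := Finset.sum_le_sum fun r _ => hle r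
    _ = _ := by rw [Finset.sum_const, Finset.card_univ, nsmul_eq_mul]

theorem bad_dl {G' : Type} (a : G' → ℕ → ℕ) {h M : ℕ} (h0 : 0 < h)
    (lam : G' × Fin ((h + 1) ^ M) → List ℕ → ℝ) (g : G') (c : ℝ) (bs : List ℕ) :
    dl (fun bs => - (c * ∑ w : Fin M → Fin h, lam (g, badJ h0 (a g 0) w)
        (iN h M (badExt w) :: bs.map (jN h M (badExt w))))) bs =
      c * ∑ w : Fin M → Fin h, (dl (lam (g, badJ h0 (a g 0) w))
          (iN h M (badExt w) :: bs.map (jN h M (badExt w))) -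
        lam (g, badJ h0 (a g 0) w) (bs.map (jN h M (badExt w)))) := by
  have h1 : dl (fun bs => c * ∑ w : Fin M → Fin h, lam (g, badJ h0 (a g 0) w)
        (iN h M (badExt w) :: bs.map (jN h M (badExt w)))) bs =
      c * dl (fun bs => ∑ w : Fin M → Fin h, lam (g, badJ h0 (a g 0) w)
        (iN h M (badExt w) :: bs.map (jN h M (badExt w)))) bs :=
    dl_smul c bs (fun bs => ∑ w : Fin M → Fin h, lam (g, badJ h0 (a g 0) w)
        (iN h M (badExt w) :: bs.map (jN h M (badExt w))))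
  rw [dl_neg, h1, dl_sum, ← mul_neg, ← Finset.sum_neg_distrib]
  congr 1
  apply Finset.sum_congr rfl
  intro w _
  rw [dl_comp_map (jN h M (badExt w)) bs
    (fun l' => lam (g, badJ h0 (a g 0) w) (iN h M (badExt w) :: l')), dl_cons]
  ring

theorem bad_step (d : ℕ) (hd : 1 ≤ d) (K η η' : ℝ) (h : η < η') (hB : Bad d K η') :
    Bad (d + 1) K η := by
  classical
  obtain ⟨G', hG', a, ha, hu, hmain⟩ := hB
  obtain ⟨M, hM⟩ : ∃ M, ∀ g, a g d ≤ M :=
    ⟨∑ g, a g d, fun g => Finset.single_le_sum (f := fun g => a g d)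
      (fun _ _ => Nat.zero_le _) (Finset.mem_univ g)⟩
  have hηη : 0 < η' - η := by linarith
  obtain ⟨H, hH⟩ := exists_nat_gt (max K 0 / (η' - η))
  have hH0 : (0 : ℝ) < H := lt_of_le_of_lt (div_nonneg (le_max_right _ _) hηη.le) hH
  have h0 : 0 < H := by exact_mod_cast hH0
  refine ⟨G' × Fin ((H + 1) ^ M), inferInstance, badX a (H + 1) M,
    fun p => badX_mono a ha (H + 1) M (Nat.succ_pos H) p,
    fun l p p' hl h1 h2 => badX_uniq a ha (H + 1) M d (by omega) hu l p p' hl h1 h2, ?_⟩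
  intro lam hlam
  by_contra hcon
  push Not at hcon
  have hS : ∀ m : List ℕ, m.length = d → m.Pairwise (· < ·) →
      badS (badX a (H + 1) M) (d + 1) lam m < K := by
    intro m h1 h2
    have h3 := hcon m (by omega) h2
    unfold badS
    convert h3
  have hK : 0 < K := lt_of_le_of_lt (badS_nonneg _ _ _ _)
    (hS (List.range d) (by simp) List.pairwise_lt_range)
  have hcardN : 0 < Fintype.card (Fin M → Fin H) := by
    have : Nonempty (Fin M → Fin H) := ⟨fun _ => ⟨0, h0⟩⟩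
    exact Fintype.card_pos
  have hcard : (0 : ℝ) < (Fintype.card (Fin M → Fin H) : ℝ) := by exact_mod_cast hcardN
  set N : ℝ := (Fintype.card (Fin M → Fin H) : ℝ) with hN
  have hconst : ∀ r : ℝ, N⁻¹ * ∑ w : Fin M → Fin H, r = r := by
    intro r
    rw [Finset.sum_const, Finset.card_univ, nsmul_eq_mul, ← hN, ← mul_assoc,
      inv_mul_cancel₀ hcard.ne', one_mul]
  have hKH : K / H ≤ η' - η := by
    rw [div_lt_iff₀ hηη] at hH
    rw [div_le_iff₀ hH0]
    have := le_max_left K 0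
    linarith [mul_comm (H : ℝ) (η' - η)]
  obtain ⟨m', hm1, hm2, hm3⟩ := hmain
    (fun g bs => - (N⁻¹ * ∑ w : Fin M → Fin H, lam (g, badJ h0 (a g 0) w)
        (iN H M (badExt w) :: bs.map (jN H M (badExt w))))) (by
    intro g bs hl hp hb
    have hbM : ∀ b ∈ bs, b < M := fun b hbb => lt_of_lt_of_le (hb b hbb).2 (hM g)
    rw [bad_dl a h0 lam g N⁻¹ bs]
    have hmu : (H : ℝ) * ∑ w : Fin M → Fin H,
        |lam (g, badJ h0 (a g 0) w) (bs.map (jN H M (badExt w)))| ≤ N * K := by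
      cases bs with
      | nil => simp at hl; omega
      | cons b bs => exact bad_mu a ha h0 lam K hS g b bs hl hp hbM hb
    have hmu' : N⁻¹ * ∑ w : Fin M → Fin H,
        |lam (g, badJ h0 (a g 0) w) (bs.map (jN H M (badExt w)))| ≤ η' - η := by
      refine le_trans ?_ hKH
      rw [le_div_iff₀ hH0, inv_mul_eq_div, div_mul_eq_mul_div, div_le_iff₀ hcard]
      linarith [mul_comm K N, mul_comm (H : ℝ) (∑ w : Fin M → Fin H,
        |lam (g, badJ h0 (a g 0) w) (bs.map (jN H M (badExt w)))|)]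
    have hD : ∀ w : Fin M → Fin H, |dl (lam (g, badJ h0 (a g 0) w))
          (iN H M (badExt w) :: bs.map (jN H M (badExt w))) - (if Box (a g) bs then 1 else 0)| ≤ η := by
      intro w
      have h1 := hlam (g, badJ h0 (a g 0) w) (iN H M (badExt w) :: bs.map (jN H M (badExt w)))
        (by simp [hl]) (bad_pairwise' h0 w bs hbM hp) (bad_mem a ha h0 g w d bs hbM hb)
      have h2 := badX_box_iff a ha h0 g w bs hbM
      simp only [h2] at h1
      exact h1
    have e1 : N⁻¹ * ∑ w : Fin M → Fin H, (dl (lam (g, badJ h0 (a g 0) w))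
          (iN H M (badExt w) :: bs.map (jN H M (badExt w))) -
        lam (g, badJ h0 (a g 0) w) (bs.map (jN H M (badExt w)))) -
        (if Box (a g) bs then 1 else 0) =
        N⁻¹ * ∑ w : Fin M → Fin H, ((dl (lam (g, badJ h0 (a g 0) w))
          (iN H M (badExt w) :: bs.map (jN H M (badExt w))) - (if Box (a g) bs then 1 else 0)) -
        lam (g, badJ h0 (a g 0) w) (bs.map (jN H M (badExt w)))) := by
      conv_lhs => rw [← hconst (if Box (a g) bs then 1 else 0), ← mul_sub, ← Finset.sum_sub_distrib]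
      congr 1
      apply Finset.sum_congr rfl
      intro w _
      ring
    rw [e1, abs_mul, abs_of_pos (inv_pos.mpr hcard)]
    have h5 : |∑ w : Fin M → Fin H, ((dl (lam (g, badJ h0 (a g 0) w))
          (iN H M (badExt w) :: bs.map (jN H M (badExt w))) - (if Box (a g) bs then 1 else 0)) -
        lam (g, badJ h0 (a g 0) w) (bs.map (jN H M (badExt w))))| ≤
        ∑ w : Fin M → Fin H, (η +
          |lam (g, badJ h0 (a g 0) w) (bs.map (jN H M (badExt w)))|) := by
      refine (Finset.abs_sum_le_sum_abs _ _).trans (Finset.sum_le_sum fun w _ => ?_)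
      exact (abs_sub _ _).trans (add_le_add (hD w) le_rfl)
    refine (mul_le_mul_of_nonneg_left h5 (inv_pos.mpr hcard).le).trans ?_
    rw [Finset.sum_add_distrib, mul_add, hconst]
    linarith)
  refine absurd hm3 (not_le.mpr ?_)
  by_cases hM' : ∀ b ∈ m', b < M
  · have h6 : ∀ w : Fin M → Fin H, (∑ g, if (∀ i ∈ m', a g 0 ≤ i ∧ i < a g d) then
        |lam (g, badJ h0 (a g 0) w) (iN H M (badExt w) :: m'.map (jN H M (badExt w)))| else 0) < K := by
      intro w
      refine lt_of_le_of_lt ?_ (hS (iN H M (badExt w) :: m'.map (jN H M (badExt w)))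
        (by simp [hm1]) (bad_pairwise' h0 w m' hM' hm2))
      unfold badS
      apply bad_sum_inj (fun g => (g, badJ h0 (a g 0) w))
      · intro g g' hgg
        exact (Prod.mk.inj hgg).1
      · intro k
        split_ifs
        · exact abs_nonneg _
        · exact le_rfl
      · intro g
        split_ifs with h1 h2 h2
        · exact le_rfl
        · exact absurd (bad_mem a ha h0 g w d m' hM' h1) h2
        · exact abs_nonneg _
        · exact le_rfl
    have h7 : (∑ g, if (∀ i ∈ m', a g 0 ≤ i ∧ i < a g d) then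
        |-(N⁻¹ * ∑ w : Fin M → Fin H, lam (g, badJ h0 (a g 0) w)
          (iN H M (badExt w) :: m'.map (jN H M (badExt w))))| else 0) ≤
        N⁻¹ * ∑ w : Fin M → Fin H, ∑ g, if (∀ i ∈ m', a g 0 ≤ i ∧ i < a g d) then
        |lam (g, badJ h0 (a g 0) w) (iN H M (badExt w) :: m'.map (jN H M (badExt w)))| else 0 := by
      rw [Finset.sum_comm, Finset.mul_sum]
      apply Finset.sum_le_sum
      intro g _
      split_ifs with h1
      · rw [abs_neg, abs_mul, abs_of_pos (inv_pos.mpr hcard)]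
        exact mul_le_mul_of_nonneg_left (Finset.abs_sum_le_sum_abs _ _) (inv_pos.mpr hcard).le
      · simp
    refine lt_of_le_of_lt h7 ?_
    have h8 : (∑ w : Fin M → Fin H, ∑ g, if (∀ i ∈ m', a g 0 ≤ i ∧ i < a g d) then
        |lam (g, badJ h0 (a g 0) w) (iN H M (badExt w) :: m'.map (jN H M (badExt w)))| else 0) <
        ∑ w : Fin M → Fin H, K := by
      have : Nonempty (Fin M → Fin H) := ⟨fun _ => ⟨0, h0⟩⟩
      exact Finset.sum_lt_sum_of_nonempty Finset.univ_nonempty fun w _ => h6 w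
    calc _ < N⁻¹ * ∑ w : Fin M → Fin H, K := mul_lt_mul_of_pos_left h8 (inv_pos.mpr hcard)
      _ = K := hconst K
  · refine lt_of_eq_of_lt ?_ hK
    apply Finset.sum_eq_zero
    intro g _
    rw [if_neg]
    intro h1
    exact hM' fun b hb => lt_of_lt_of_le (h1 b hb).2 (hM g)

theorem bad_all (d : ℕ) (hd : 1 ≤ d) (K η : ℝ) (hη : η < 1) : Bad d K η := by
  induction d, hd using Nat.le_induction generalizing η with
  | base => exact bad_one K η hη
  | succ d hd ih =>
    exact bad_step d hd K η ((1 + η) / 2) (by linarith) (ih _ (by linarith))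

end Pool.H49.ID
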