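import Pool.Agent.H49.ID.Tree

/-!
Module BASE. The base map.

`hP` says that for every `u` the set `Ex u` of letters `a` such that some `v ≥ a :: u` of length
`≤ N` violates `P u v` is finite. Define the base nodes: `[]` is one, and `a :: v` is one iff `v` is
one and `a ∈ Ex v`. `β v` is the longest base node `≤ v`; recursively
`β [] = []`, `β (a :: v) = if β v = v then (if a ∈ Ex v then a :: v else v) else β v`.
All items are inductions on the word:
(2) if `β v ≠ v` then `v ≥ a :: β v` with `a ∉ Ex (β v)`;
(3) if `β v ≠ v`, then `β v' = β v` for all `v' ≥ v`; if `β v = v` then `β v' = v` for all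
`v' ≥ a :: v` with `a ∉ Ex v`; in both cases `β v' ≠ v'` for length reasons when `v' ≥ a :: v`;
(4) the number of base nodes of length `≤ N` is finite: the base nodes of length `t + 1` are
`a :: v` with `v` a base node of length `t` and `a ∈ Ex v`;
(5) for `u <:+ v`: `β u = u` iff `u <:+ β v` (base nodes are closed under initial segments).
-/

open Cardinal Filter

namespace Pool.H49.ID

variable {A : Type}

open scoped Classical in
/-- The base map, for a predicate of exceptional letters. -/
noncomputable def base_map (Ex : List A → A → Prop) : List A → List A
  | [] => []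
  | a :: v => if base_map Ex v = v then (if Ex v a then a :: v else v) else base_map Ex v

section
variable (Ex : List A → A → Prop)

theorem base_suffix : ∀ v, base_map Ex v <:+ v
  | [] => List.suffix_refl _
  | a :: v => by
    have ih := base_suffix v
    unfold base_map
    split_ifs with h1 h2
    · exact List.suffix_refl _
    · exact List.suffix_cons a v
    · exact ih.trans (List.suffix_cons a v)

theorem base_of_cons {a : A} {v : List A} (h : base_map Ex (a :: v) = a :: v) :
    base_map Ex v = v ∧ Ex v a := by
  unfold base_map at h
  split_ifs at h with h1 h2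
  · exact ⟨h1, h2⟩
  · exact absurd h (by
      intro h
      have := congrArg List.length h
      simp at this)
  · have h3 := (base_suffix Ex v).length_le
    rw [h, List.length_cons] at h3
    omega

theorem base_idem : ∀ v, base_map Ex (base_map Ex v) = base_map Ex v
  | [] => rfl
  | a :: v => by
    have ih := base_idem v
    by_cases h1 : base_map Ex v = v
    · by_cases h2 : Ex v a
      · have h3 : base_map Ex (a :: v) = a :: v := by
          unfold base_map; rw [if_pos h1, if_pos h2]
        rw [h3, h3]
      · have h3 : base_map Ex (a :: v) = v := by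
          unfold base_map; rw [if_pos h1, if_neg h2]
        rw [h3, h1]
    · have h3 : base_map Ex (a :: v) = base_map Ex v := by
        rw [base_map, if_neg h1]
      rw [h3, ih]

theorem base_next : ∀ v, base_map Ex v ≠ v →
    ∃ a, (a :: base_map Ex v) <:+ v ∧ ¬ Ex (base_map Ex v) a
  | [], h => absurd rfl h
  | a :: v, h => by
    by_cases h1 : base_map Ex v = v
    · by_cases h2 : Ex v a
      · exact absurd (by rw [base_map, if_pos h1, if_pos h2]) h
      · have h3 : base_map Ex (a :: v) = v := by
          rw [base_map, if_pos h1, if_neg h2]
        exact ⟨a, by rw [h3], by rw [h3]; exact h2⟩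
    · have h3 : base_map Ex (a :: v) = base_map Ex v := by
        rw [base_map, if_neg h1]
      obtain ⟨b, hb1, hb2⟩ := base_next v h1
      exact ⟨b, by rw [h3]; exact hb1.trans (List.suffix_cons a v), by rw [h3]; exact hb2⟩

theorem base_stable {v : List A} (h : base_map Ex v ≠ v) :
    ∀ v', v <:+ v' → base_map Ex v' = base_map Ex v
  | [], h' => by
    rw [List.suffix_nil.1 h']
  | a :: v', h' => by
    rcases List.suffix_cons_iff.1 h' with rfl | h'
    · rfl
    · have ih := base_stable h v' h'
      have h1 : base_map Ex v' ≠ v' := by
        rw [ih]
        intro h2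
        have h3 := h'.length_le
        have h4 := (base_suffix Ex v).length_le
        have h5 : base_map Ex v = v := by
          apply (base_suffix Ex v).eq_of_length
          rw [h2] at h4 ⊢
          omega
        exact h h5
      rw [base_map, if_neg h1, ih]

theorem base_closed : ∀ w u, base_map Ex w = w → u <:+ w → base_map Ex u = u
  | [], u, _, h' => by rw [List.suffix_nil.1 h']; rfl
  | a :: w, u, h, h' => by
    rcases List.suffix_cons_iff.1 h' with rfl | h'
    · exact h
    · exact base_closed w u (base_of_cons Ex h).1 h'

theorem base_max {u : List A} (h : base_map Ex u = u) :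
    ∀ v, u <:+ v → u <:+ base_map Ex v
  | [], h' => by rw [List.suffix_nil.1 h']; exact List.nil_suffix
  | a :: v, h' => by
    rcases List.suffix_cons_iff.1 h' with rfl | h'
    · rw [h]
    · have ih := base_max h v h'
      unfold base_map
      split_ifs with h1 h2
      · exact h'.trans (List.suffix_cons a v)
      · exact h'
      · exact ih

end

theorem exists_base (N : ℕ) (P : List A → List A → Prop)
    (hP : ∀ u : List A, ∀ᶠ v in fil N u, P u v) :
    ∃ β : List A → List A, (∀ v, β v <:+ v) ∧
      (∀ v, v.length ≤ N → β v = v ∨ P (β v) v) ∧
      (∀ v, ∀ᶠ v' in fil N v, β v' = β v ∧ β v' ≠ v') ∧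
      {v : List A | v.length ≤ N ∧ β v = v}.Finite ∧
      (∀ u v, u <:+ v → (β u = u ↔ u <:+ β v)) := by
  let Ex : List A → A → Prop := fun u a => ∃ v, (a :: u) <:+ v ∧ v.length ≤ N ∧ ¬ P u v
  have hEx : ∀ u, {a | Ex u a}.Finite := fun u => ev_fil.1 (hP u)
  refine ⟨base_map Ex, base_suffix Ex, ?_, ?_, ?_, ?_⟩
  · intro v hv
    by_cases h : base_map Ex v = v
    · exact Or.inl h
    · obtain ⟨a, h1, h2⟩ := base_next Ex v h
      right
      by_contra h3
      exact h2 ⟨v, h1, hv, h3⟩
  · intro v
    rw [ev_fil]
    refine (hEx v).subset ?_
    rintro a ⟨v', h1, h2, h3⟩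
    by_contra h4
    have hvv : v <:+ v' := (List.suffix_cons a v).trans h1
    have hlt : v.length < v'.length := by
      have := h1.length_le
      rw [List.length_cons] at this
      omega
    have key : base_map Ex v' = base_map Ex v := by
      by_cases h : base_map Ex v = v
      · have h5 : base_map Ex (a :: v) = v := by
          rw [base_map, if_pos h, if_neg (show ¬ Ex v a from h4)]
        have h6 : base_map Ex (a :: v) ≠ a :: v := by
          rw [h5]
          intro h7
          have := congrArg List.length h7
          simp at this
        rw [base_stable Ex h6 v' h1, h5, h]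
      · exact base_stable Ex h v' hvv
    refine h3 ⟨key, ?_⟩
    intro h5
    have h6 := (base_suffix Ex v).length_le
    rw [← key, h5] at h6
    omega
  · have key : ∀ n, {v : List A | v.length = n ∧ base_map Ex v = v}.Finite := by
      intro n
      induction n with
      | zero =>
        refine (Set.finite_singleton ([] : List A)).subset ?_
        rintro v ⟨h1, -⟩
        exact List.length_eq_zero_iff.1 h1
      | succ n ih =>
        refine (ih.biUnion (t := fun v => (fun a => a :: v) '' {a | Ex v a})
          (fun v _ => (hEx v).image _)).subset ?_
        rintro v ⟨h1, h2⟩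
        match v with
        | [] => simp at h1
        | a :: v =>
          obtain ⟨h3, h4⟩ := base_of_cons Ex h2
          simp only [Set.mem_iUnion]
          refine ⟨v, ⟨by simpa using h1, h3⟩, a, h4, rfl⟩
    refine ((Set.finite_Iic N).biUnion (t := fun n => {v : List A | v.length = n ∧
      base_map Ex v = v}) (fun n _ => key n)).subset ?_
    rintro v ⟨h1, h2⟩
    simp only [Set.mem_iUnion]
    exact ⟨v.length, h1, rfl, h2⟩
  · intro u v huv
    exact ⟨fun h => base_max Ex h v huv, fun h => base_closed Ex _ u (base_idem Ex v) h⟩

end Pool.H49.ID
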