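import Pool.Agent.H49.ID.Defs

/-!
Module CZ. The exact sequence `0 → c_0 → ℓ_∞ → ℓ_∞ / c_0 → 0` with the model `C₀(ℕ, 𝕜)` of `c_0`, and the
monotonicity of `InjDimLE` in `n`.

`ses_c0`: the operator `C₀(ℕ, 𝕜) → LInf 𝕜 ℕ`, `x ↦ (x i)_i` (see `sm_base` in
Pool/Agent/H74/ID/Main.lean, where this operator `R` and an inverse `T` on `V 𝕜 0 ℕ` are constructed)
is isometric with range `V 𝕜 0 ℕ`; `ses_quot` (Pool/Agent/H74/ID/LI.lean).

`injDimLE_succ`: induction on `n`. `n = 0`: `X` injective: `E = X`, `Q = PUnit`, `q = 0`, `Q` is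
injective. `n + 1`: the same resolution, with the induction hypothesis for `Q`.
-/

open Cardinal Filter Topology
open scoped ENNReal ZeroAtInfty

namespace Pool.H49.ID

open Pool.H74.ID

variable {𝕜 : Type} [RCLike 𝕜]

theorem ses_c0 : ∃ j : C₀(ℕ, 𝕜) →L[𝕜] LInf 𝕜 ℕ, SES j (V 𝕜 0 ℕ).mkQL := by
  have h0 : ℵ_ ((0 : ℕ) : Ordinal.{0}) = ℵ₀ := by simp
  have hb : ∀ (x : C₀(ℕ, 𝕜)) (i : ℕ), ‖x i‖ ≤ ‖x‖ := by
    intro x i
    rw [← ZeroAtInftyContinuousMap.norm_toBCF_eq_norm]
    exact x.toBCF.norm_coe_le_norm i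
  let R : C₀(ℕ, 𝕜) →ₗ[𝕜] LInf 𝕜 ℕ :=
    { toFun := fun x => ⟨fun i => x i, memℓp_infty ⟨‖x‖, by
        rintro _ ⟨i, rfl⟩
        exact hb x i⟩⟩
      map_add' := fun x y => by
        apply lp.ext
        rfl
      map_smul' := fun c x => by
        apply lp.ext
        funext i
        simp }
  have hR : ∀ x, ‖R x‖ ≤ 1 * ‖x‖ := by
    intro x
    rw [one_mul]
    exact lp.norm_le_of_forall_le (norm_nonneg _) fun i => hb x i
  refine ⟨R.mkContinuous 1 hR, ses_quot _ 1 one_pos ?_ _ ?_⟩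
  · intro x
    rw [one_mul, ← ZeroAtInftyContinuousMap.norm_toBCF_eq_norm,
      BoundedContinuousFunction.norm_le (norm_nonneg _)]
    intro i
    exact lp.norm_apply_le_norm (by simp) (R x) i
  · intro y
    constructor
    · intro hy
      have hfin : ∀ ε : ℝ, 0 < ε → {i : ℕ | ε ≤ ‖y i‖}.Finite := by
        intro ε hε
        have h1 := (mem_V y).1 hy ε hε
        rw [h0] at h1
        exact lt_aleph0_iff_set_finite.1 h1
      refine ⟨⟨⟨fun i => y i, continuous_of_discreteTopology⟩, ?_⟩, ?_⟩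
      · rw [Metric.tendsto_nhds]
        intro ε hε
        rw [Filter.cocompact_eq_cofinite, Filter.eventually_cofinite]
        refine (hfin ε hε).subset ?_
        intro i hi
        simpa using hi
      · apply lp.ext
        rfl
    · rintro ⟨x, rfl⟩
      rw [mem_V]
      intro ε hε
      rw [h0]
      refine lt_aleph0_iff_set_finite.2 ?_
      have h2 := x.zero_at_infty'
      rw [Metric.tendsto_nhds] at h2
      have h3 := h2 ε hε
      rw [Filter.cocompact_eq_cofinite, Filter.eventually_cofinite] at h3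
      refine h3.subset ?_
      intro i hi
      have hi' : ε ≤ ‖x i‖ := hi
      simpa using hi'

theorem injDimLE_succ (n : ℕ) : ∀ (X : Type) [NormedAddCommGroup X] [NormedSpace 𝕜 X]
    [CompleteSpace X], InjDimLE 𝕜 n X → InjDimLE 𝕜 (n + 1) X := by
  induction n with
  | zero =>
    intro X _ _ _ hX
    refine ⟨X, PUnit, inferInstance, inferInstance, inferInstance, inferInstance, inferInstance,
      inferInstance, ContinuousLinearMap.id 𝕜 X, 0, hX, fun x y h => h, ?_, ?_, ?_⟩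
    · intro y
      exact ⟨0, Subsingleton.elim _ _⟩
    · intro e
      exact ⟨fun _ => ⟨e, rfl⟩, fun _ => Subsingleton.elim _ _⟩
    · intro Y _ _ _ M _ f
      exact ⟨0, fun m => Subsingleton.elim _ _⟩
  | succ n ih =>
    intro X _ _ _ hX
    obtain ⟨E, Q, i1, i2, i3, i4, i5, i6, j, q, hE, hj, hq, hex, hQ⟩ := hX
    exact ⟨E, Q, i1, i2, i3, i4, i5, i6, j, q, hE, hj, hq, hex, ih Q hQ⟩

end Pool.H49.ID
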