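import Pool.Agent.H49.ID.Tree

/-! The cocycles attached to the boxes: definitions and elementary facts. -/

open Cardinal Filter
open scoped ENNReal ZeroAtInfty

namespace Pool.H49.ID

open Pool.H74.ID

variable {𝕜 : Type} [RCLike 𝕜] {A : Type}

/-- `mt v s` is the longest common initial segment of `v` and `s` (words grow at the head). -/
noncomputable def mt (v s : List A) : List A :=
  open scoped Classical in s.drop (Nat.find (⟨s.length, by simp⟩ : ∃ k, s.drop k <:+ v))

/-- `ini w t`: the initial segment of `w` of length `min t w.length`. -/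
def ini (w : List A) (t : ℕ) : List A := w.drop (w.length - t)

theorem ini_suffix (w : List A) (t : ℕ) : ini w t <:+ w := List.drop_suffix _ _

theorem length_ini (w : List A) (t : ℕ) (h : t ≤ w.length) : (ini w t).length = t := by
  unfold ini
  rw [List.length_drop]
  omega

theorem length_ini_le (w : List A) (t : ℕ) : (ini w t).length ≤ t := by
  unfold ini
  rw [List.length_drop]
  omega

theorem suffix_eq_drop {u w : List A} (h : u <:+ w) : u = w.drop (w.length - u.length) := by
  obtain ⟨z, rfl⟩ := h
  simp

/-- Initial segments of a word are determined by their length. -/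
theorem eq_of_suffix {u v w : List A} (h1 : u <:+ w) (h2 : v <:+ w) (h : u.length = v.length) :
    u = v := by
  rw [suffix_eq_drop h1, suffix_eq_drop h2, h]

theorem suffix_of_suffix_length {u v w : List A} (h1 : u <:+ w) (h2 : v <:+ w)
    (h : u.length ≤ v.length) : u <:+ v := by
  rw [suffix_eq_drop h1, suffix_eq_drop h2]
  have e : w.length - u.length = (w.length - v.length) + (v.length - u.length) := by
    have := h1.length_le
    have := h2.length_le
    omega
  rw [e, ← List.drop_drop]
  exact List.drop_suffix _ _

theorem ini_eq_of_suffix {w w' : List A} {t : ℕ} (h : w <:+ w') (ht : t ≤ w.length) :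
    ini w t = ini w' t :=
  eq_of_suffix ((ini_suffix w t).trans h) (ini_suffix w' t)
    (by rw [length_ini w t ht, length_ini w' t (ht.trans h.length_le)])

theorem mt_suffix_left (v s : List A) : mt v s <:+ v := by
  classical
  unfold mt
  convert Nat.find_spec (⟨s.length, by simp⟩ : ∃ k, s.drop k <:+ v)

theorem mt_suffix_right (v s : List A) : mt v s <:+ s := List.drop_suffix _ _

theorem suffix_mt {u v s : List A} (h1 : u <:+ v) (h2 : u <:+ s) : u <:+ mt v s := by
  classical
  have h3 := suffix_eq_drop h2
  refine suffix_of_suffix_length h2 (mt_suffix_right v s) ?_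
  unfold mt
  have h4 := Nat.find_min' (⟨s.length, by simp⟩ : ∃ k, s.drop k <:+ v)
    (m := s.length - u.length) (by rw [← h3]; exact h1)
  rw [List.length_drop]
  have := h2.length_le
  omega

theorem mt_eq_of {u v s : List A} (h1 : u <:+ v) (h2 : u <:+ s)
    (h : ∀ z, z <:+ v → z <:+ s → z <:+ u) : mt v s = u := by
  have h3 := h _ (mt_suffix_left v s) (mt_suffix_right v s)
  have h4 := suffix_mt h1 h2
  exact eq_of_suffix h3 (List.suffix_refl u) (le_antisymm h3.length_le h4.length_le)

theorem mt_mono {v s s' : List A} (h : s <:+ s') : mt v s <:+ mt v s' :=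
  suffix_mt (mt_suffix_left v s) ((mt_suffix_right v s).trans h)

theorem mt_of_suffix {v s : List A} (h : s <:+ v) : mt v s = s :=
  mt_eq_of h (List.suffix_refl s) fun _ _ h => h

/-- If the first letter of `v'` after `v` is not the first letter of `s` after `v`, then `v'` and
`v` have the same meet with `s`. -/
theorem mt_eq_mt {a : A} {v v' s : List A} (h1 : (a :: v) <:+ v') (h2 : ¬ (a :: v) <:+ s) :
    mt v' s = mt v s := by
  have hv : v <:+ v' := (List.suffix_cons a v).trans h1
  refine mt_eq_of ((mt_suffix_left v s).trans hv) (mt_suffix_right v s) ?_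
  intro z hz1 hz2
  refine suffix_mt ?_ hz2
  by_cases h : z.length ≤ v.length
  · exact suffix_of_suffix_length hz1 hv h
  · exfalso
    apply h2
    refine (suffix_of_suffix_length h1 hz1 ?_).trans hz2
    rw [List.length_cons]
    omega

/-- The cocycle of a box with thresholds `x 0 ≤ x 1 ≤ ⋯ ≤ x d` and sign function `e`:
`Eco e d x [w_0, ..., w_d] = e w_d` if `x q ≤ |w_q| < x (q+1)` for `q < d` and `x d ≤ |w_d|`,
and `0` otherwise. -/
noncomputable def Eco (e : List A → 𝕜) : ℕ → (ℕ → ℕ) → List (List A) → 𝕜
  | 0, x, l => match l with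
    | [w] => if x 0 ≤ w.length then e w else 0
    | _ => 0
  | d + 1, x, l => match l with
    | w :: l' => if x 0 ≤ w.length ∧ w.length < x 1 then Eco e d (fun q => x (q + 1)) l' else 0
    | [] => 0

/-- The same condition for lists of lengths: `Chi d x [i_0, ..., i_d]` iff `x q ≤ i_q < x (q+1)`
for `q < d` and `x d ≤ i_d`. -/
def Chi : ℕ → (ℕ → ℕ) → List ℕ → Prop
  | 0, x, l => match l with
    | [i] => x 0 ≤ i
    | _ => False
  | d + 1, x, l => match l with
    | i :: l' => (x 0 ≤ i ∧ i < x 1) ∧ Chi d (fun q => x (q + 1)) l'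
    | [] => False

theorem norm_eco_le {e : List A → 𝕜} (he : ∀ w, ‖e w‖ ≤ 1) (d : ℕ) (x : ℕ → ℕ)
    (l : List (List A)) : ‖Eco e d x l‖ ≤ 1 := by
  induction d generalizing x l with
  | zero =>
    match l with
    | [] => simp [Eco]
    | [w] =>
      simp only [Eco]
      split_ifs
      · exact he w
      · simp
    | _ :: _ :: _ => simp [Eco]
  | succ d ih =>
    match l with
    | [] => simp [Eco]
    | w :: l' =>
      simp only [Eco]
      split_ifs
      · exact ih _ _
      · simp

open scoped Classical in
/-- `Eco` in terms of `Chi`. -/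
theorem eco_eq (e : List A → 𝕜) (d : ℕ) (x : ℕ → ℕ) (c : List (List A)) (w : List A) :
    Eco e d x (c ++ [w]) =
      if Chi d x ((c ++ [w]).map List.length) then e w else 0 := by
  induction d generalizing x c with
  | zero =>
    match c with
    | [] => simp [Eco, Chi]
    | [a] => simp [Eco, Chi]
    | a :: b :: c => simp [Eco, Chi]
  | succ d ih =>
    match c with
    | [] =>
      have h := ih (fun q => x (q + 1)) []
      cases d with
      | zero => simp [Eco, Chi]
      | succ d => simp [Eco, Chi]
    | a :: c =>
      simp only [List.cons_append, Eco, List.map_cons, Chi, ih]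
      by_cases h1 : x 0 ≤ a.length ∧ a.length < x 1
      · simp [h1]
      · rw [if_neg h1, if_neg (fun h => h1 h.1)]

theorem chi_append (d : ℕ) (x : ℕ → ℕ) (l : List ℕ) (i : ℕ) (h : l.length = d) :
    Chi d x (l ++ [i]) ↔ Box x l ∧ x d ≤ i := by
  subst h
  induction l generalizing x with
  | nil => simp [Chi, Box]
  | cons k l ih =>
    simp only [List.cons_append, List.length_cons, Chi, Box]
    rw [ih]
    tauto

/-- The functions `D c` of the tower: `D c [v_1, ..., v_j] = E (s_0 ∧ v_1, ..., s_m ∧ v_1, v_1, ..., v_j)`
for `c = [s_0, ..., s_m]`. -/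
noncomputable def Dc (e : List A → 𝕜) (he : ∀ w, ‖e w‖ ≤ 1) (d : ℕ) (x : ℕ → ℕ)
    (c : List (List A)) : BL 𝕜 (List A) :=
  ⟨fun l => match l with
    | [] => 0
    | v :: l' => Eco e d x (c.map (mt v) ++ v :: l'), fun n => ⟨1, fun l _ => by
      match l with
      | [] => simp
      | v :: l' => exact norm_eco_le he d x _⟩⟩

/-- The bottom of the tower: `D₀ c = E c • δ_t`, `t` the initial segment of length `x d` of the last
element of `c`. -/
noncomputable def Dz (e : List A → 𝕜) (d : ℕ) (x : ℕ → ℕ) (c : List (List A)) : List A →₀ 𝕜 :=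
  match c.getLast? with
    | none => 0
    | some w => Finsupp.single (ini w (x d)) (Eco e d x c)

/-- Admissible chains for the box `a`. -/
def Va {G : Type} (x : G → ℕ → ℕ) (c : List (List A)) (a : G) : Prop :=
  c.Pairwise (fun s t => s <:+ t ∧ s.length < t.length) ∧ ∀ s ∈ c, x a 0 ≤ s.length

theorem va_sublist {G : Type} (x : G → ℕ → ℕ) (c c' : List (List A)) (a : G)
    (h : c'.Sublist c) (hc : Va x c a) : Va x c' a :=
  ⟨hc.1.sublist h, fun s hs => hc.2 s (h.subset hs)⟩

end Pool.H49.ID
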