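import Pool.Agent.H49.ID.ECO

/-!
Module DCS. The relation between `D` on chains and its coboundary in the tower, degrees `≥ 1`.

Proof. By `pn_le` it is enough that the function vanishes at all `l` in a set of `gf N (k+1)`. Take
`l = v₁ :: v₂ :: l''` with the words growing (`gf_chain`), and `v₂ ≥ a :: v₁` for a letter `a` such
that `a :: v₁` is not an initial segment of any `s ∈ c` (all but finitely many `a`: each `s` excludes
at most one). Then `mt v₂ s = mt v₁ s` for `s ∈ c` (`mt_eq_mt`). Let `c₁ = c.map (mt v₁)`.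
`c₁ ++ l` is increasing for `<:+` (`mt_mono`, `mt_suffix_left`), and either all its words have
length `≥ x 0`, or its first two words are equal: if `|mt v₁ s₀| < x 0 ≤ |s₀|` then
`mt v₁ s₁ = mt v₁ s₀` (a common initial segment of `v₁` and `s₁` longer than `mt v₁ s₀` would give a
common initial segment of `v₁` and `s₀` of length `|mt v₁ s₀| + 1`, as `s₀ <:+ s₁`). By `eco_cocycle`
and `dl_append`:
`0 = dl (fun c'' => Eco (c'' ++ l)) c₁ + (-1)^|c| • dl (fun l' => Eco (c₁ ++ l')) l`.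
The first term is `dl (fun c' => Dc c' l) c` (`dl_comp_map`), the second one is `dB (Dc c) l`, because
all faces of `l` except `v₂ :: l''` start with `v₁`, and `Dc c (v₂ :: l'') = Eco (c₁ ++ v₂ :: l'')`.
-/

open Cardinal Filter

namespace Pool.H49.ID

variable {𝕜 : Type} [RCLike 𝕜] {A : Type}

theorem dcs_apply (e : List A → 𝕜) (he : ∀ w, ‖e w‖ ≤ 1) (d : ℕ) (x : ℕ → ℕ)
    (c : List (List A)) (v : List A) (l' : List (List A)) :
    (Dc e he d x c : List (List A) → 𝕜) (v :: l') = Eco e d x (c.map (mt v) ++ v :: l') := rfl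

/-- evaluation of an alternating sum of functions on lists -/
theorem dcs_eval {α T : Type} (F : List α → BL 𝕜 T) (c : List α) (l : List T) :
    ((dl F c : BL 𝕜 T) : List T → 𝕜) l = dl (fun c' => (F c' : List T → 𝕜) l) c := by
  induction c generalizing F with
  | nil => rfl
  | cons a c ih =>
    rw [dl_cons, dl_cons, ← ih]
    rfl

/-- far above `v₁` the meets with the words of `c` do not change -/
theorem dcs_far (N : ℕ) (c : List (List A)) (v₁ : List A) :
    ∀ᶠ v in fil N v₁, ∀ s ∈ c, mt v s = mt v₁ s := by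
  rw [ev_fil]
  have hfin : (⋃ s ∈ {s | s ∈ c}, {a : A | (a :: v₁) <:+ s}).Finite := by
    refine Set.Finite.biUnion (List.finite_toSet c) fun s _ => ?_
    refine Set.Subsingleton.finite ?_
    intro a ha b hb
    have h := eq_of_suffix (show (a :: v₁) <:+ s from ha) (show (b :: v₁) <:+ s from hb) (by simp)
    exact (List.cons.inj h).1
  refine hfin.subset ?_
  rintro a ⟨v, h1, _, h3⟩
  by_contra hcon
  apply h3
  intro s hs
  refine mt_eq_mt h1 fun h4 => hcon ?_
  exact Set.mem_biUnion (show s ∈ {s | s ∈ c} from hs) h4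

/-- the identity at a growing list whose second word is far above the first one -/
theorem dcs_point (d : ℕ) (x : ℕ → ℕ) (hx : Monotone x) (e : List A → 𝕜)
    (he : ∀ w, ‖e w‖ ≤ 1) (he' : ∀ w w' : List A, w <:+ w' → x d ≤ w.length → e w = e w')
    (c : List (List A)) (hc : c.Pairwise (fun s t => s <:+ t ∧ s.length < t.length))
    (hc0 : ∀ s ∈ c, x 0 ≤ s.length) (hlen : 2 ≤ c.length) (v₁ v₂ : List A) (l : List (List A))
    (hl : (v₁ :: v₂ :: l).Pairwise (fun a b => a <:+ b ∧ a.length < b.length))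
    (hv : ∀ s ∈ c, mt v₂ s = mt v₁ s) :
    dl (fun c' => (Dc e he d x c' : List (List A) → 𝕜) (v₁ :: v₂ :: l)) c =
      (-1 : ℤ) ^ (c.length + 1) • dl (Dc e he d x c : List (List A) → 𝕜) (v₁ :: v₂ :: l) := by
  have h1 : dl (fun c' => (Dc e he d x c' : List (List A) → 𝕜) (v₁ :: v₂ :: l)) c =
      dl (fun c' => Eco e d x (c' ++ v₁ :: v₂ :: l)) (c.map (mt v₁)) := by
    rw [← dl_comp_map (mt v₁) c (fun c' => Eco e d x (c' ++ v₁ :: v₂ :: l))]
    rfl
  have h2 : dl (Dc e he d x c : List (List A) → 𝕜) (v₁ :: v₂ :: l) =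
      dl (fun l' => Eco e d x (c.map (mt v₁) ++ l')) (v₁ :: v₂ :: l) := by
    have hm : c.map (mt v₂) = c.map (mt v₁) := List.map_congr_left hv
    rw [dl_cons, dl_cons _ v₁ (v₂ :: l), dcs_apply, hm]
    rfl
  have hne : c ≠ [] := by
    rintro rfl
    simp at hlen
  have hcc : (c.map (mt v₁) ++ v₁ :: v₂ :: l).Pairwise (· <:+ ·) := by
    rw [List.pairwise_append]
    refine ⟨?_, hl.imp fun h => h.1, ?_⟩
    · rw [List.pairwise_map]
      exact hc.imp fun h => mt_mono h.1
    · intro a ha b hb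
      obtain ⟨s, _, rfl⟩ := List.mem_map.1 ha
      refine (mt_suffix_left v₁ s).trans ?_
      rcases List.mem_cons.1 hb with rfl | hb
      · exact List.suffix_refl _
      · exact ((List.pairwise_cons.1 hl).1 b hb).1
  have h0 : (∀ w ∈ c.map (mt v₁) ++ v₁ :: v₂ :: l, x 0 ≤ w.length) ∨
      ∃ w l', c.map (mt v₁) ++ v₁ :: v₂ :: l = w :: w :: l' := by
    match c, hc, hc0, hlen, hne, hcc with
    | s₀ :: s₁ :: c'', hc, hc0, _, _, hcc =>
      by_cases h3 : x 0 ≤ (mt v₁ s₀).length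
      · left
        intro w hw
        have h4 : (mt v₁ s₀ :: ((s₁ :: c'').map (mt v₁) ++ v₁ :: v₂ :: l)).Pairwise (· <:+ ·) := hcc
        have h5 : w = mt v₁ s₀ ∨ w ∈ (s₁ :: c'').map (mt v₁) ++ v₁ :: v₂ :: l := List.mem_cons.1 hw
        rcases h5 with rfl | h5
        · exact h3
        · exact h3.trans ((List.pairwise_cons.1 h4).1 w h5).length_le
      · right
        refine ⟨mt v₁ s₀, c''.map (mt v₁) ++ v₁ :: v₂ :: l, ?_⟩
        have hs01 : s₀ <:+ s₁ := ((List.pairwise_cons.1 hc).1 s₁ (by simp)).1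
        have hs0 : x 0 ≤ s₀.length := hc0 s₀ (by simp)
        have h6 : mt v₁ s₁ = mt v₁ s₀ := by
          refine mt_eq_of (mt_suffix_left v₁ s₀) ((mt_suffix_right v₁ s₀).trans hs01) ?_
          intro z hz1 hz2
          by_cases h7 : z.length ≤ s₀.length
          · exact suffix_mt hz1 (suffix_of_suffix_length hz2 hs01 h7)
          · exfalso
            apply h3
            have h8 : s₀ <:+ z := suffix_of_suffix_length hs01 hz2 (by omega)
            rw [mt_of_suffix (h8.trans hz1)]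
            exact hs0
        simp only [List.map_cons, List.cons_append, h6]
  have h3 := eco_cocycle e d x hx he' _ hcc h0
  rw [dl_append, List.length_map, ← h1, ← h2] at h3
  rw [pow_succ, mul_neg, mul_one, neg_smul]
  exact eq_neg_of_add_eq_zero_left h3

theorem dc_step (N k d : ℕ) (x : ℕ → ℕ) (hx : Monotone x) (e : List A → 𝕜)
    (he : ∀ w, ‖e w‖ ≤ 1) (he' : ∀ w w' : List A, w <:+ w' → x d ≤ w.length → e w = e w')
    (c : List (List A)) (hc : c.Pairwise (fun s t => s <:+ t ∧ s.length < t.length))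
    (hc0 : ∀ s ∈ c, x 0 ≤ s.length) (hlen : 2 ≤ c.length) :
    pn 𝕜 A N (k + 1) (dl (fun c' => Dc e he d x c') c -
      (-1 : ℤ) ^ (c.length + 1) • dB 𝕜 (List A) (Dc e he d x c)) = 0 := by
  refine le_antisymm (pn_le le_rfl ?_) (apply_nonneg _ _)
  have hfar : ∀ᶠ l in gf N (k + 1), ∃ v₁ v₂ l'', l = v₁ :: v₂ :: l'' ∧
      ∀ s ∈ c, mt v₂ s = mt v₁ s := by
    rw [ev_gf]
    intro v₁ _
    rw [ev_nf_succ]
    filter_upwards [dcs_far N c v₁] with v₂ hv₂
    exact Eventually.of_forall fun l'' => ⟨v₁, v₂, l'', rfl, hv₂⟩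
  filter_upwards [hfar, gf_chain N (k + 1)] with l hl1 hl2
  obtain ⟨v₁, v₂, l'', rfl, hv⟩ := hl1
  rw [norm_le_zero_iff]
  have h1 := dcs_point d x hx e he he' c hc hc0 hlen v₁ v₂ l'' hl2.1 hv
  have h2 := dcs_eval (fun c' => Dc e he d x c') c (v₁ :: v₂ :: l'')
  rw [← h2] at h1
  have h3 : ((dl (fun c' => Dc e he d x c') c -
      (-1 : ℤ) ^ (c.length + 1) • dB 𝕜 (List A) (Dc e he d x c) : BL 𝕜 (List A)) :
        List (List A) → 𝕜) (v₁ :: v₂ :: l'') =
      ((dl (fun c' => Dc e he d x c') c : BL 𝕜 (List A)) : List (List A) → 𝕜) (v₁ :: v₂ :: l'') -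
      (-1 : ℤ) ^ (c.length + 1) • dl (Dc e he d x c : List (List A) → 𝕜) (v₁ :: v₂ :: l'') := rfl
  rw [h3, h1, sub_self]

end Pool.H49.ID
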