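import Pool.Agent.H49.ID.Defs

/-! Alternating sums over the faces of a list. -/

namespace Pool.H49.ID

section
variable {α β M M' : Type*} [AddCommGroup M] [AddCommGroup M']

@[simp] theorem dl_nil (L : List α → M) : dl L [] = 0 := rfl

theorem dl_cons (L : List α → M) (x : α) (l : List α) :
    dl L (x :: l) = L l - dl (fun l' => L (x :: l')) l := rfl

/-- `dl L c` depends only on the values at the faces of `c`. -/
theorem dl_congr : ∀ (c : List α) (L L' : List α → M),
    (∀ c', c'.Sublist c → c'.length + 1 = c.length → L c' = L' c') → dl L c = dl L' c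
  | [], _, _, _ => rfl
  | x :: l, L, L', h => by
    rw [dl_cons, dl_cons, h l (List.sublist_cons_self x l) rfl]
    congr 1
    apply dl_congr l
    intro c' h1 h2
    exact h (x :: c') (h1.cons_cons x) (by simp [h2])

theorem dl_zero : ∀ (c : List α), dl (fun _ => (0 : M)) c = 0
  | [] => rfl
  | x :: l => by rw [dl_cons, dl_zero l, sub_zero]

theorem dl_add : ∀ (c : List α) (L L' : List α → M),
    dl (fun c' => L c' + L' c') c = dl L c + dl L' c
  | [], _, _ => by simp
  | x :: l, L, L' => by
    rw [dl_cons, dl_cons, dl_cons, dl_add l]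
    abel

theorem dl_neg : ∀ (c : List α) (L : List α → M), dl (fun c' => - L c') c = - dl L c
  | [], _ => by simp
  | x :: l, L => by
    rw [dl_cons, dl_cons, dl_neg l]
    abel

theorem dl_sub (c : List α) (L L' : List α → M) :
    dl (fun c' => L c' - L' c') c = dl L c - dl L' c := by
  simp only [sub_eq_add_neg]
  rw [dl_add c L (fun c' => - L' c'), dl_neg]

/-- Additive maps commute with `dl`. -/
theorem dl_map_hom {F : Type*} [FunLike F M M'] [AddMonoidHomClass F M M'] (T : F) :
    ∀ (c : List α) (L : List α → M), dl (fun c' => T (L c')) c = T (dl L c)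
  | [], _ => by simp
  | x :: l, L => by
    rw [dl_cons, dl_cons, map_sub, dl_map_hom T l]

theorem dl_smul {R : Type*} [Ring R] [Module R M] (r : R) (c : List α) (L : List α → M) :
    dl (fun c' => r • L c') c = r • dl L c := by
  induction c generalizing L with
  | nil => simp
  | cons x l ih => rw [dl_cons, dl_cons, ih, smul_sub]

theorem dl_sum {ι : Type*} (s : Finset ι) (c : List α) (L : ι → List α → M) :
    dl (fun c' => ∑ i ∈ s, L i c') c = ∑ i ∈ s, dl (L i) c := by
  induction c generalizing L with
  | nil => simp
  | cons x l ih =>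
    rw [dl_cons, ih, ← Finset.sum_sub_distrib]
    rfl

/-- Evaluation commutes with `dl`. -/
theorem dl_apply {ι : Type*} (c : List α) (L : List α → ι → M) (i : ι) :
    dl L c i = dl (fun c' => L c' i) c := by
  induction c generalizing L with
  | nil => rfl
  | cons x l ih =>
    rw [dl_cons, dl_cons, Pi.sub_apply, ih]

/-- Reindexing of the vertices. -/
theorem dl_comp_map (g : β → α) : ∀ (c : List β) (L : List α → M),
    dl (fun c' => L (c'.map g)) c = dl L (c.map g)
  | [], _ => rfl
  | x :: l, L => by
    rw [dl_cons, List.map_cons, dl_cons]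
    congr 1
    exact dl_comp_map g l (fun l' => L (g x :: l'))

/-- Faces of a concatenation. -/
theorem dl_append : ∀ (c l : List α) (L : List α → M),
    dl L (c ++ l) = dl (fun c' => L (c' ++ l)) c + (-1 : ℤ) ^ c.length • dl (fun l' => L (c ++ l')) l
  | [], l, L => by simp
  | x :: c, l, L => by
    rw [List.cons_append, dl_cons, dl_cons, dl_append c l]
    simp only [List.length_cons, pow_succ, List.cons_append, mul_neg, mul_one, neg_smul]
    abel

theorem dl_append_singleton (c : List α) (N : α) (L : List α → M) :
    dl L (c ++ [N]) = dl (fun c' => L (c' ++ [N])) c + (-1 : ℤ) ^ c.length • L c := by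
  rw [dl_append, dl_cons, dl_nil, sub_zero, List.append_nil]

/-- `dl ∘ dl = 0`. -/
theorem dl_dl : ∀ (c : List α) (L : List α → M), dl (fun c' => dl L c') c = 0
  | [], _ => rfl
  | x :: l, L => by
    rw [dl_cons]
    have h1 : dl (fun l' => dl L (x :: l')) l =
        dl (fun l' => L l') l - dl (fun l' => dl (fun l'' => L (x :: l'')) l') l := by
      rw [← dl_sub]
      rfl
    rw [h1, dl_dl l, sub_zero, sub_self]

end

theorem norm_dl_le {α E : Type*} [SeminormedAddCommGroup E] (c : List α) (L : List α → E) (C : ℝ)
    (h : ∀ c', c'.Sublist c → c'.length + 1 = c.length → ‖L c'‖ ≤ C) :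
    ‖dl L c‖ ≤ c.length * C := by
  induction c generalizing L with
  | nil => simp
  | cons x l ih =>
    rw [dl_cons]
    have h1 := h l (List.sublist_cons_self x l) rfl
    have h2 := ih (fun l' => L (x :: l')) (fun c' h1 h2 => h (x :: c') (h1.cons_cons x) (by simp [h2]))
    refine (norm_sub_le _ _).trans ?_
    rw [List.length_cons]
    push_cast
    linarith

end Pool.H49.ID
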