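import Pool.Agent.H49.ID.ECO

/-!
Module DZS. The relation between `D` on chains and the bottom of the tower.

Proof. It is enough (`pn_le`, `ev_gf`, `ev_nf_zero`) that the function vanishes at all `[v]`. Let
`c₁ = c.map (mt v)`. `dl (fun c' => Dc c' [v]) c = dl (fun c'' => Eco (c'' ++ [v])) c₁`
(`dl_comp_map`), and `0 = dl Eco (c₁ ++ [v]) = dl (fun c'' => Eco (c'' ++ [v])) c₁ + (-1)^|c| • Eco c₁`
by `eco_cocycle` (hypotheses as in module DCS: if `|mt v s₀| < x 0 ≤ |s₀|` then
`mt v s₁ = mt v s₀`) and `dl_append_singleton`. So it is left to see, with `c = c' ++ [w]`,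
`Eco c₁ = if ini w (x d) <:+ v then Eco c else 0` (the value of `d0 (Dz c)` at `[v]`: `d0_single`,
`pre` of `Finsupp.single`). Use `eco_eq`, `chi_append` (if `c'.length ≠ d` both sides are 0):
* not `ini w (x d) <:+ v`: then `|mt v w| < x d` (otherwise
  `ini w (x d) = ini (mt v w) (x d) <:+ mt v w <:+ v`), so `Eco c₁ = 0`.
* `ini w (x d) <:+ v` and `|w| < x d`: both are 0.
* `ini w (x d) <:+ v` and `x d ≤ |w|`: `ini w (x d) <:+ mt v w`, so `x d ≤ |mt v w|` and
  `e (mt v w) = e w`; for `s ∈ c'` at position `q < d`: if `|s| ≤ x d` then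
  `s <:+ ini w (x d) <:+ v`, so `mt v s = s`; if `x d < |s|`, then `|mt v s| ≥ x d ≥ x (q+1)` as well
  (`ini w (x d) <:+ s`), so both `Box` conditions fail.
-/

open Cardinal Filter

namespace Pool.H49.ID

variable {𝕜 : Type} [RCLike 𝕜] {A : Type}

private theorem dzs_chi_length {d : ℕ} {x : ℕ → ℕ} {l : List ℕ} (h : Chi d x l) :
    l.length = d + 1 := by
  induction d generalizing x l with
  | zero =>
    match l with
    | [] => exact absurd h (by simp [Chi])
    | [i] => rfl
    | _ :: _ :: _ => exact absurd h (by simp [Chi])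
  | succ d ih =>
    match l with
    | [] => exact absurd h (by simp [Chi])
    | i :: l' =>
      have h2 : (x 0 ≤ i ∧ i < x 1) ∧ Chi d (fun q => x (q + 1)) l' := h
      rw [List.length_cons, ih h2.2]

private theorem dzs_box {T : ℕ} {l l' : List ℕ}
    (h : List.Forall₂ (fun i i' => i = i' ∨ (T ≤ i ∧ T ≤ i')) l l') {x : ℕ → ℕ}
    (hx : Monotone x) (hT : x l.length ≤ T) : Box x l ↔ Box x l' := by
  induction h generalizing x with
  | nil => exact Iff.rfl
  | @cons i i' l l' hi _ ih =>
    have hx' : Monotone fun q => x (q + 1) := fun p q hpq => hx (Nat.add_le_add_right hpq 1)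
    have h1 := ih hx' hT
    have h2 : x 1 ≤ T := (hx (by rw [List.length_cons]; omega)).trans hT
    change ((x 0 ≤ i ∧ i < x 1) ∧ Box (fun q => x (q + 1)) l) ↔
      ((x 0 ≤ i' ∧ i' < x 1) ∧ Box (fun q => x (q + 1)) l')
    rw [h1]
    rcases hi with rfl | ⟨h3, h4⟩
    · exact Iff.rfl
    · constructor
      · rintro ⟨⟨_, h5⟩, _⟩
        omega
      · rintro ⟨⟨_, h5⟩, _⟩
        omega

private theorem dzs_pre (u v : List A) (r : 𝕜) (P : Prop) [Decidable P] (hP : P ↔ u <:+ v) :
    pre (Finsupp.single u r) v = if P then r else 0 := by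
  classical
  unfold pre
  rw [Finsupp.sum_single_index (by simp)]
  by_cases h : u <:+ v
  · rw [if_pos h, if_pos (hP.2 h)]
  · rw [if_neg h, if_neg (fun h' => h (hP.1 h'))]

/-- the value of the cocycle on the meets -/
private theorem dzs_main (d : ℕ) (x : ℕ → ℕ) (hx : Monotone x) (e : List A → 𝕜)
    (he' : ∀ w w' : List A, w <:+ w' → x d ≤ w.length → e w = e w')
    (c : List (List A)) (hc : c.Pairwise (fun s t => s <:+ t ∧ s.length < t.length))
    (hne : c ≠ []) (v : List A) :
    Eco e d x (c.map (mt v)) = pre (Dz e d x c) v := by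
  classical
  obtain ⟨c', w, rfl⟩ : ∃ c' w, c = c' ++ [w] :=
    ⟨c.dropLast, c.getLast hne, (List.dropLast_append_getLast hne).symm⟩
  have hD : Dz e d x (c' ++ [w]) = Finsupp.single (ini w (x d)) (Eco e d x (c' ++ [w])) := by
    unfold Dz
    rw [List.getLast?_append]
    rfl
  have hw : ∀ s ∈ c', s <:+ w := fun s hs =>
    ((List.pairwise_append.1 hc).2.2 s hs w (List.mem_singleton_self w)).1
  rw [hD, dzs_pre _ _ _ (ini w (x d) <:+ v) Iff.rfl, List.map_append, List.map_singleton, eco_eq,
    eco_eq]
  rw [List.map_append, List.map_singleton, List.map_append, List.map_singleton]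
  by_cases hlen : c'.length = d
  · have hl1 : ((c'.map (mt v)).map List.length).length = d := by
      rw [List.length_map, List.length_map, hlen]
    have hl2 : (c'.map List.length).length = d := by rw [List.length_map, hlen]
    by_cases h1 : ini w (x d) <:+ v ∧ x d ≤ w.length
    · obtain ⟨h1, h2⟩ := h1
      have h3 : ini w (x d) <:+ mt v w := suffix_mt h1 (ini_suffix w _)
      have h4 : x d ≤ (mt v w).length := by
        have := h3.length_le
        rwa [length_ini w _ h2] at this
      have h5 : Box x ((c'.map (mt v)).map List.length) ↔ Box x (c'.map List.length) := by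
        refine dzs_box (T := x d) ?_ hx (by rw [hl1])
        rw [List.map_map, List.forall₂_map_left_iff, List.forall₂_map_right_iff,
          List.forall₂_same]
        intro s hs
        by_cases h6 : s.length ≤ x d
        · left
          have h7 : s <:+ ini w (x d) := suffix_of_suffix_length (hw s hs) (ini_suffix w _)
            (by rw [length_ini w _ h2]; exact h6)
          rw [Function.comp_apply, mt_of_suffix (h7.trans h1)]
        · right
          push Not at h6
          have h7 : ini w (x d) <:+ s := suffix_of_suffix_length (ini_suffix w _) (hw s hs)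
            (by rw [length_ini w _ h2]; exact h6.le)
          have h8 : ini w (x d) <:+ mt v s := suffix_mt h1 h7
          have h9 := h8.length_le
          rw [length_ini w _ h2] at h9
          exact ⟨h9, h6.le⟩
      rw [if_pos h1]
      have h6 : Chi d x ((c'.map (mt v)).map List.length ++ [(mt v w).length]) ↔
          Chi d x (c'.map List.length ++ [w.length]) := by
        rw [chi_append d x _ _ hl1, chi_append d x _ _ hl2, h5]
        exact ⟨fun h => ⟨h.1, h2⟩, fun h => ⟨h.1, h4⟩⟩
      have h7 : e (mt v w) = e w := he' _ _ (mt_suffix_right v w) h4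
      by_cases h8 : Chi d x (c'.map List.length ++ [w.length])
      · rw [if_pos h8, if_pos (h6.2 h8), h7]
      · rw [if_neg h8, if_neg (fun h => h8 (h6.1 h))]
    · have h2 : ¬ Chi d x ((c'.map (mt v)).map List.length ++ [(mt v w).length]) := by
        rw [chi_append d x _ _ hl1]
        rintro ⟨_, h3⟩
        apply h1
        have h4 : x d ≤ w.length := h3.trans (mt_suffix_right v w).length_le
        refine ⟨?_, h4⟩
        refine (suffix_of_suffix_length (ini_suffix w _) (mt_suffix_right v w) ?_).trans
          (mt_suffix_left v w)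
        rw [length_ini w _ h4]
        exact h3
      rw [if_neg h2]
      by_cases h3 : ini w (x d) <:+ v
      · rw [if_pos h3, if_neg]
        rw [chi_append d x _ _ hl2]
        exact fun h => h1 ⟨h3, h.2⟩
      · rw [if_neg h3]
  · have h1 : ¬ Chi d x ((c'.map (mt v)).map List.length ++ [(mt v w).length]) := by
      intro h
      have := dzs_chi_length h
      simp at this
      exact hlen this
    have h2 : ¬ Chi d x (c'.map List.length ++ [w.length]) := by
      intro h
      have := dzs_chi_length h
      simp at this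
      exact hlen this
    rw [if_neg h1, if_neg h2, ite_self]

theorem dz_step (N d : ℕ) (x : ℕ → ℕ) (hx : Monotone x) (e : List A → 𝕜)
    (he : ∀ w, ‖e w‖ ≤ 1) (he' : ∀ w w' : List A, w <:+ w' → x d ≤ w.length → e w = e w')
    (c : List (List A)) (hc : c.Pairwise (fun s t => s <:+ t ∧ s.length < t.length))
    (hc0 : ∀ s ∈ c, x 0 ≤ s.length) (hlen : 2 ≤ c.length) :
    pn 𝕜 A N 0 (dl (fun c' => Dc e he d x c') c -
      (-1 : ℤ) ^ (c.length + 1) • d0 𝕜 A (Dz e d x c)) = 0 := by
  refine le_antisymm (pn_le le_rfl ?_) (apply_nonneg _ _)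
  rw [ev_gf]
  intro v _
  rw [ev_nf_zero]
  -- evaluation at `[v]`
  let T : BL 𝕜 (List A) →ₗ[𝕜] 𝕜 := (LinearMap.proj [v]).comp (BL 𝕜 (List A)).subtype
  have hT : ∀ b : BL 𝕜 (List A), (b : List (List A) → 𝕜) [v] = T b := fun b => rfl
  have hcoc : dl (Eco e d x) (c.map (mt v) ++ [v]) = 0 := by
    refine eco_cocycle e d x hx he' _ ?_ ?_
    · rw [List.pairwise_append]
      refine ⟨?_, List.pairwise_singleton _ _, ?_⟩
      · rw [List.pairwise_map]
        exact hc.imp fun h => mt_mono h.1
      · intro s hs w hw
        rw [List.mem_singleton] at hw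
        obtain ⟨t, _, rfl⟩ := List.mem_map.1 hs
        rw [hw]
        exact mt_suffix_left v t
    · obtain ⟨s₀, s₁, c'', rfl⟩ : ∃ s₀ s₁ c'', c = s₀ :: s₁ :: c'' := by
        match c, hlen with
        | s₀ :: s₁ :: c'', _ => exact ⟨s₀, s₁, c'', rfl⟩
      have h01 : s₀ <:+ s₁ := ((List.pairwise_cons.1 hc).1 s₁ (by simp)).1
      by_cases h1 : x 0 ≤ (mt v s₀).length
      · left
        intro w hw
        have h2 : mt v s₀ <:+ w := by
          rcases List.mem_append.1 hw with hw | hw
          · obtain ⟨t, ht, rfl⟩ := List.mem_map.1 hw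
            rcases List.mem_cons.1 ht with rfl | ht
            · exact List.suffix_refl _
            · exact mt_mono ((List.pairwise_cons.1 hc).1 t ht).1
          · rw [List.mem_singleton] at hw
            rw [hw]
            exact mt_suffix_left v s₀
        exact h1.trans h2.length_le
      · right
        push Not at h1
        have h2 : mt v s₁ = mt v s₀ := by
          refine mt_eq_of (mt_suffix_left v s₀) ((mt_suffix_right v s₀).trans h01) ?_
          intro z hz1 hz2
          by_cases h3 : z.length ≤ s₀.length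
          · exact suffix_mt hz1 (suffix_of_suffix_length hz2 h01 h3)
          · exfalso
            push Not at h3
            have h4 : s₀ <:+ v := (suffix_of_suffix_length h01 hz2 h3.le).trans hz1
            rw [mt_of_suffix h4] at h1
            have := hc0 s₀ (by simp)
            omega
        refine ⟨mt v s₀, c''.map (mt v) ++ [v], ?_⟩
        rw [List.map_cons, List.map_cons, h2]
        rfl
  rw [dl_append_singleton] at hcoc
  have h1 : T (dl (fun c' => Dc e he d x c') c) =
      dl (fun c'' => Eco e d x (c'' ++ [v])) (c.map (mt v)) := by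
    rw [← dl_map_hom T, ← dl_comp_map (mt v) c (fun c'' => Eco e d x (c'' ++ [v]))]
    rfl
  have h2 : T (d0 𝕜 A (Dz e d x c)) = Eco e d x (c.map (mt v)) := by
    rw [dzs_main d x hx e he' c hc (by rintro rfl; simp at hlen) v]
    rfl
  rw [hT, map_sub, map_zsmul, h1, h2, eq_neg_of_add_eq_zero_left hcoc, List.length_map,
    pow_succ, mul_neg, mul_one, neg_smul, sub_self, norm_zero]

end Pool.H49.ID
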