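import Pool.Agent.H74.ID.LI

/-!
Definitions for: the injective dimension of `c_0` is infinite (in ZFC).
-/

open Cardinal Filter
open scoped ENNReal ZeroAtInfty

namespace Pool.H49.ID

open Pool.H74.ID

/-! ### Alternating sums over the faces of a list -/

/-- `dl L [x_0, ..., x_k] = ∑ i, (-1)^i L [x_0, ..., omit x_i, ..., x_k]`. -/
def dl {α M : Type*} [AddCommGroup M] : (List α → M) → List α → M
  | _, [] => 0
  | L, x :: l => L l - dl (fun l' => L (x :: l')) l

/-! ### The finite combinatorial statement -/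

/-- `Box x [i_0, ..., i_k]`: `x q ≤ i_q < x (q+1)` for all `q ≤ k`. -/
def Box : (ℕ → ℕ) → List ℕ → Prop
  | _, [] => True
  | x, i :: l => (x 0 ≤ i ∧ i < x 1) ∧ Box (fun q => x (q + 1)) l

open scoped Classical in
/-- There is a finite system of boxes of dimension `d`, every `d`-tuple in at most one box, which
has no almost primitives of cost `< K`. -/
def Bad (d : ℕ) (K η : ℝ) : Prop :=
  ∃ (G : Type) (_ : Fintype G) (x : G → ℕ → ℕ), (∀ a, Monotone (x a)) ∧
    (∀ (l : List ℕ) (a b : G), l.length = d → Box (x a) l → Box (x b) l → a = b) ∧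
    ∀ lam : G → List ℕ → ℝ,
      (∀ (a : G) (l : List ℕ), l.length = d → l.Pairwise (· < ·) →
        (∀ i ∈ l, x a 0 ≤ i ∧ i < x a d) →
          |dl (lam a) l - (if Box (x a) l then 1 else 0)| ≤ η) →
      ∃ m : List ℕ, m.length + 1 = d ∧ m.Pairwise (· < ·) ∧
        K ≤ ∑ a, if (∀ i ∈ m, x a 0 ≤ i ∧ i < x a d) then |lam a m| else 0

/-! ### Extension and lifting of operators on finite dimensional spaces -/

/-- Operators from subspaces of finite dimensional spaces into `X` extend, uniformly. -/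
def EP (𝕜 : Type) [RCLike 𝕜] (X : Type) [NormedAddCommGroup X] [NormedSpace 𝕜 X] : Prop :=
  ∃ C : ℝ, 0 ≤ C ∧ ∀ (H : Type) [NormedAddCommGroup H] [NormedSpace 𝕜 H] [FiniteDimensional 𝕜 H]
    (M : Submodule 𝕜 H) (T : M →L[𝕜] X), ∃ T' : H →L[𝕜] X, (∀ m : M, T' (m : H) = T m) ∧
      ‖T'‖ ≤ C * ‖T‖

/-- Operators from finite dimensional spaces into `Q` lift along `q : E → Q`, uniformly. -/
def LL (𝕜 : Type) [RCLike 𝕜] {E Q : Type} [NormedAddCommGroup E] [NormedSpace 𝕜 E]
    [NormedAddCommGroup Q] [NormedSpace 𝕜 Q] (q : E →L[𝕜] Q) : Prop :=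
  ∃ C : ℝ, 0 ≤ C ∧ ∀ (F : Type) [NormedAddCommGroup F] [NormedSpace 𝕜 F] [FiniteDimensional 𝕜 F]
    (T : F →L[𝕜] Q), ∃ T' : F →L[𝕜] E, (∀ f, q (T' f) = T f) ∧ ‖T'‖ ≤ C * ‖T‖

/-! ### Functions on lists, filters, seminorms -/

/-- Functions on lists that are bounded on the lists of every given length. -/
def BL (𝕜 : Type) [RCLike 𝕜] (T : Type) : Submodule 𝕜 (List T → 𝕜) where
  carrier := {a | ∀ n, ∃ C : ℝ, ∀ l, l.length = n → ‖a l‖ ≤ C}
  zero_mem' := fun n => ⟨0, fun l _ => by simp⟩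
  add_mem' := by
    intro a b ha hb n
    obtain ⟨C, hC⟩ := ha n
    obtain ⟨D, hD⟩ := hb n
    exact ⟨C + D, fun l hl => (norm_add_le _ _).trans (add_le_add (hC l hl) (hD l hl))⟩
  smul_mem' := by
    intro c a ha n
    obtain ⟨C, hC⟩ := ha n
    exact ⟨‖c‖ * C, fun l hl => by
      rw [Pi.smul_apply, norm_smul]
      exact mul_le_mul_of_nonneg_left (hC l hl) (norm_nonneg _)⟩

/-- Essential supremum of a function along a filter. -/
noncomputable def es {Ω E : Type} [SeminormedAddCommGroup E] (f : Filter Ω) (a : Ω → E) : ℝ :=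
  sInf {δ : ℝ | 0 ≤ δ ∧ ∀ᶠ x in f, ‖a x‖ ≤ δ}

variable {A : Type}

/-- The filter of the sets that contain all `v ≥ a :: u` of length at most `N`, for all but finitely
many letters `a`. (Words grow at the head: `u <:+ v` means that `v` extends `u`.) -/
def fil (N : ℕ) (u : List A) : Filter (List A) where
  sets := {P | {a : A | ∃ v, (a :: u) <:+ v ∧ v.length ≤ N ∧ v ∉ P}.Finite}
  univ_sets := by simp
  sets_of_superset := by
    intro P Q hP hPQ
    refine hP.subset ?_
    rintro a ⟨v, h1, h2, h3⟩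
    exact ⟨v, h1, h2, fun h => h3 (hPQ h)⟩
  inter_sets := by
    intro P Q hP hQ
    refine (hP.union hQ).subset ?_
    rintro a ⟨v, h1, h2, h3⟩
    by_cases h : v ∈ P
    · exact Or.inr ⟨v, h1, h2, fun h' => h3 ⟨h, h'⟩⟩
    · exact Or.inl ⟨v, h1, h2, h⟩

/-- Iterated filter: lists `[v_1, ..., v_j]` with `v_1` large above `u`, `v_2` large above `v_1`,
and so on. -/
def nf (N : ℕ) : ℕ → List A → Filter (List (List A))
  | 0, _ => pure []
  | j + 1, u => (fil N u).bind fun v => (nf N j v).map (List.cons v)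

/-- Lists `[v_0, ..., v_j]` with `v_0` any word of length at most `N` and `[v_1, ..., v_j]` large
above `v_0`. -/
def gf (N j : ℕ) : Filter (List (List A)) :=
  (𝓟 {v : List A | v.length ≤ N}).bind fun v => (nf N j v).map (List.cons v)

end Pool.H49.ID
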