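import Pool.Agent.H49.ID.Coc

/-!
Module ECO. The cocycle identity, and the budget.

`eco_cocycle`. Case 1: `x 0 ≤ |w|` for all `w ∈ l`. Induction on `d`. `d = 0`: for `l = [w, w']` we get
`e w' - e w = 0`; for the other lengths all terms are 0. `d + 1`: `l = w :: l1`;
`dl (Eco (d+1) x) (w :: l1) = Eco (d+1) x l1 - (if x 0 ≤ |w| < x 1) * dl (Eco d x') l1`,
`x' q = x (q+1)`. If `l1 = []`: 0. Let `l1 = w1 :: l2`, `|w| ≤ |w1|`. If `|w1| < x 1` (so `|w| < x 1`):
`Eco (d+1) x (w1 :: l2) = Eco d x' l2` and `dl (Eco d x') (w1 :: l2) = Eco d x' l2 - 0` (all terms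
that start with `w1` vanish because `|w1| < x' 0`). If `x 1 ≤ |w1|`: `Eco (d+1) x (w1 :: l2) = 0` and
`dl (Eco d x') l1 = 0` by induction (all words of `l1` have length `≥ |w1| ≥ x' 0`).
Case 2: `l = w :: w :: l'` and not case 1, so `|w| < x 0` (the words grow): the terms omitting the
first and the second entry cancel, the others start with `w`, hence vanish.

`eco_sum_le`. At most one `a` has `Eco (e a) d (x a) c ≠ 0`: for `c` empty or of length `≠ d+1` all
are 0, else `c = c' ++ [w]` and by `eco_eq`, `chi_append` a nonzero value means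
`Box (x a) (c'.map List.length)`.
-/

open Cardinal Filter

namespace Pool.H49.ID

variable {𝕜 : Type} [RCLike 𝕜] {A : Type}

theorem chi_length (d : ℕ) : ∀ (x : ℕ → ℕ) (l : List ℕ), Chi d x l → l.length = d + 1 := by
  induction d with
  | zero =>
    intro x l h
    match l with
    | [] => exact h.elim
    | [_] => rfl
    | _ :: _ :: _ => exact h.elim
  | succ d ih =>
    intro x l h
    match l with
    | [] => exact h.elim
    | _ :: l => simp [ih _ l h.2]

theorem eco_cons_of_not (e : List A → 𝕜) (d : ℕ) (x : ℕ → ℕ) (w : List A)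
    (hw : ¬ x 0 ≤ w.length) (l : List (List A)) : Eco e d x (w :: l) = 0 := by
  cases d with
  | zero =>
    match l with
    | [] => simp [Eco, hw]
    | _ :: _ => simp [Eco]
  | succ d => simp [Eco, hw]

theorem eco_cocycle_aux (e : List A → 𝕜) (d : ℕ) : ∀ (x : ℕ → ℕ) (_ : Monotone x)
    (_ : ∀ w w' : List A, w <:+ w' → x d ≤ w.length → e w = e w') (l : List (List A))
    (_ : l.Pairwise (· <:+ ·)) (_ : ∀ w ∈ l, x 0 ≤ w.length), dl (Eco e d x) l = 0 := by
  induction d with
  | zero =>
    intro x hx he l hl h0
    match l with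
    | [] => rfl
    | [w] => simp [dl_cons, Eco]
    | [w, w'] =>
      have h1 := (List.pairwise_cons.1 hl).1 w' (by simp)
      have h2 := h0 w (by simp)
      have h3 := h0 w' (by simp)
      simp only [dl_cons, dl_nil, Eco, h2, h3, if_true]
      rw [he w w' h1 h2]
      simp
    | w :: w' :: w'' :: l' =>
      have hz : ∀ c' : List (List A), c'.Sublist (w :: w' :: w'' :: l') →
          c'.length + 1 = (w :: w' :: w'' :: l').length → Eco e 0 x c' = 0 := by
        intro c' _ h
        match c' with
        | [] => simp at h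
        | [_] => simp at h
        | _ :: _ :: _ => simp [Eco]
      rw [dl_congr _ _ _ hz, dl_zero]
  | succ d ih =>
    intro x hx he l hl h0
    match l with
    | [] => rfl
    | [w] => simp [dl_cons, Eco]
    | w :: w1 :: l2 =>
      have hl' := List.pairwise_cons.1 hl
      have hw1 := hl'.1 w1 (by simp)
      have hx' : Monotone fun q => x (q + 1) := fun a b hab => hx (by omega)
      have h2 := h0 w (by simp)
      have h3 := h0 w1 (by simp)
      have e1 : dl (fun l' => Eco e (d + 1) x (w :: l')) (w1 :: l2) =
          (if x 0 ≤ w.length ∧ w.length < x 1 then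
            dl (Eco e d fun q => x (q + 1)) (w1 :: l2) else 0) := by
        split_ifs with h
        · refine dl_congr _ _ _ fun c' _ _ => ?_
          simp only [Eco, h, and_self, if_true]
        · rw [dl_congr (w1 :: l2) _ (fun _ => (0 : 𝕜)) (fun c' _ _ => by
            simp only [Eco, h, if_false]), dl_zero]
      rw [dl_cons, e1]
      by_cases h4 : w1.length < x 1
      · have h5 : w.length < x 1 := hw1.length_le.trans_lt h4
        rw [if_pos ⟨h2, h5⟩]
        have e2 : Eco e (d + 1) x (w1 :: l2) = Eco e d (fun q => x (q + 1)) l2 := by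
          simp only [Eco, h3, h4, and_self, if_true]
        have e3 : dl (fun l' => Eco e d (fun q => x (q + 1)) (w1 :: l')) l2 = 0 := by
          rw [dl_congr l2 _ (fun _ => (0 : 𝕜)) (fun c' _ _ =>
            eco_cons_of_not e d _ w1 (by simpa using h4) c'), dl_zero]
        rw [e2, dl_cons, e3, sub_zero, sub_self]
      · have e2 : Eco e (d + 1) x (w1 :: l2) = 0 := by
          simp only [Eco, h4, and_false, if_false]
        rw [e2, ih (fun q => x (q + 1)) hx' he (w1 :: l2) hl'.2 (by
          intro u hu
          rcases List.mem_cons.1 hu with rfl | hu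
          · simpa using h4
          · have h6 := (List.pairwise_cons.1 hl'.2).1 u hu
            have h7 := h6.length_le
            simp only [not_lt] at h4
            exact h4.trans h7)]
        simp

theorem eco_cocycle (e : List A → 𝕜) (d : ℕ) (x : ℕ → ℕ) (hx : Monotone x)
    (he : ∀ w w' : List A, w <:+ w' → x d ≤ w.length → e w = e w') (l : List (List A))
    (hl : l.Pairwise (· <:+ ·))
    (h0 : (∀ w ∈ l, x 0 ≤ w.length) ∨ ∃ w l', l = w :: w :: l') : dl (Eco e d x) l = 0 := by
  rcases h0 with h0 | ⟨w, l', rfl⟩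
  · exact eco_cocycle_aux e d x hx he l hl h0
  · by_cases hw : x 0 ≤ w.length
    · refine eco_cocycle_aux e d x hx he _ hl ?_
      intro u hu
      rcases List.mem_cons.1 hu with rfl | hu
      · exact hw
      · exact hw.trans ((List.pairwise_cons.1 hl).1 u hu).length_le
    · rw [dl_cons, dl_cons, dl_congr l' _ (fun _ => (0 : 𝕜)) (fun c' _ _ =>
        eco_cons_of_not e d x w hw (w :: c')), dl_zero, sub_zero, sub_self]

theorem eco_sum_le {G : Type} [Fintype G] (d : ℕ) (x : G → ℕ → ℕ) (e : G → List A → 𝕜)
    (he : ∀ a w, ‖e a w‖ ≤ 1)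
    (h1 : ∀ (l : List ℕ) (a b : G), l.length = d → Box (x a) l → Box (x b) l → a = b)
    (c : List (List A)) (f : G → 𝕜) (hf : ∀ a, ‖f a‖ ≤ 1) :
    ‖∑ a, f a * Eco (e a) d (x a) c‖ ≤ 1 := by
  classical
  -- at most one nonzero term
  have key : ∀ a b, Eco (e a) d (x a) c ≠ 0 → Eco (e b) d (x b) c ≠ 0 → a = b := by
    intro a b ha hb
    rcases List.eq_nil_or_concat c with rfl | ⟨c', w, rfl⟩
    · exfalso
      apply ha
      cases d <;> simp [Eco]
    · rw [List.concat_eq_append, eco_eq] at ha hb
      have ha' : Chi d (x a) ((c' ++ [w]).map List.length) := by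
        by_contra h
        exact ha (if_neg h)
      have hb' : Chi d (x b) ((c' ++ [w]).map List.length) := by
        by_contra h
        exact hb (if_neg h)
      have hlen := chi_length _ _ _ ha'
      have hl : (c'.map List.length).length = d := by
        simp at hlen ⊢
        exact hlen
      rw [List.map_append, List.map_singleton, chi_append _ _ _ _ hl] at ha' hb'
      exact h1 _ a b hl ha'.1 hb'.1
  by_cases h : ∃ a, Eco (e a) d (x a) c ≠ 0
  · obtain ⟨a, ha⟩ := h
    rw [Finset.sum_eq_single a]
    · rw [norm_mul]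
      exact mul_le_one₀ (hf a) (norm_nonneg _) (norm_eco_le (he a) d (x a) c)
    · intro b _ hb
      have : Eco (e b) d (x b) c = 0 := by
        by_contra h2
        exact hb (key b a h2 ha)
      rw [this, mul_zero]
    · intro h2
      exact absurd (Finset.mem_univ a) h2
  · push Not at h
    rw [Finset.sum_eq_zero (fun a _ => by rw [h a, mul_zero])]
    simp

end Pool.H49.ID
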