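import Pool.Agent.H49.ID.Defs

/-!
Module EPC0. Operators from finite dimensional spaces into `c_0` extend with the same norm.

Proof. `T m = (T_i m)_i` with functionals `T_i` on `M`, `‖T_i‖ ≤ ‖T‖`, `T_i m → 0` for every `m`;
since `M` is finite dimensional, `‖T_i‖ → 0` (e.g. take a basis `b` of `M`; the norm of a
functional is at most `C * ∑ |T_i (b k)|`). Extend every `T_i` to `H` with the same norm
(`exists_extension_norm_eq`); the extensions `g_i` satisfy `‖g_i‖ → 0`, so `h ↦ (g_i h)_i` maps `H`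
into `c_0`, with norm `≤ ‖T‖`. Constant `C = 1`.
-/

open Cardinal Filter
open scoped ENNReal ZeroAtInfty

namespace Pool.H49.ID

open Pool.H74.ID

variable {𝕜 : Type} [RCLike 𝕜]

private theorem epc0_apply_le (f : C₀(ℕ, 𝕜)) (i : ℕ) : ‖f i‖ ≤ ‖f‖ := by
  rw [← ZeroAtInftyContinuousMap.norm_toBCF_eq_norm]
  exact f.toBCF.norm_coe_le_norm i

private theorem epc0_norm_le (f : C₀(ℕ, 𝕜)) (C : ℝ) (hC : 0 ≤ C) (h : ∀ i, ‖f i‖ ≤ C) :
    ‖f‖ ≤ C := by
  rw [← ZeroAtInftyContinuousMap.norm_toBCF_eq_norm, BoundedContinuousFunction.norm_le hC]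
  exact h

theorem ep_c0 : EP 𝕜 C₀(ℕ, 𝕜) := by
  refine ⟨1, zero_le_one, ?_⟩
  intro H _ _ _ M T
  -- the coordinates
  have hTi : ∀ i : ℕ, ∃ f : M →L[𝕜] 𝕜, (∀ m, f m = (T m) i) ∧ ‖f‖ ≤ ‖T‖ := by
    intro i
    let f0 : M →ₗ[𝕜] 𝕜 :=
      { toFun := fun m => (T m) i
        map_add' := fun m m' => by rw [map_add]; rfl
        map_smul' := fun r m => by rw [map_smul]; rfl }
    have hb : ∀ m, ‖f0 m‖ ≤ ‖T‖ * ‖m‖ := fun m =>
      (epc0_apply_le (T m) i).trans (T.le_opNorm m)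
    exact ⟨f0.mkContinuous ‖T‖ hb, fun m => rfl, f0.mkContinuous_norm_le (norm_nonneg _) hb⟩
  choose f hf1 hf2 using hTi
  let b := Module.finBasis 𝕜 M
  let c : Fin (Module.finrank 𝕜 M) → (M →L[𝕜] 𝕜) := fun k =>
    LinearMap.toContinuousLinearMap (b.coord k)
  let N : ℕ → ℝ := fun i => ∑ k, ‖c k‖ * ‖(T (b k)) i‖
  have hN0 : ∀ i, 0 ≤ N i := fun i => Finset.sum_nonneg fun k _ => by positivity
  have hfN : ∀ i, ‖f i‖ ≤ N i := by
    intro i
    refine ContinuousLinearMap.opNorm_le_bound _ (hN0 i) fun m => ?_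
    have h1 : m = ∑ k, (c k m) • b k := (b.sum_repr m).symm
    have h2 : f i m = ∑ k, (c k m) * (T (b k)) i := by
      conv_lhs => rw [h1]
      rw [map_sum]
      refine Finset.sum_congr rfl fun k _ => ?_
      rw [map_smul, hf1, smul_eq_mul]
    rw [h2]
    refine (norm_sum_le _ _).trans ?_
    rw [Finset.sum_mul]
    refine Finset.sum_le_sum fun k _ => ?_
    rw [norm_mul]
    calc ‖c k m‖ * ‖(T (b k)) i‖ ≤ (‖c k‖ * ‖m‖) * ‖(T (b k)) i‖ :=
          mul_le_mul_of_nonneg_right ((c k).le_opNorm m) (norm_nonneg _)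
      _ = ‖c k‖ * ‖(T (b k)) i‖ * ‖m‖ := by ring
  have hNlim : Tendsto N (cocompact ℕ) (nhds 0) := by
    have h1 : Tendsto N (cocompact ℕ) (nhds (∑ k : Fin (Module.finrank 𝕜 M), ‖c k‖ * ‖(0 : 𝕜)‖)) := by
      refine tendsto_finsetSum _ fun k _ => ?_
      exact ((T (b k)).zero_at_infty'.norm).const_mul _
    simpa using h1
  have hext : ∀ i, ∃ g : H →L[𝕜] 𝕜, (∀ m : M, g m = f i m) ∧ ‖g‖ = ‖f i‖ := fun i =>
    exists_extension_norm_eq M (f i)
  choose g hg1 hg2 using hext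
  let T0 : H →ₗ[𝕜] C₀(ℕ, 𝕜) :=
    { toFun := fun x => ⟨⟨fun i => g i x, continuous_of_discreteTopology⟩, by
        refine squeeze_zero_norm (a := fun i => N i * ‖x‖) (fun i => ?_) ?_
        · show ‖g i x‖ ≤ N i * ‖x‖
          refine ((g i).le_opNorm x).trans ?_
          rw [hg2]
          exact mul_le_mul_of_nonneg_right (hfN i) (norm_nonneg _)
        · have h1 := hNlim.mul_const ‖x‖
          rwa [zero_mul] at h1⟩
      map_add' := fun x y => by
        ext i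
        exact map_add (g i) x y
      map_smul' := fun r x => by
        ext i
        exact map_smul (g i) r x }
  have hT0 : ∀ x i, (T0 x) i = g i x := fun x i => rfl
  have hb : ∀ x, ‖T0 x‖ ≤ ‖T‖ * ‖x‖ := by
    intro x
    refine epc0_norm_le _ _ (by positivity) fun i => ?_
    rw [hT0]
    refine ((g i).le_opNorm x).trans ?_
    rw [hg2]
    exact mul_le_mul_of_nonneg_right (hf2 i) (norm_nonneg _)
  refine ⟨T0.mkContinuous ‖T‖ hb, ?_, ?_⟩
  · intro m
    ext i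
    show g i (m : H) = (T m) i
    rw [hg1, hf1]
  · rw [one_mul]
    exact T0.mkContinuous_norm_le (norm_nonneg _) hb

end Pool.H49.ID
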