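import Pool.Agent.H49.ID.Defs

/-!
Module LLEP. If `X` has the extension property `EP` and `0 → X → E → Q → 0` is exact, then
operators from finite dimensional spaces into `Q` lift to `E`, uniformly.

Proof. Constants: `q` is surjective, so there is `Cq` such that every `y ∈ Q` has a preimage of norm
`≤ Cq ‖y‖` (`ContinuousLinearMap.exists_preimage_norm_le`); `j` is injective with closed range
(`SES.isClosed`), so there is `cj` with `‖x‖ ≤ cj ‖j x‖`. Given a finite dimensional `F` and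
`T : F → Q`: let `y_1, ..., y_M` be a finite `1/2`-net of the closed unit ball of `F`
(compactness). Let `P = PiLp 1 (fun _ : Fin M => 𝕜)` (or any realisation of `ℓ_1^M`) and
`r : P → F`, `r c = ∑ c_i y_i`, `‖r‖ ≤ 1`. Every `f ∈ F` is `r c` with `‖c‖ ≤ 3 ‖f‖` (improvement of
the constant of the open mapping theorem). Lift the basis: `S : P → E`, `S e_i` a preimage
of `T y_i` of norm `≤ Cq ‖T‖`; so `‖S‖ ≤ Cq ‖T‖` and `q (S c) = T (r c)`. On `K = ker r` one has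
`q ∘ S = 0`, so `S c = j (u c)` with `u : K → X` linear, `‖u‖ ≤ cj Cq ‖T‖`. By `EP` extend `u` to
`u' : P → X`, `‖u'‖ ≤ C ‖u‖`. `S - j ∘ u'` vanishes on `K`, so it factors through `r`:
`T' (r c) = S c - j (u' c)`, and `‖T' f‖ ≤ 3 (‖S‖ + ‖j‖ ‖u'‖) ‖f‖`, `q (T' f) = T f`.
-/

open Cardinal Filter
open scoped ENNReal ZeroAtInfty

namespace Pool.H49.ID

open Pool.H74.ID

variable {𝕜 : Type} [RCLike 𝕜]

section LLEP

/-- Operators from `ℓ_1^ι`. -/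
theorem LLEP_l1 {ι W : Type} [Fintype ι] [NormedAddCommGroup W] [NormedSpace 𝕜 W] (z : ι → W)
    (b : ℝ) (hb : 0 ≤ b) (hz : ∀ i, ‖z i‖ ≤ b) :
    ∃ S : PiLp 1 (fun _ : ι => 𝕜) →L[𝕜] W, (∀ c, S c = ∑ i, c i • z i) ∧ ‖S‖ ≤ b := by
  let S0 : PiLp 1 (fun _ : ι => 𝕜) →ₗ[𝕜] W :=
    { toFun := fun c => ∑ i, c i • z i
      map_add' := by
        intro c c'
        rw [← Finset.sum_add_distrib]
        exact Finset.sum_congr rfl fun i _ => by rw [PiLp.add_apply, add_smul]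
      map_smul' := by
        intro a c
        rw [Finset.smul_sum]
        exact Finset.sum_congr rfl fun i _ => by
          rw [PiLp.smul_apply, smul_eq_mul, mul_smul, RingHom.id_apply] }
  have hS0 : ∀ c, ‖S0 c‖ ≤ b * ‖c‖ := by
    intro c
    change ‖∑ i, c i • z i‖ ≤ b * ‖c‖
    rw [PiLp.norm_eq_of_L1, Finset.mul_sum]
    refine norm_sum_le_of_le _ fun i _ => ?_
    rw [norm_smul, mul_comm]
    exact mul_le_mul_of_nonneg_right (hz i) (norm_nonneg _)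
  exact ⟨S0.mkContinuous b hS0, fun c => rfl, S0.mkContinuous_norm_le hb _⟩

/-- A finite net of the unit ball. -/
theorem LLEP_net {F : Type} [NormedAddCommGroup F] [NormedSpace 𝕜 F] [FiniteDimensional 𝕜 F] :
    ∃ (ι : Type) (_ : Fintype ι) (y : ι → F), (∀ i, ‖y i‖ ≤ 1) ∧
      (∀ f : F, f ≠ 0 → ∃ i, ‖f - (‖f‖ : 𝕜) • y i‖ < ‖f‖ / 2) := by
  have : ProperSpace F := FiniteDimensional.proper_rclike 𝕜 F
  obtain ⟨t, ht1, ht2, ht3⟩ := (isCompact_closedBall (0 : F) 1).finite_cover_balls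
    (show (0:ℝ) < 1 / 2 by norm_num)
  refine ⟨t, ht2.fintype, fun i => i.1, fun i => by simpa using ht1 i.2, ?_⟩
  intro f hf
  have hf0 : 0 < ‖f‖ := norm_pos_iff.2 hf
  have hfc : (‖f‖ : 𝕜) ≠ 0 := by
    simpa using hf0.ne'
  have h1 : ((‖f‖ : 𝕜)⁻¹ • f) ∈ Metric.closedBall (0 : F) 1 := by
    rw [mem_closedBall_zero_iff, norm_smul, norm_inv, RCLike.norm_ofReal, abs_norm,
      inv_mul_cancel₀ hf0.ne']
  have h2 := ht3 h1
  simp only [Set.mem_iUnion, Metric.mem_ball, exists_prop] at h2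
  obtain ⟨y, hy, hd⟩ := h2
  refine ⟨⟨y, hy⟩, ?_⟩
  have h3 : f - (‖f‖ : 𝕜) • y = (‖f‖ : 𝕜) • ((‖f‖ : 𝕜)⁻¹ • f - y) := by
    rw [smul_sub, smul_smul, mul_inv_cancel₀ hfc, one_smul]
  change ‖f - (‖f‖ : 𝕜) • y‖ < ‖f‖ / 2
  rw [h3, norm_smul, RCLike.norm_ofReal, abs_norm, ← dist_eq_norm]
  have := mul_lt_mul_of_pos_left hd hf0
  linarith

/-- Finite dimensional spaces are quotients of `ℓ_1^ι`, with a universal constant. -/
theorem LLEP_quot {F : Type} [NormedAddCommGroup F] [NormedSpace 𝕜 F] [FiniteDimensional 𝕜 F] :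
    ∃ (ι : Type) (_ : Fintype ι) (y : ι → F), (∀ i, ‖y i‖ ≤ 1) ∧
      ∀ f : F, ∃ c : PiLp 1 (fun _ : ι => 𝕜), ∑ i, c i • y i = f ∧ ‖c‖ ≤ 3 * ‖f‖ := by
  classical
  obtain ⟨ι, _, y, hy, hnet⟩ := LLEP_net (𝕜 := 𝕜) (F := F)
  refine ⟨ι, inferInstance, y, hy, ?_⟩
  obtain ⟨r, hr, hrn⟩ := LLEP_l1 (𝕜 := 𝕜) y 1 zero_le_one hy
  have hsingle : ∀ (i : ι) (a : 𝕜), ∃ c : PiLp 1 (fun _ : ι => 𝕜), r c = a • y i ∧ ‖c‖ = ‖a‖ := by
    intro i a
    refine ⟨WithLp.toLp 1 (Pi.single i a), ?_, ?_⟩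
    · rw [hr, Finset.sum_eq_single i]
      · simp
      · intro b _ hb
        simp [Pi.single_eq_of_ne hb]
      · simp
    · rw [PiLp.norm_eq_of_L1, Finset.sum_eq_single i]
      · simp
      · intro b _ hb
        simp [Pi.single_eq_of_ne hb]
      · simp
  -- surjectivity
  have hsurj : Function.Surjective r := by
    by_contra hns
    have hex : ∃ x : F, x ∉ (r : PiLp 1 (fun _ : ι => 𝕜) →ₗ[𝕜] F).range := by
      simp only [Function.Surjective, not_forall] at hns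
      obtain ⟨x, hx⟩ := hns
      exact ⟨x, fun ⟨c, hc⟩ => hx ⟨c, hc⟩⟩
    have hcl : IsClosed (((r : PiLp 1 (fun _ : ι => 𝕜) →ₗ[𝕜] F).range : Submodule 𝕜 F) : Set F) :=
      Submodule.closed_of_finiteDimensional _
    obtain ⟨x0, hx0, hd⟩ := riesz_lemma hcl hex (show (1/2 : ℝ) < 1 by norm_num)
    have hx00 : x0 ≠ 0 := fun h => hx0 (h ▸ Submodule.zero_mem _)
    obtain ⟨i, hi⟩ := hnet x0 hx00
    obtain ⟨c, hc, -⟩ := hsingle i (‖x0‖ : 𝕜)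
    have := hd ((‖x0‖ : 𝕜) • y i) ⟨c, hc⟩
    linarith
  have : CompleteSpace F := FiniteDimensional.complete 𝕜 F
  obtain ⟨K0, hK0, hK⟩ := r.exists_preimage_norm_le hsurj
  -- improvement of the constant
  have himp : ∀ n : ℕ, ∀ f : F, ∃ c, r c = f ∧ ‖c‖ ≤ (2 + K0 / 2 ^ n) * ‖f‖ := by
    intro n
    induction n with
    | zero =>
      intro f
      obtain ⟨c, hc, hcn⟩ := hK f
      refine ⟨c, hc, hcn.trans ?_⟩
      have := norm_nonneg f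
      nlinarith
    | succ n ih =>
      intro f
      by_cases hf : f = 0
      · exact ⟨0, by rw [hf, map_zero], by rw [hf]; simp⟩
      · obtain ⟨i, hi⟩ := hnet f hf
        obtain ⟨c1, hc1, hc1n⟩ := ih (f - (‖f‖ : 𝕜) • y i)
        obtain ⟨c2, hc2, hc2n⟩ := hsingle i (‖f‖ : 𝕜)
        refine ⟨c1 + c2, ?_, ?_⟩
        · rw [map_add, hc1, hc2, sub_add_cancel]
        · rw [RCLike.norm_ofReal, abs_norm] at hc2n
          refine (norm_add_le _ _).trans ?_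
          rw [hc2n]
          have h1 : ‖c1‖ ≤ (2 + K0 / 2 ^ n) * (‖f‖ / 2) :=
            hc1n.trans (mul_le_mul_of_nonneg_left hi.le (by positivity))
          have h2 : K0 / 2 ^ (n + 1) = K0 / 2 ^ n / 2 := by
            rw [pow_succ]
            field_simp
          rw [h2]
          linarith
  obtain ⟨n, hn⟩ : ∃ n : ℕ, K0 / 2 ^ n ≤ 1 := by
    obtain ⟨n, hn⟩ := pow_unbounded_of_one_lt K0 (show (1:ℝ) < 2 by norm_num)
    exact ⟨n, by rw [div_le_one (by positivity)]; exact hn.le⟩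
  intro f
  obtain ⟨c, hc, hcn⟩ := himp n f
  refine ⟨c, by rw [← hr, hc], hcn.trans ?_⟩
  exact mul_le_mul_of_nonneg_right (by linarith) (norm_nonneg _)

end LLEP

theorem ll_of_ep {X E Q : Type} [NormedAddCommGroup X] [NormedSpace 𝕜 X] [CompleteSpace X]
    [NormedAddCommGroup E] [NormedSpace 𝕜 E] [CompleteSpace E]
    [NormedAddCommGroup Q] [NormedSpace 𝕜 Q] [CompleteSpace Q]
    {j : X →L[𝕜] E} {q : E →L[𝕜] Q} (hX : EP 𝕜 X) (h : SES j q) : LL 𝕜 q := by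
  obtain ⟨C, hC, hEP⟩ := hX
  obtain ⟨Cq, hCq, hq⟩ := q.exists_preimage_norm_le h.surj
  let J := j.equivRange h.inj h.isClosed
  have hJ : ∀ x : j.range, j (J.symm x) = x := by
    intro x
    have h1 : J (J.symm x) = x := J.apply_symm_apply x
    have h2 : ((J (J.symm x) : j.range) : E) = j (J.symm x) := rfl
    rw [← h2, h1]
  set cj : ℝ := ‖(J.symm : j.range →L[𝕜] X)‖ with hcj
  refine ⟨3 * (Cq + ‖j‖ * (C * (cj * Cq))), by positivity, ?_⟩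
  intro F _ _ _ T
  obtain ⟨ι, _, y, hy, hquot⟩ := LLEP_quot (𝕜 := 𝕜) (F := F)
  obtain ⟨r, hr, -⟩ := LLEP_l1 (𝕜 := 𝕜) y 1 zero_le_one hy
  choose z hz hzn using fun i => hq (T (y i))
  have hzb : ∀ i, ‖z i‖ ≤ Cq * ‖T‖ := by
    intro i
    refine (hzn i).trans (mul_le_mul_of_nonneg_left ?_ hCq.le)
    refine (T.le_opNorm _).trans ?_
    have := hy i
    have h2 := norm_nonneg T
    nlinarith
  obtain ⟨S, hS, hSn⟩ := LLEP_l1 (𝕜 := 𝕜) z (Cq * ‖T‖) (by positivity) hzb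
  have hqS : ∀ c, q (S c) = T (r c) := by
    intro c
    rw [hS, hr, map_sum, map_sum]
    exact Finset.sum_congr rfl fun i _ => by rw [map_smul, map_smul, hz]
  -- the operator on the kernel
  have hker : ∀ c : (r : PiLp 1 (fun _ : ι => 𝕜) →ₗ[𝕜] F).ker, S (c : PiLp 1 (fun _ : ι => 𝕜)) ∈
      j.range := by
    intro c
    have h1 : r (c : PiLp 1 (fun _ : ι => 𝕜)) = 0 := c.2
    have h2 : q (S (c : PiLp 1 (fun _ : ι => 𝕜))) = 0 := by rw [hqS, h1, map_zero]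
    obtain ⟨x, hx⟩ := (h.exact _).1 h2
    exact ⟨x, hx⟩
  let S1 : (r : PiLp 1 (fun _ : ι => 𝕜) →ₗ[𝕜] F).ker →L[𝕜] j.range :=
    (S.comp (r : PiLp 1 (fun _ : ι => 𝕜) →ₗ[𝕜] F).ker.subtypeL).codRestrict j.range hker
  let u : (r : PiLp 1 (fun _ : ι => 𝕜) →ₗ[𝕜] F).ker →L[𝕜] X := (J.symm : j.range →L[𝕜] X).comp S1
  have hu : ∀ c : (r : PiLp 1 (fun _ : ι => 𝕜) →ₗ[𝕜] F).ker,
      j (u c) = S (c : PiLp 1 (fun _ : ι => 𝕜)) := fun c => hJ (S1 c)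
  have hun : ‖u‖ ≤ cj * (Cq * ‖T‖) := by
    refine ContinuousLinearMap.opNorm_le_bound _ (by positivity) fun c => ?_
    have h1 : ‖u c‖ ≤ cj * ‖S1 c‖ := (J.symm : j.range →L[𝕜] X).le_opNorm (S1 c)
    have h2 : ‖S1 c‖ = ‖S (c : PiLp 1 (fun _ : ι => 𝕜))‖ := rfl
    have h3 : ‖S (c : PiLp 1 (fun _ : ι => 𝕜))‖ ≤ Cq * ‖T‖ * ‖c‖ :=
      (S.le_opNorm _).trans (mul_le_mul_of_nonneg_right hSn (norm_nonneg _))
    rw [h2] at h1
    calc ‖u c‖ ≤ cj * ‖S (c : PiLp 1 (fun _ : ι => 𝕜))‖ := h1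
      _ ≤ cj * (Cq * ‖T‖ * ‖c‖) := mul_le_mul_of_nonneg_left h3 (norm_nonneg _)
      _ = _ := by ring
  obtain ⟨u', hu', hu'n⟩ := hEP (PiLp 1 (fun _ : ι => 𝕜)) _ u
  -- the lift
  have hsurj : Function.Surjective (r : PiLp 1 (fun _ : ι => 𝕜) →ₗ[𝕜] F) := by
    intro f
    obtain ⟨c, hc, -⟩ := hquot f
    exact ⟨c, by rw [← hc]; exact hr c⟩
  obtain ⟨g, hg⟩ := (r : PiLp 1 (fun _ : ι => 𝕜) →ₗ[𝕜] F).exists_rightInverse_of_surjective
    (LinearMap.range_eq_top.2 hsurj)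
  have hg' : ∀ f, r (g f) = f := fun f => LinearMap.congr_fun hg f
  let R : PiLp 1 (fun _ : ι => 𝕜) →L[𝕜] E := S - j.comp u'
  have hR : ∀ c, R c = S c - j (u' c) := fun c => rfl
  have hR0 : ∀ c, r c = 0 → R c = 0 := by
    intro c hc
    rw [hR, hu' ⟨c, hc⟩, hu, sub_self]
  have hRn : ∀ c, ‖R c‖ ≤ (Cq + ‖j‖ * (C * (cj * Cq))) * ‖T‖ * ‖c‖ := by
    intro c
    rw [hR]
    refine (norm_sub_le _ _).trans ?_
    have h1 : ‖S c‖ ≤ Cq * ‖T‖ * ‖c‖ :=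
      (S.le_opNorm _).trans (mul_le_mul_of_nonneg_right hSn (norm_nonneg _))
    have h2 : ‖u' c‖ ≤ C * (cj * (Cq * ‖T‖)) * ‖c‖ := by
      refine (u'.le_opNorm _).trans (mul_le_mul_of_nonneg_right ?_ (norm_nonneg _))
      exact hu'n.trans (mul_le_mul_of_nonneg_left hun hC)
    have h3 : ‖j (u' c)‖ ≤ ‖j‖ * (C * (cj * (Cq * ‖T‖)) * ‖c‖) :=
      (j.le_opNorm _).trans (mul_le_mul_of_nonneg_left h2 (norm_nonneg _))
    calc ‖S c‖ + ‖j (u' c)‖ ≤ Cq * ‖T‖ * ‖c‖ + ‖j‖ * (C * (cj * (Cq * ‖T‖)) * ‖c‖) :=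
          add_le_add h1 h3
      _ = _ := by ring
  refine ⟨LinearMap.toContinuousLinearMap ((R : PiLp 1 (fun _ : ι => 𝕜) →ₗ[𝕜] E) ∘ₗ g), ?_, ?_⟩
  · intro f
    change q (R (g f)) = T f
    have h0 : ∀ x, q (j x) = 0 := fun x => (h.exact _).2 ⟨x, rfl⟩
    rw [hR, map_sub, h0, sub_zero, hqS, hg']
  · refine ContinuousLinearMap.opNorm_le_bound _ (by positivity) fun f => ?_
    change ‖R (g f)‖ ≤ _
    obtain ⟨c, hc, hcn⟩ := hquot f
    have h1 : R (g f) = R c := by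
      rw [← sub_eq_zero, ← map_sub]
      apply hR0
      rw [map_sub, hg', hr, hc, sub_self]
    rw [h1]
    calc ‖R c‖ ≤ (Cq + ‖j‖ * (C * (cj * Cq))) * ‖T‖ * ‖c‖ := hRn c
      _ ≤ (Cq + ‖j‖ * (C * (cj * Cq))) * ‖T‖ * (3 * ‖f‖) :=
        mul_le_mul_of_nonneg_left hcn (by positivity)
      _ = _ := by ring

end Pool.H49.ID
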