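import Pool.Agent.H49.ID.INJC
import Pool.Agent.H49.ID.LLEP

/-!
Module EPQ. The extension property passes to `Q = E / X` if `E` is injective.

Proof. Given `M ⊂ H` finite dimensional and `T : M → Q`, lift `T` to `T₁ : M → E` (`ll_of_ep`; `M` is
finite dimensional), extend `T₁` to `H` with a uniform constant (`inj_ext` with `B = M`, `A = H`,
`d = M.subtype`, `p = normSeminorm 𝕜 H`, `c = ‖T₁‖`), compose with `q`.
-/

open Cardinal Filter
open scoped ENNReal ZeroAtInfty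

namespace Pool.H49.ID

open Pool.H74.ID

variable {𝕜 : Type} [RCLike 𝕜]

theorem ep_quot {X E Q : Type} [NormedAddCommGroup X] [NormedSpace 𝕜 X] [CompleteSpace X]
    [NormedAddCommGroup E] [NormedSpace 𝕜 E] [CompleteSpace E]
    [NormedAddCommGroup Q] [NormedSpace 𝕜 Q] [CompleteSpace Q]
    {j : X →L[𝕜] E} {q : E →L[𝕜] Q} (hX : EP 𝕜 X) (h : SES j q) (hE : Inj 𝕜 E) : EP 𝕜 Q := by
  obtain ⟨CL, hCL0, hCL⟩ := ll_of_ep hX h
  obtain ⟨CE, hCE0, hCE⟩ := inj_ext hE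
  refine ⟨‖q‖ * (CE * CL), by positivity, ?_⟩
  intro H _ _ _ M T
  obtain ⟨T1, hT1, hT1n⟩ := hCL M T
  obtain ⟨T2, hT2, hT2n⟩ := hCE M H M.subtype (normSeminorm 𝕜 H) T1.toLinearMap ‖T1‖
    (norm_nonneg _) (fun m => T1.le_opNorm m)
  have hb : ∀ x, ‖T2 x‖ ≤ CE * ‖T1‖ * ‖x‖ := fun x => by
    have := hT2n x
    rw [← mul_assoc] at this
    exact this
  let T3 : H →L[𝕜] E := T2.mkContinuous (CE * ‖T1‖) hb
  have hT3 : ‖T3‖ ≤ CE * ‖T1‖ := LinearMap.mkContinuous_norm_le _ (by positivity) _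
  refine ⟨q.comp T3, fun m => ?_, ?_⟩
  · rw [ContinuousLinearMap.comp_apply, ← hT1 m]
    congr 1
    exact hT2 m
  · calc ‖q.comp T3‖ ≤ ‖q‖ * ‖T3‖ := ContinuousLinearMap.opNorm_comp_le _ _
      _ ≤ ‖q‖ * (CE * ‖T1‖) := by gcongr
      _ ≤ ‖q‖ * (CE * (CL * ‖T‖)) := by gcongr
      _ = ‖q‖ * (CE * CL) * ‖T‖ := by ring

end Pool.H49.ID
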