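import Pool.Agent.H49.ID.BASE

/-!
Module EXJ. Exactness of the tower in degrees `≥ 1`, with constant 1.

Proof. Let `δ = pn (j+2) (dB a) + η`. By `ev_of_pn_lt` and `ev_gf`, `ev_nf_succ`: for all `v₀` of
length `≤ N`, `∀ᶠ v₁ in fil N v₀, P v₀ v₁`, where
`P v₀ v₁ := ∀ᶠ l in nf N (j+1) v₁, ‖dl a (v₀ :: v₁ :: l)‖ ≤ δ`, (`nf N (j+2) v₀` unfolds to this); for
words `v₀` longer than `N` this holds as well because `fil N v₀` then is `⊥` (no `v ≥ a :: v₀` has
length `≤ N`). Take `β` from `exists_base` and define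
`b [] = 0`, `b (v :: l) = if β v = v then 0 else a (β v :: v :: l)` (bounded on every length).
Claim: `∀ᶠ l in gf N (j+1), ‖(a - dB b) l‖ ≤ δ`, i.e. for `v₀` of length `≤ N`,
`∀ᶠ v₁ in fil N v₀, ∀ᶠ l in nf N j v₁, ‖a (v₀ :: v₁ :: l) - dl b (v₀ :: v₁ :: l)‖ ≤ δ`.
Use the `v₁` with `β v₁ = β v₀ =: u`, `β v₁ ≠ v₁`.
* `u = v₀`: `b (v₀ :: _) = 0`, so `dl b (v₀ :: v₁ :: l) = b (v₁ :: l) = a (v₀ :: v₁ :: l)`: difference 0.
* `u ≠ v₀`: `P u v₀` holds, i.e. `∀ᶠ v₁ in fil N v₀, ∀ᶠ l in nf N j v₁, ‖dl a (u :: v₀ :: v₁ :: l)‖ ≤ δ`,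
  and `dl a (u :: v₀ :: v₁ :: l) = a (v₀ :: v₁ :: l) - dl (fun l' => a (u :: l')) (v₀ :: v₁ :: l)`
  `= a (v₀ :: v₁ :: l) - dl b (v₀ :: v₁ :: l)`, because `b` and `fun l' => a (u :: l')` agree on
  `v₁ :: l` (as `β v₁ = u ≠ v₁`) and on all lists starting with `v₀`.
-/

open Cardinal Filter

namespace Pool.H49.ID

variable {𝕜 : Type} [RCLike 𝕜] {A : Type}

open scoped Classical in
/-- the homotopy: coning to the base node -/
private noncomputable def exjB (β : List A → List A) (a : List (List A) → 𝕜) :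
    List (List A) → 𝕜
  | [] => 0
  | v :: l => if β v = v then 0 else a (β v :: v :: l)

private theorem exjB_pos {β : List A → List A} (a : List (List A) → 𝕜) {v : List A}
    (h : β v = v) (l : List (List A)) : exjB β a (v :: l) = 0 := if_pos h

private theorem exjB_neg {β : List A → List A} (a : List (List A) → 𝕜) {v : List A}
    (h : β v ≠ v) (l : List (List A)) : exjB β a (v :: l) = a (β v :: v :: l) := if_neg h

theorem tower_exact (N j : ℕ) (a : BL 𝕜 (List A)) (η : ℝ) (hη : 0 < η) :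
    ∃ b : BL 𝕜 (List A), pn 𝕜 A N (j + 1) (a - dB 𝕜 (List A) b) ≤
      pn 𝕜 A N (j + 2) (dB 𝕜 (List A) a) + η := by
  classical
  set δ := pn 𝕜 A N (j + 2) (dB 𝕜 (List A) a) + η with hδ
  have hδ0 : 0 ≤ δ := add_nonneg (apply_nonneg _ _) hη.le
  have hev : ∀ᶠ l in gf N (j + 2), ‖(dB 𝕜 (List A) a : List (List A) → 𝕜) l‖ ≤ δ :=
    ev_of_pn_lt (by rw [hδ]; linarith)
  rw [ev_gf] at hev
  have hP : ∀ u : List A, ∀ᶠ v in fil N u, ∀ᶠ l in nf N (j + 1) v,
      ‖dl (a : List (List A) → 𝕜) (u :: v :: l)‖ ≤ δ := by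
    intro u
    by_cases hu : u.length ≤ N
    · have h1 := hev u hu
      rw [ev_nf_succ] at h1
      exact h1
    · rw [ev_fil]
      refine Set.Finite.subset Set.finite_empty ?_
      rintro x ⟨v, h1, h2, _⟩
      have := h1.length_le
      rw [List.length_cons] at this
      exact hu (by omega)
  obtain ⟨β, hβ1, hβ2, hβ3, _, _⟩ := exists_base N _ hP
  have hb : exjB β (a : List (List A) → 𝕜) ∈ BL 𝕜 (List A) := by
    intro n
    obtain ⟨C, hC⟩ := a.2 (n + 1)
    refine ⟨|C|, fun l hl => ?_⟩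
    match l with
    | [] => simp [exjB]
    | v :: l =>
      by_cases h : β v = v
      · rw [exjB_pos _ h, norm_zero]
        exact abs_nonneg C
      · rw [exjB_neg _ h]
        exact (hC _ (by rw [List.length_cons, hl])).trans (le_abs_self C)
  refine ⟨⟨_, hb⟩, pn_le hδ0 ?_⟩
  rw [ev_gf]
  intro v₀ hv₀
  rw [ev_nf_succ]
  have hval : ∀ l, ((a - dB 𝕜 (List A) ⟨_, hb⟩ : BL 𝕜 (List A)) : List (List A) → 𝕜) l =
      (a : List (List A) → 𝕜) l - dl (exjB β (a : List (List A) → 𝕜)) l := fun l => rfl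
  by_cases h0 : β v₀ = v₀
  · filter_upwards [hβ3 v₀] with v₁ h1
    refine Eventually.of_forall fun l => ?_
    rw [hval, dl_cons]
    have h2 : (fun l' => exjB β (a : List (List A) → 𝕜) (v₀ :: l')) = fun _ => 0 := by
      funext l'
      exact exjB_pos _ h0 l'
    have h3 : exjB β (a : List (List A) → 𝕜) (v₁ :: l) =
        (a : List (List A) → 𝕜) (v₀ :: v₁ :: l) := by
      rw [exjB_neg _ h1.2, h1.1, h0]
    rw [h2, dl_zero, h3, sub_zero, sub_self, norm_zero]
    exact hδ0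
  · have h4 := (hβ2 v₀ hv₀).resolve_left h0
    rw [ev_nf_succ] at h4
    filter_upwards [hβ3 v₀, h4] with v₁ h1 h5
    filter_upwards [h5] with l hl
    rw [hval]
    have h6 : dl (a : List (List A) → 𝕜) (β v₀ :: v₀ :: v₁ :: l) =
        (a : List (List A) → 𝕜) (v₀ :: v₁ :: l) - dl (exjB β (a : List (List A) → 𝕜))
          (v₀ :: v₁ :: l) := by
      rw [dl_cons, dl_cons (exjB β (a : List (List A) → 𝕜)),
        dl_cons (fun l' => (a : List (List A) → 𝕜) (β v₀ :: l'))]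
      have h2 : (fun l' => exjB β (a : List (List A) → 𝕜) (v₀ :: l')) =
          fun l' => (a : List (List A) → 𝕜) (β v₀ :: v₀ :: l') := by
        funext l'
        exact exjB_neg _ h0 l'
      have h3 : exjB β (a : List (List A) → 𝕜) (v₁ :: l) =
          (a : List (List A) → 𝕜) (β v₀ :: v₁ :: l) := by
        rw [exjB_neg _ h1.2, h1.1]
      rw [h2, h3]
    rw [← h6]
    exact hl

end Pool.H49.ID
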