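import Pool.Agent.H49.ID.BASE

/-!
Module EXZ. Exactness at the bottom of the tower, with constant 1.

Proof. `δ = pn 1 (dB a) + η`. For `v₀` of length `≤ N`, `∀ᶠ v₁ in fil N v₀, ‖a [v₁] - a [v₀]‖ ≤ δ`
(`dl a [v₀, v₁] = a [v₁] - a [v₀]`; `nf N 1`, `nf N 0` unfold by `ev_nf_succ`, `ev_nf_zero`); for
longer `v₀` it holds trivially (`fil N v₀` is `⊥`). `P v₀ v₁ := ‖a [v₁] - a [v₀]‖ ≤ δ`, take `β` from
`exists_base`. So `‖a [v] - a [β v]‖ ≤ δ` for all `v` of length `≤ N` (`β v = v` or `P (β v) v`;
`δ ≥ 0`). Let `F` be the finite set of base nodes (`β v = v`) of length `≤ N`, and let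
`b = ∑_{u ∈ F} single u (a [u] - a [parent of u])` (`a [[]]` for `u = []`; the parent is
`u.tail`). For every `v` of length `≤ N` we have `pre b v = ∑_{u ∈ F, u ≤ v} ... = a [β v]`, since
the `u ∈ F` with `u ≤ v` are exactly the initial segments of `β v` (telescoping sum; induction on
`v`, or on the initial segments of `β v`). Hence `‖(a - d0 b) [v]‖ ≤ δ`, and `gf N 0` only sees lists
`[v]` with `v` of length `≤ N` (`ev_gf`, `ev_nf_zero`).
-/

open Cardinal Filter

namespace Pool.H49.ID

variable {𝕜 : Type} [RCLike 𝕜] {A : Type}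

/-- telescoping sum over the initial segments of a word -/
private theorem exz_tele {M : Type} [AddCommGroup M] (g c : List A → M) (h0 : c [] = g [])
    (h1 : ∀ x w, c (x :: w) = g (x :: w) - g w) (w : List A) :
    ∀ F : Finset (List A), (∀ u, u ∈ F ↔ u <:+ w) → ∑ u ∈ F, c u = g w := by
  classical
  induction w with
  | nil =>
    intro F hF
    have : F = {[]} := by
      ext u
      rw [hF, List.suffix_nil, Finset.mem_singleton]
    rw [this, Finset.sum_singleton, h0]
  | cons x w ih =>
    intro F hF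
    have hmem : (x :: w) ∈ F := (hF _).2 (List.suffix_refl _)
    rw [← Finset.add_sum_erase F c hmem, ih (F.erase (x :: w)), h1, sub_add_cancel]
    intro u
    rw [Finset.mem_erase, hF, List.suffix_cons_iff]
    constructor
    · rintro ⟨h2, h3⟩
      exact h3.resolve_left h2
    · intro h
      refine ⟨?_, Or.inr h⟩
      rintro rfl
      have := h.length_le
      simp at this

theorem tower_exact_zero (N : ℕ) (a : BL 𝕜 (List A)) (η : ℝ) (hη : 0 < η) :
    ∃ b : List A →₀ 𝕜, pn 𝕜 A N 0 (a - d0 𝕜 A b) ≤ pn 𝕜 A N 1 (dB 𝕜 (List A) a) + η := by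
  classical
  set δ := pn 𝕜 A N 1 (dB 𝕜 (List A) a) + η with hδ
  have hδ0 : 0 ≤ δ := add_nonneg (apply_nonneg _ _) hη.le
  have hev : ∀ᶠ l in gf N 1, ‖(dB 𝕜 (List A) a : List (List A) → 𝕜) l‖ ≤ δ :=
    ev_of_pn_lt (by rw [hδ]; linarith)
  rw [ev_gf] at hev
  have hP : ∀ u : List A, ∀ᶠ v in fil N u,
      ‖(a : List (List A) → 𝕜) [v] - (a : List (List A) → 𝕜) [u]‖ ≤ δ := by
    intro u
    by_cases hu : u.length ≤ N
    · have h1 := hev u hu
      rw [ev_nf_succ] at h1
      filter_upwards [h1] with v hv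
      rw [ev_nf_zero, dB_apply, dl_cons, dl_cons, dl_nil, sub_zero] at hv
      exact hv
    · rw [ev_fil]
      refine Set.Finite.subset Set.finite_empty ?_
      rintro x ⟨v, h1, h2, _⟩
      have := h1.length_le
      rw [List.length_cons] at this
      exact hu (by omega)
  obtain ⟨β, hβ1, hβ2, _, hβ4, hβ5⟩ := exists_base N _ hP
  set c : List A → 𝕜 := fun u => match u with
    | [] => (a : List (List A) → 𝕜) [[]]
    | x :: w => (a : List (List A) → 𝕜) [x :: w] - (a : List (List A) → 𝕜) [w] with hc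
  set F := hβ4.toFinset with hF
  have hFm : ∀ u, u ∈ F ↔ u.length ≤ N ∧ β u = u := fun u => by
    rw [hF, Set.Finite.mem_toFinset]
    rfl
  refine ⟨Finsupp.onFinset F (fun u => if u ∈ F then c u else 0) (fun u hu => by
    by_contra h
    exact hu (if_neg h)), ?_⟩
  refine pn_le hδ0 ?_
  rw [ev_gf]
  intro v hv
  rw [ev_nf_zero]
  have hpre : pre (Finsupp.onFinset F (fun u => if u ∈ F then c u else 0) (fun u hu => by
      by_contra h
      exact hu (if_neg h)) : List A →₀ 𝕜) v = (a : List (List A) → 𝕜) [β v] := by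
    unfold pre
    rw [Finsupp.onFinset_sum _ (fun u => by simp)]
    have htel := exz_tele (fun u => (a : List (List A) → 𝕜) [u]) c rfl (fun _ _ => rfl) (β v)
      (F.filter fun u => u <:+ v) (fun u => by
        rw [Finset.mem_filter, hFm]
        constructor
        · rintro ⟨⟨_, h1⟩, h2⟩
          exact (hβ5 u v h2).1 h1
        · intro h
          have h2 : u <:+ v := h.trans (hβ1 v)
          exact ⟨⟨h2.length_le.trans hv, (hβ5 u v h2).2 h⟩, h2⟩)
    rw [← htel, ← Finset.sum_subset (Finset.filter_subset (fun u => u <:+ v) F)]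
    · refine Finset.sum_congr rfl fun u hu => ?_
      rw [Finset.mem_filter] at hu
      rw [if_pos hu.2, if_pos hu.1]
    · intro u hu hnot
      rw [Finset.mem_filter, not_and] at hnot
      rw [if_neg (hnot hu)]
  have hval : ((a - d0 𝕜 A (Finsupp.onFinset F (fun u => if u ∈ F then c u else 0) (fun u hu => by
      by_contra h
      exact hu (if_neg h)) : List A →₀ 𝕜) : BL 𝕜 (List A)) : List (List A) → 𝕜) [v] =
      (a : List (List A) → 𝕜) [v] - (a : List (List A) → 𝕜) [β v] := by
    rw [Submodule.coe_sub, Pi.sub_apply, d0_single, hpre]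
  rw [hval]
  rcases hβ2 v hv with h | h
  · rw [h, sub_self, norm_zero]
    exact hδ0
  · exact h

end Pool.H49.ID
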