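import Pool.Agent.H49.ID.Defs

/-!
Module INJC. Uniform extension of operators dominated by a seminorm into an injective space.

Proof. `exists_embed` (Pool/Agent/H74/ID/LI.lean) gives `j : E → ℓ_∞(E)` with `‖x‖ ≤ ‖j x‖` and (see
its proof; redo it if you need) `‖j‖ ≤ 1`; in any case `j` is bounded, injective with closed range
(`isClosed_range_of_bound`). By injectivity (`Inj.ext`, applied to `j` and the identity of `E`)
there is `P : ℓ_∞(E) → E` with `P (j x) = x`. `C = ‖P‖ * ‖j‖`. Given `d, p, ι, c`: for each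
coordinate `l` the functional `b ↦ (j (ι b)) l` is dominated by `‖j‖ * c * p (d b)`, so it factors
through the range of `d` (if `d b = d b'` then `ι b = ι b'`), and by Hahn-Banach for the seminorm
`‖j‖ * c * p` it extends to a functional `g l` on `A` with `‖g l a‖ ≤ ‖j‖ * c * p a`
(`exists_extension_norm_eq` for the seminormed group structure given by the seminorm `p`, or
for the seminorm `‖j‖ * c * p`; there `‖·‖` is allowed to be a seminorm; see
`Seminorm.toSeminormedAddCommGroup`, `Seminorm.toNormedSpace`). The family `(g l a)` is bounded, so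
it gives a linear map `A → ℓ_∞(E)` of norm `≤ ‖j‖ * c * p a`; compose with `P`.
-/

open Cardinal Filter
open scoped ENNReal ZeroAtInfty

namespace Pool.H49.ID

open Pool.H74.ID

variable {𝕜 : Type} [RCLike 𝕜]

theorem inj_ext {E : Type} [NormedAddCommGroup E] [NormedSpace 𝕜 E] [CompleteSpace E]
    (hE : Inj 𝕜 E) :
    ∃ C : ℝ, 0 ≤ C ∧ ∀ (B A : Type) [AddCommGroup B] [Module 𝕜 B] [AddCommGroup A] [Module 𝕜 A]
      (d : B →ₗ[𝕜] A) (p : Seminorm 𝕜 A) (ι : B →ₗ[𝕜] E) (c : ℝ), 0 ≤ c →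
      (∀ b, ‖ι b‖ ≤ c * p (d b)) →
      ∃ ι0 : A →ₗ[𝕜] E, (∀ b, ι0 (d b) = ι b) ∧ ∀ a, ‖ι0 a‖ ≤ C * (c * p a) := by
  obtain ⟨j, hj⟩ := exists_embed (𝕜 := 𝕜) E
  have hj' : ∀ x, 1 * ‖x‖ ≤ ‖j x‖ := fun x => by rw [one_mul]; exact hj x
  obtain ⟨hinj, hcl⟩ := isClosed_range_of_bound j 1 one_pos hj'
  -- the projection
  let M : Submodule 𝕜 (LInf 𝕜 E) := LinearMap.range j.toLinearMap
  have hM : IsClosed (M : Set (LInf 𝕜 E)) := hcl
  let eq0 : E ≃ₗ[𝕜] M := LinearEquiv.ofInjective j.toLinearMap hinj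
  let f : M →L[𝕜] E := eq0.symm.toLinearMap.mkContinuous 1 (by
    intro m
    have h1 := hj (eq0.symm m)
    have h2 : j (eq0.symm m) = (m : LInf 𝕜 E) := by
      have h3 : ((eq0 (eq0.symm m) : M) : LInf 𝕜 E) = j (eq0.symm m) := rfl
      rw [← h3, LinearEquiv.apply_symm_apply]
    rw [h2] at h1
    rw [one_mul]
    exact h1)
  obtain ⟨P, hP⟩ := hE (LInf 𝕜 E) M hM f
  have hPj : ∀ x, P (j x) = x := by
    intro x
    have h1 := hP (eq0 x)
    have h2 : f (eq0 x) = x := eq0.symm_apply_apply x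
    rw [h2] at h1
    exact h1
  refine ⟨‖P‖ * ‖j‖, by positivity, ?_⟩
  intro B A _ _ _ _ d p ι c hc hι
  have hjc : 0 ≤ ‖j‖ * c := by positivity
  let r : NNReal := ⟨‖j‖ * c, hjc⟩
  let q : Seminorm 𝕜 A := r • p
  have hq : ∀ a, q a = ‖j‖ * c * p a := fun a => rfl
  have hφ : ∀ (l : E) (b : B), ‖(j (ι b)) l‖ ≤ q (d b) := by
    intro l b
    rw [hq]
    calc ‖(j (ι b)) l‖ ≤ ‖j (ι b)‖ := lp.norm_apply_le_norm (by simp) _ l
      _ ≤ ‖j‖ * ‖ι b‖ := j.le_opNorm _
      _ ≤ ‖j‖ * (c * p (d b)) := mul_le_mul_of_nonneg_left (hι b) (norm_nonneg _)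
      _ = ‖j‖ * c * p (d b) := by ring
  obtain ⟨s, hs⟩ := d.rangeRestrict.exists_rightInverse_of_surjective d.range_rangeRestrict
  have hs' : ∀ b : B, d (s ⟨d b, LinearMap.mem_range_self d b⟩) = d b := by
    intro b
    have h1 := LinearMap.congr_fun hs ⟨d b, LinearMap.mem_range_self d b⟩
    exact congrArg Subtype.val h1
  have hext : ∀ l : E, ∃ g : A →ₗ[𝕜] 𝕜, (∀ b : B, g (d b) = (j (ι b)) l) ∧ ∀ a, ‖g a‖ ≤ q a := by
    intro l
    let φ : B →ₗ[𝕜] 𝕜 :=
      { toFun := fun b => (j (ι b)) l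
        map_add' := fun b b' => by simp
        map_smul' := fun r b => by simp }
    have hφ' : ∀ b, ‖φ b‖ ≤ q (d b) := hφ l
    let fl : LinearMap.range d →ₗ[𝕜] 𝕜 := φ ∘ₗ s
    obtain ⟨g, hg1, hg2⟩ := Module.Dual.exists_extension_of_le_seminorm (LinearMap.range d) fl
      (p := q) (by
        rintro ⟨x, b, rfl⟩
        refine (hφ' _).trans (le_of_eq ?_)
        exact congrArg q (hs' b))
    refine ⟨g, fun b => ?_, hg2⟩
    have h1 : g (d b) = φ (s ⟨d b, LinearMap.mem_range_self d b⟩) :=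
      hg1 ⟨d b, LinearMap.mem_range_self d b⟩
    have h2 : φ (s ⟨d b, LinearMap.mem_range_self d b⟩ - b) = 0 := by
      have h3 := hφ' (s ⟨d b, LinearMap.mem_range_self d b⟩ - b)
      have h4 : d (s ⟨d b, LinearMap.mem_range_self d b⟩ - b) = 0 := by
        rw [map_sub, hs' b, sub_self]
      rw [h4, map_zero] at h3
      exact norm_le_zero_iff.1 h3
    rw [map_sub, sub_eq_zero] at h2
    rw [h1, h2]
    rfl
  choose g hg1 hg2 using hext
  let J : A →ₗ[𝕜] LInf 𝕜 E :=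
    { toFun := fun a => ⟨fun l => g l a, memℓp_infty ⟨q a, by
        rintro _ ⟨l, rfl⟩
        exact hg2 l a⟩⟩
      map_add' := fun y z => by
        apply lp.ext
        funext l
        exact map_add (g l) y z
      map_smul' := fun c y => by
        apply lp.ext
        funext l
        exact map_smul (g l) c y }
  have hJ : ∀ a, ‖J a‖ ≤ q a := fun a =>
    lp.norm_le_of_forall_le (apply_nonneg q a) fun l => hg2 l a
  refine ⟨P.toLinearMap ∘ₗ J, ?_, ?_⟩
  · intro b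
    have h1 : J (d b) = j (ι b) := by
      apply lp.ext
      funext l
      exact hg1 l b
    show P (J (d b)) = ι b
    rw [h1, hPj]
  · intro a
    calc ‖P (J a)‖ ≤ ‖P‖ * ‖J a‖ := P.le_opNorm _
      _ ≤ ‖P‖ * q a := mul_le_mul_of_nonneg_left (hJ a) (norm_nonneg _)
      _ = ‖P‖ * ‖j‖ * (c * p a) := by rw [hq]; ring

end Pool.H49.ID
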