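import Pool.Agent.H49.ID.DL

/-! Seminorms along filters, the coboundary, the basic filters of the tree. -/

open Cardinal Filter
open scoped ENNReal ZeroAtInfty

namespace Pool.H49.ID

open Pool.H74.ID

section es

variable {Ω E : Type} [SeminormedAddCommGroup E] {f : Filter Ω}

theorem es_nonneg (f : Filter Ω) (a : Ω → E) : 0 ≤ es f a :=
  Real.sInf_nonneg fun _ h => h.1

theorem es_le {a : Ω → E} {δ : ℝ} (hδ : 0 ≤ δ) (h : ∀ᶠ x in f, ‖a x‖ ≤ δ) : es f a ≤ δ :=
  csInf_le ⟨0, fun _ h => h.1⟩ ⟨hδ, h⟩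

/-- If `a` is bounded along `f`, then `‖a‖ ≤ δ` eventually for all `δ > es f a`. -/
theorem ev_of_es_lt {a : Ω → E} (hb : ∃ C, ∀ᶠ x in f, ‖a x‖ ≤ C) {δ : ℝ} (h : es f a < δ) :
    ∀ᶠ x in f, ‖a x‖ ≤ δ := by
  obtain ⟨C, hC⟩ := hb
  have hne : {δ : ℝ | 0 ≤ δ ∧ ∀ᶠ x in f, ‖a x‖ ≤ δ}.Nonempty :=
    ⟨|C|, abs_nonneg C, hC.mono fun x hx => hx.trans (le_abs_self C)⟩
  obtain ⟨ε, ⟨_, h2⟩, h3⟩ := exists_lt_of_csInf_lt hne h
  exact h2.mono fun x hx => hx.trans h3.le

end es

section sn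

variable {𝕜 : Type} [RCLike 𝕜] {T : Type}

theorem bl_bdd (a : BL 𝕜 T) {f : Filter (List T)} {n : ℕ} (hf : ∀ᶠ l in f, l.length = n) :
    ∃ C, ∀ᶠ l in f, ‖(a : List T → 𝕜) l‖ ≤ C := by
  obtain ⟨C, hC⟩ := a.2 n
  exact ⟨C, hf.mono fun l hl => hC l hl⟩

/-- The seminorm `es f` on functions on lists. -/
noncomputable def sn (𝕜 : Type) [RCLike 𝕜] {T : Type} (f : Filter (List T)) (n : ℕ)
    (hf : ∀ᶠ l in f, l.length = n) : Seminorm 𝕜 (BL 𝕜 T) :=
  Seminorm.ofSMulLE (fun a => es f (a : List T → 𝕜))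
    (by
      refine le_antisymm (es_le le_rfl (Eventually.of_forall fun l => by simp)) (es_nonneg _ _))
    (by
      intro a b
      refine le_of_forall_pos_le_add fun η hη => ?_
      have ha := ev_of_es_lt (bl_bdd a hf) (show es f (a : List T → 𝕜) < es f (a : List T → 𝕜) + η / 2
        by linarith)
      have hb := ev_of_es_lt (bl_bdd b hf) (show es f (b : List T → 𝕜) < es f (b : List T → 𝕜) + η / 2
        by linarith)
      refine es_le (by linarith [es_nonneg f (a : List T → 𝕜), es_nonneg f (b : List T → 𝕜)]) ?_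
      filter_upwards [ha, hb] with l h1 h2
      have : ‖((a + b : BL 𝕜 T) : List T → 𝕜) l‖ ≤ ‖(a : List T → 𝕜) l‖ + ‖(b : List T → 𝕜) l‖ :=
        norm_add_le _ _
      linarith)
    (by
      intro c a
      refine le_of_forall_pos_le_add fun η hη => ?_
      have hpos : 0 < η / (‖c‖ + 1) := by positivity
      have ha := ev_of_es_lt (bl_bdd a hf) (show es f (a : List T → 𝕜) <
        es f (a : List T → 𝕜) + η / (‖c‖ + 1) by linarith)
      refine es_le (by have := es_nonneg f (a : List T → 𝕜); positivity) ?_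
      filter_upwards [ha] with l h1
      have h2 : ‖((c • a : BL 𝕜 T) : List T → 𝕜) l‖ = ‖c‖ * ‖(a : List T → 𝕜) l‖ := by
        rw [Submodule.coe_smul, Pi.smul_apply, norm_smul]
      rw [h2]
      have h3 : ‖c‖ * (η / (‖c‖ + 1)) ≤ η := by
        rw [mul_div_assoc', div_le_iff₀ (by positivity)]
        nlinarith [norm_nonneg c]
      calc ‖c‖ * ‖(a : List T → 𝕜) l‖ ≤ ‖c‖ * (es f (a : List T → 𝕜) + η / (‖c‖ + 1)) :=
            mul_le_mul_of_nonneg_left h1 (norm_nonneg c)
        _ = ‖c‖ * es f (a : List T → 𝕜) + ‖c‖ * (η / (‖c‖ + 1)) := by ring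
        _ ≤ ‖c‖ * es f (a : List T → 𝕜) + η := by linarith)

theorem sn_apply {f : Filter (List T)} {n : ℕ} (hf : ∀ᶠ l in f, l.length = n) (a : BL 𝕜 T) :
    sn 𝕜 f n hf a = es f (a : List T → 𝕜) := rfl

/-- The coboundary on functions on lists. -/
noncomputable def dB (𝕜 : Type) [RCLike 𝕜] (T : Type) : BL 𝕜 T →ₗ[𝕜] BL 𝕜 T where
  toFun a := ⟨fun l => dl (a : List T → 𝕜) l, by
    intro n
    obtain ⟨C, hC⟩ := a.2 (n - 1)
    refine ⟨n * C, fun l hl => ?_⟩
    rw [← hl]
    refine norm_dl_le l _ C fun c' _ h => hC c' (by omega)⟩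
  map_add' a b := by
    apply Subtype.ext
    funext l
    exact dl_add l (a : List T → 𝕜) (b : List T → 𝕜)
  map_smul' c a := by
    apply Subtype.ext
    funext l
    exact dl_smul c l (a : List T → 𝕜)

theorem dB_apply (a : BL 𝕜 T) (l : List T) :
    (dB 𝕜 T a : List T → 𝕜) l = dl (a : List T → 𝕜) l := rfl

end sn

section tree

variable {A : Type}

theorem ev_fil {N : ℕ} {u : List A} {P : List A → Prop} :
    (∀ᶠ v in fil N u, P v) ↔ {a : A | ∃ v, (a :: u) <:+ v ∧ v.length ≤ N ∧ ¬ P v}.Finite :=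
  Iff.rfl

theorem ev_nf_zero {N : ℕ} {u : List A} {P : List (List A) → Prop} :
    (∀ᶠ l in nf N 0 u, P l) ↔ P [] := by
  simp [nf]

theorem ev_nf_succ {N j : ℕ} {u : List A} {P : List (List A) → Prop} :
    (∀ᶠ l in nf N (j + 1) u, P l) ↔ ∀ᶠ v in fil N u, ∀ᶠ l in nf N j v, P (v :: l) :=
  Iff.rfl

theorem ev_gf {N j : ℕ} {P : List (List A) → Prop} :
    (∀ᶠ l in gf N j, P l) ↔ ∀ v : List A, v.length ≤ N → ∀ᶠ l in nf N j v, P (v :: l) := by
  have h : (∀ᶠ l in gf N j, P l) ↔
      ∀ᶠ v in 𝓟 {v : List A | v.length ≤ N}, ∀ᶠ l in nf N j v, P (v :: l) := Iff.rfl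
  rw [h, eventually_principal]
  rfl

theorem nf_length (N j : ℕ) (u : List A) : ∀ᶠ l in nf N j u, l.length = j := by
  induction j generalizing u with
  | zero => rw [ev_nf_zero]; rfl
  | succ j ih =>
    rw [ev_nf_succ]
    refine Eventually.of_forall fun v => ?_
    filter_upwards [ih v] with l hl
    simp [hl]

theorem gf_length (N j : ℕ) : ∀ᶠ l in (gf N j : Filter (List (List A))), l.length = j + 1 := by
  rw [ev_gf]
  intro v _
  filter_upwards [nf_length N j v] with l hl
  simp [hl]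

/-- The words grow along the lists. -/
theorem nf_chain (N j : ℕ) (u : List A) :
    ∀ᶠ l in nf N j u, (u :: l).Pairwise (fun a b => a <:+ b ∧ a.length < b.length) ∧
      ∀ w ∈ l, w.length ≤ N := by
  induction j generalizing u with
  | zero => rw [ev_nf_zero]; simp
  | succ j ih =>
    rw [ev_nf_succ, ev_fil]
    refine Set.Finite.subset Set.finite_empty ?_
    rintro a ⟨v, h1, h2, h3⟩
    apply h3
    have huv : u <:+ v := (List.suffix_cons a u).trans h1
    have hlen : u.length < v.length := by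
      have := h1.length_le
      simp at this
      omega
    filter_upwards [ih v] with l hl
    refine ⟨List.pairwise_cons.2 ⟨?_, hl.1⟩, ?_⟩
    · intro w hw
      rcases List.mem_cons.1 hw with rfl | hw
      · exact ⟨huv, hlen⟩
      · have := (List.pairwise_cons.1 hl.1).1 w hw
        exact ⟨huv.trans this.1, hlen.trans this.2⟩
    · intro w hw
      rcases List.mem_cons.1 hw with rfl | hw
      · exact h2
      · exact hl.2 w hw

theorem gf_chain (N j : ℕ) :
    ∀ᶠ l in (gf N j : Filter (List (List A))),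
      l.Pairwise (fun a b => a <:+ b ∧ a.length < b.length) ∧ ∀ w ∈ l, w.length ≤ N := by
  rw [ev_gf]
  intro v hv
  filter_upwards [nf_chain N j v] with l hl
  refine ⟨hl.1, ?_⟩
  intro w hw
  rcases List.mem_cons.1 hw with rfl | hw
  · exact hv
  · exact hl.2 w hw

/-- The seminorms of the tower. -/
noncomputable def pn (𝕜 : Type) [RCLike 𝕜] (A : Type) (N j : ℕ) : Seminorm 𝕜 (BL 𝕜 (List A)) :=
  sn 𝕜 (gf N j) (j + 1) (gf_length N j)

theorem pn_le {𝕜 : Type} [RCLike 𝕜] {N j : ℕ} {a : BL 𝕜 (List A)} {δ : ℝ} (hδ : 0 ≤ δ)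
    (h : ∀ᶠ l in gf N j, ‖(a : List (List A) → 𝕜) l‖ ≤ δ) : pn 𝕜 A N j a ≤ δ :=
  es_le hδ h

theorem ev_of_pn_lt {𝕜 : Type} [RCLike 𝕜] {N j : ℕ} {a : BL 𝕜 (List A)} {δ : ℝ}
    (h : pn 𝕜 A N j a < δ) : ∀ᶠ l in gf N j, ‖(a : List (List A) → 𝕜) l‖ ≤ δ :=
  ev_of_es_lt (bl_bdd a (gf_length N j)) h

/-- Sum of a finitely supported function over the initial segments of a word. -/
noncomputable def pre {𝕜 : Type} [RCLike 𝕜] (lam : List A →₀ 𝕜) (v : List A) : 𝕜 :=
  open scoped Classical in lam.sum fun u r => if u <:+ v then r else 0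

/-- The first differential: `lam ↦ (v ↦ ∑ u ≤ v, lam u)` on lists of length one. -/
noncomputable def d0 (𝕜 : Type) [RCLike 𝕜] (A : Type) : (List A →₀ 𝕜) →ₗ[𝕜] BL 𝕜 (List A) where
  toFun lam := ⟨fun l => match l with
    | [v] => pre lam v
    | _ => 0, by
    classical
    intro n
    refine ⟨∑ u ∈ lam.support, ‖lam u‖, fun l _ => ?_⟩
    match l with
    | [] => simp; exact Finset.sum_nonneg fun _ _ => norm_nonneg _
    | [v] =>
      refine (norm_sum_le _ _).trans (Finset.sum_le_sum fun u _ => ?_)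
      dsimp only
      split_ifs
      · exact le_rfl
      · simp
    | _ :: _ :: _ => simp; exact Finset.sum_nonneg fun _ _ => norm_nonneg _⟩
  map_add' a b := by
    classical
    apply Subtype.ext
    funext l
    match l with
    | [] => simp
    | [v] =>
      show pre (a + b) v = pre a v + pre b v
      unfold pre
      rw [Finsupp.sum_add_index']
      · intro u; simp
      · intro u r s
        split_ifs <;> simp
    | _ :: _ :: _ => simp
  map_smul' c a := by
    classical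
    apply Subtype.ext
    funext l
    match l with
    | [] => simp
    | [v] =>
      show pre (c • a) v = c • pre a v
      unfold pre
      rw [Finsupp.sum_smul_index' (by intro u; simp), Finsupp.smul_sum]
      congr 1
      funext u r
      split_ifs <;> simp
    | _ :: _ :: _ => simp

theorem d0_single {𝕜 : Type} [RCLike 𝕜] (lam : List A →₀ 𝕜) (v : List A) :
    (d0 𝕜 A lam : List (List A) → 𝕜) [v] = pre lam v := rfl

end tree

end Pool.H49.ID
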