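import Pool.Agent.H49.ID.QN
import Pool.Agent.H49.ID.Tree

/-!
Module IOTA. The operator `ι : δ_t ↦ [1_{r t}]` from finitely supported functions on the tree to
`ℓ_∞ / c_0` is dominated by the supremum over the words `v` of length `≤ N` of `|∑_{u ≤ v} lam u|`.

Definition: `ι lam = ∑_{t ∈ supp lam, t.length ≤ N} lam t • mkQ (ind 𝕜 (r t))`
(`Finsupp.lsum`/`linearCombination` of `fun t => if t.length ≤ N then mkQ (ind 𝕜 (r t)) else 0`).
Bound: let `F` be the finite set of the initial segments of length `≤ N` of the words in the support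
of `lam`, together with `[]`. For all `i` outside the finite union of the finite sets `r t ∩ r t'`, `t`, `t'`
incomparable in `F`, the words `t ∈ F` with `i ∈ r t` form a chain, which is closed under initial
segments (`r` is nested) and contains `[]` (`r [] = univ`): these are the initial segments of its
longest element `v`, `|v| ≤ N`. So `∑_{t ∈ supp, |t| ≤ N} lam t * 1_{r t} i = pre lam v`: indeed for
`t` in the support with `|t| ≤ N`: `i ∈ r t` iff `t <:+ v`; and the words in the support longer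
than `N` are not initial segments of `v`. And
`‖pre lam v‖ = ‖(d0 lam) [v]‖ ≤ δ` for every `δ > pn 𝕜 A N 0 (d0 lam)` (`ev_of_pn_lt`, `ev_gf`,
`ev_nf_zero`). Use `qn_mk_le`.
-/

open Cardinal Filter Topology
open scoped ENNReal ZeroAtInfty

namespace Pool.H49.ID

open Pool.H74.ID

variable {𝕜 : Type} [RCLike 𝕜] {A : Type}

/-- the restriction of a finitely supported function on words to the words of length `≤ N` -/
noncomputable def IOTA_S (N : ℕ) (lam : List A →₀ 𝕜) : Finset (List A) :=
  lam.support.filter (fun t => t.length ≤ N)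

/-- the values of `∑ lam t • 1_{r t}` outside a finite set -/
theorem IOTA_val (N : ℕ) (r : List A → Set ℕ) (h1 : ∀ u v, u <:+ v → r v ⊆ r u)
    (h2 : ∀ u v, ¬ u <:+ v → ¬ v <:+ u → (r u ∩ r v).Finite) (lam : List A →₀ 𝕜) :
    ∀ᶠ i in cofinite, (∑ t ∈ IOTA_S N lam, lam t * (r t).indicator (fun _ => (1 : 𝕜)) i) = 0 ∨
      ∃ v : List A, v.length ≤ N ∧
        (∑ t ∈ IOTA_S N lam, lam t * (r t).indicator (fun _ => (1 : 𝕜)) i) = pre lam v := by
  classical
  set S := IOTA_S N lam with hS
  have hfin : (⋃ p ∈ (S ×ˢ S).filter (fun p : List A × List A => ¬ p.1 <:+ p.2 ∧ ¬ p.2 <:+ p.1),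
      (r p.1 ∩ r p.2)).Finite := by
    refine Set.Finite.biUnion (Finset.finite_toSet _) ?_
    intro p hp
    have hp' := (Finset.mem_filter.1 (Finset.mem_coe.1 hp)).2
    exact h2 _ _ hp'.1 hp'.2
  filter_upwards [hfin.compl_mem_cofinite] with i hi
  have hchain : ∀ t ∈ S, ∀ t' ∈ S, i ∈ r t → i ∈ r t' → t <:+ t' ∨ t' <:+ t := by
    intro t ht t' ht' hit hit'
    by_contra hcon
    push Not at hcon
    apply hi
    simp only [Set.mem_iUnion]
    refine ⟨(t, t'), Finset.mem_filter.2 ⟨Finset.mem_product.2 ⟨ht, ht'⟩, hcon.1, hcon.2⟩, hit,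
      hit'⟩
  by_cases hne : (S.filter (fun t => i ∈ r t)).Nonempty
  · right
    obtain ⟨v, hv, hmax⟩ := Finset.exists_max_image _ List.length hne
    obtain ⟨hvS, hiv⟩ := Finset.mem_filter.1 hv
    have hvN : v.length ≤ N := by
      rw [hS] at hvS
      exact (Finset.mem_filter.1 hvS).2
    refine ⟨v, hvN, ?_⟩
    have key : ∀ t ∈ S, (i ∈ r t ↔ t <:+ v) := by
      intro t ht
      constructor
      · intro hit
        rcases hchain t ht v hvS hit hiv with h | h
        · exact h
        · have h3 := hmax t (Finset.mem_filter.2 ⟨ht, hit⟩)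
          have h4 := h.length_le
          have h5 : v = t := h.eq_of_length (le_antisymm h4 h3)
          rw [h5]
      · intro h
        exact h1 t v h hiv
    have h3 : pre lam v = ∑ u ∈ lam.support, if u <:+ v then lam u else 0 := by
      unfold pre
      rw [Finsupp.sum]
    rw [h3]
    have h4 : ∑ u ∈ lam.support, (if u <:+ v then lam u else 0) =
        ∑ u ∈ S, (if u <:+ v then lam u else 0) := by
      symm
      refine Finset.sum_subset (by rw [hS]; exact Finset.filter_subset _ _) ?_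
      intro u hu hu'
      rw [if_neg]
      intro h
      apply hu'
      rw [hS]
      exact Finset.mem_filter.2 ⟨hu, h.length_le.trans hvN⟩
    rw [h4]
    refine Finset.sum_congr rfl fun t ht => ?_
    by_cases h : t <:+ v
    · rw [if_pos h, Set.indicator_of_mem ((key t ht).2 h), mul_one]
    · rw [if_neg h, Set.indicator_of_notMem (fun h' => h ((key t ht).1 h')), mul_zero]
  · left
    rw [Finset.not_nonempty_iff_eq_empty, Finset.filter_eq_empty_iff] at hne
    refine Finset.sum_eq_zero fun t ht => ?_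
    rw [Set.indicator_of_notMem (hne ht), mul_zero]

theorem exists_iota (N : ℕ) (r : List A → Set ℕ) (h0 : r [] = Set.univ)
    (h1 : ∀ u v, u <:+ v → r v ⊆ r u)
    (h2 : ∀ u v, ¬ u <:+ v → ¬ v <:+ u → (r u ∩ r v).Finite) :
    ∃ ι : (List A →₀ 𝕜) →ₗ[𝕜] (LInf 𝕜 ℕ ⧸ V 𝕜 0 ℕ),
      (∀ (t : List A) (z : 𝕜), t.length ≤ N →
        ι (Finsupp.single t z) = z • (V 𝕜 0 ℕ).mkQ (ind 𝕜 (r t))) ∧
      ∀ lam, ‖ι lam‖ ≤ pn 𝕜 A N 0 (d0 𝕜 A lam) := by
  classical
  set g : List A → (LInf 𝕜 ℕ ⧸ V 𝕜 0 ℕ) := fun t =>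
    if t.length ≤ N then (V 𝕜 0 ℕ).mkQ (ind 𝕜 (r t)) else 0 with hg
  refine ⟨Finsupp.linearCombination 𝕜 g, ?_, ?_⟩
  · intro t z ht
    rw [Finsupp.linearCombination_single, hg]
    simp only
    rw [if_pos ht]
  · intro lam
    refine le_of_forall_gt_imp_ge_of_dense fun δ hδ => ?_
    have hδ0 : 0 ≤ δ := (apply_nonneg (pn 𝕜 A N 0) (d0 𝕜 A lam)).trans hδ.le
    set x : LInf 𝕜 ℕ := ∑ t ∈ IOTA_S N lam, lam t • ind 𝕜 (r t) with hx
    have hι : Finsupp.linearCombination 𝕜 g lam = (V 𝕜 0 ℕ).mkQ x := by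
      rw [Finsupp.linearCombination_apply, Finsupp.sum, hx, map_sum]
      have h3 : ∑ t ∈ lam.support, lam t • g t = ∑ t ∈ IOTA_S N lam, lam t • g t := by
        symm
        refine Finset.sum_subset (Finset.filter_subset _ _) ?_
        intro u hu hu'
        have : ¬ u.length ≤ N := fun h => hu' (Finset.mem_filter.2 ⟨hu, h⟩)
        rw [hg]
        simp only
        rw [if_neg this, smul_zero]
      rw [h3]
      refine Finset.sum_congr rfl fun t ht => ?_
      rw [map_smul, hg]
      simp only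
      rw [if_pos (Finset.mem_filter.1 ht).2]
    rw [hι]
    refine qn_mk_le x δ hδ0 ?_
    have hpre : ∀ v : List A, v.length ≤ N → ‖pre lam v‖ ≤ δ := by
      intro v hv
      have h3 := ev_of_pn_lt hδ
      rw [ev_gf] at h3
      have h4 := ev_nf_zero.1 (h3 v hv)
      rw [d0_single] at h4
      exact h4
    filter_upwards [IOTA_val N r h1 h2 lam] with i hi
    have hxi : x i = ∑ t ∈ IOTA_S N lam, lam t * (r t).indicator (fun _ => (1 : 𝕜)) i := by
      rw [hx, lp.coeFn_sum, Finset.sum_apply]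
      refine Finset.sum_congr rfl fun t _ => ?_
      rw [lp.coeFn_smul, Pi.smul_apply, ind_apply, smul_eq_mul]
    rw [hxi]
    rcases hi with hi | ⟨v, hv, hi⟩
    · rw [hi, norm_zero]
      exact hδ0
    · rw [hi]
      exact hpre v hv

end Pool.H49.ID
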