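import Pool.Agent.H49.ID.DL
import Pool.Agent.H49.ID.EPQ

/-!
Module LEML. The main lemma: a space `X` of injective dimension `≤ n` with property `EP`; in any
seminormed complex `B → A 0 → A 1 → ⋯` that is exact with constant 1, every `ι : B → X` dominated by
`p 0 ∘ d₀` and every family `D₀, D` as below, the cochain `ι ∘ D₀` is a coboundary with a uniform
bound.

Proof by induction on `n`, for all `X` and `c`. In both cases let `E` be an injective space
containing `X` (`n = 0`: `E = X`, `j = id`; `n > 0`: from `InjDimLE`, `0 → X → E → Q → 0`). Let `CE`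
be the constant of `inj_ext` for `E`. Apply it with `d = d₀`, `p = p 0`, the map `j ∘ ι` (constant
`‖j‖ c`): `ι0 : A 0 → E`, `ι0 (d₀ b) = j (ι b)`, `‖ι0 a‖ ≤ CE ‖j‖ c (p 0 a)`; in particular `ι0` kills
the elements with `p 0 a = 0`.

`n = 0`: for `c` of length `2` the sign in `h₀` is
`(-1)^(2+1) = -1`, so `L c a = - ι0 (D 0 c a)`: `dl L c = - ι0 (dl (D 0) c) = - (-1) ι0 (d₀ (D₀ c a))
= ι (D₀ c a)`. Bound: `hD` with `j = 0`.

`n = m + 1`: `ι' = q ∘ ι0 : A 0 → Q` kills `d₀ b` (`q (j (ι b)) = 0`), so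
`‖ι' a‖ = ‖ι' (a - d₀ b)‖ ≤ ‖q‖ CE ‖j‖ c (p 0 (a - d₀ b))` for all `b`, hence by `ex₀`
`‖ι' a‖ ≤ c' (p 1 (d 0 a))`, `c' = ‖q‖ CE ‖j‖ c`. Induction hypothesis for `Q` (`EP 𝕜 Q` by `ep_quot`),
`m`, `c'`, the shifted complex `B' = A 0`, `A' k = A (k+1)`, `d₀' = d 0`, `d' k = d (k+1)`,
`p' k = p (k+1)`, `D₀' = D 0`, `D' k = D (k+1)`: gives `L'` with values in `Q`, with
`dl L' c = ι' (D 0 c a)` for `c` of length `m + 2 = n + 1`. Lift: for each `c` of length `m + 1` let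
`S_c = {a | V c a}` (a finite type), `T_c : (S_c → 𝕜) → Q`, `f ↦ ∑ f a • L' c a`, of norm `≤ C'`
(sup norm; `L'` bound); by `LL` lift it to `T_c' : (S_c → 𝕜) → E` of norm `≤ CL C'`, and let
`L'' c a = T_c' (single a)` for `a ∈ S_c`, `0` otherwise. So `q (L'' c a) = L' c a` for `V c a`, and
`‖∑ f a • L'' c a‖ ≤ CL C'` for `f` supported in `S_c`, `|f| ≤ 1`. For `c` of length `n + 1` with
`V c a`, `q (ι0 (D 0 c a) - dl (L'' · a) c) = 0` (`dl_congr`, `dl_map_hom`, `hV`), so it is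
`j (u c a)`; put `L c a = (-1)^(n+1) • u c a` (`0` if not `V c a`). For `c` of length `n + 2` with
`V c a`: `j (dl (L · a) c) = (-1)^(n+1) ι0 (dl (D 0 · a) c) - 0` (`dl_dl`)
`= (-1)^(n+1) (-1)^(n+3) ι0 (d₀ (D₀ c a)) = j (ι (D₀ c a))` by `h₀`; use injectivity of `j`.
Bound: `‖∑ f a • L c a‖ ≤ cj ‖∑ f a • (ι0 (D 0 c a) - dl (L'' · a) c)‖ ≤ cj (CE ‖j‖ c + (n+1) CL C')`
(`norm_dl_le`, `dl_sum`, `hD` with `j = 0`, and `cj` with `‖x‖ ≤ cj ‖j x‖`, as `j` is injective with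
closed range).
-/

open Cardinal Filter
open scoped ENNReal ZeroAtInfty

namespace Pool.H49.ID

open Pool.H74.ID

variable {𝕜 : Type} [RCLike 𝕜]

/-- a bounded injective operator with closed range is bounded below -/
private theorem leml_below {X E : Type} [NormedAddCommGroup X] [NormedSpace 𝕜 X] [CompleteSpace X]
    [NormedAddCommGroup E] [NormedSpace 𝕜 E] [CompleteSpace E] (j : X →L[𝕜] E)
    (hj : Function.Injective j) (hcl : IsClosed (Set.range j)) :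
    ∃ cj : ℝ, 0 ≤ cj ∧ ∀ x, ‖x‖ ≤ cj * ‖j x‖ := by
  obtain ⟨K, hK⟩ := j.antilipschitz_of_injective_of_isClosed_range hj hcl
  refine ⟨K, K.2, fun x => ?_⟩
  have h := hK.le_mul_dist x 0
  simpa [dist_eq_norm] using h

/-- extension by zero of a function on `{a // P a}` -/
private theorem leml_sum {G M : Type} [Fintype G] [AddCommGroup M] [Module 𝕜 M] (P : G → Prop)
    [Fintype {a // P a}] (f : G → 𝕜) (hf : ∀ a, f a ≠ 0 → P a) (L : G → M) :
    ∑ a, f a • L a = ∑ a : {a // P a}, f a • L a := by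
  classical
  rw [← Finset.sum_subtype (Finset.univ.filter P) (fun x => by simp) (fun a => f a • L a)]
  symm
  apply Finset.sum_subset (Finset.subset_univ _)
  intro a _ ha
  have h1 : ¬ P a := fun h => ha (by simp [h])
  have h2 : f a = 0 := by
    by_contra h3
    exact h1 (hf a h3)
  rw [h2, zero_smul]

/-- lifting of a family of vectors -/
private theorem leml_lift {E Q : Type} [NormedAddCommGroup E] [NormedSpace 𝕜 E]
    [NormedAddCommGroup Q] [NormedSpace 𝕜 Q] (q : E →L[𝕜] Q) (CL C' : ℝ) (hCL : 0 ≤ CL)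
    (hC' : 0 ≤ C')
    (hLL : ∀ (F : Type) [NormedAddCommGroup F] [NormedSpace 𝕜 F] [FiniteDimensional 𝕜 F]
      (T : F →L[𝕜] Q), ∃ T' : F →L[𝕜] E, (∀ f, q (T' f) = T f) ∧ ‖T'‖ ≤ CL * ‖T‖)
    {G : Type} [Fintype G] (P : G → Prop) (L' : G → Q)
    (h : ∀ f : G → 𝕜, (∀ a, f a ≠ 0 → P a) → (∀ a, ‖f a‖ ≤ 1) → ‖∑ a, f a • L' a‖ ≤ C') :
    ∃ L'' : G → E, (∀ a, P a → q (L'' a) = L' a) ∧
      ∀ f : G → 𝕜, (∀ a, f a ≠ 0 → P a) → (∀ a, ‖f a‖ ≤ 1) → ‖∑ a, f a • L'' a‖ ≤ CL * C' := by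
  classical
  let ext0 : ({a // P a} → 𝕜) → (G → 𝕜) := fun f a => if h : P a then f ⟨a, h⟩ else 0
  have hext : ∀ (f : {a // P a} → 𝕜) (a : {a // P a}), ext0 f a = f a := by
    intro f a
    show (if h : P a.1 then f ⟨a.1, h⟩ else 0) = f a
    rw [dif_pos a.2]
  have hextP : ∀ (f : {a // P a} → 𝕜) (a : G), ext0 f a ≠ 0 → P a := by
    intro f a h1
    by_contra h2
    apply h1
    show (if h : P a then f ⟨a, h⟩ else 0) = 0
    rw [dif_neg h2]
  let T0 : ({a // P a} → 𝕜) →ₗ[𝕜] Q :=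
    { toFun := fun f => ∑ a : {a // P a}, f a • L' a
      map_add' := by
        intro f g
        simp only [Pi.add_apply, add_smul, Finset.sum_add_distrib]
      map_smul' := by
        intro r f
        simp only [Pi.smul_apply, smul_eq_mul, mul_smul, RingHom.id_apply, Finset.smul_sum] }
  have hT0 : ∀ f, T0 f = ∑ a : {a // P a}, f a • L' a := fun f => rfl
  have hbound1 : ∀ f : {a // P a} → 𝕜, ‖f‖ ≤ 1 → ‖T0 f‖ ≤ C' := by
    intro f hf
    have h1 : T0 f = ∑ a, ext0 f a • L' a := by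
      rw [leml_sum P (ext0 f) (hextP f) L', hT0]
      refine Finset.sum_congr rfl fun a _ => ?_
      rw [hext]
    rw [h1]
    apply h _ (hextP f)
    intro a
    by_cases hP : P a
    · have h2 : ext0 f a = f ⟨a, hP⟩ := hext f ⟨a, hP⟩
      rw [h2]
      exact (norm_le_pi_norm f _).trans hf
    · have h2 : ext0 f a = 0 := by
        by_contra h3
        exact hP (hextP f a h3)
      rw [h2, norm_zero]
      exact zero_le_one
  have hbound : ∀ f : {a // P a} → 𝕜, ‖T0 f‖ ≤ C' * ‖f‖ := by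
    intro f
    by_cases hf : f = 0
    · rw [hf, map_zero, norm_zero, norm_zero, mul_zero]
    · have hn : 0 < ‖f‖ := norm_pos_iff.2 hf
      have h1 : ‖((‖f‖ : 𝕜)⁻¹) • f‖ ≤ 1 := by
        rw [norm_smul, norm_inv, RCLike.norm_ofReal, abs_of_pos hn, inv_mul_cancel₀ hn.ne']
      have h2 := hbound1 _ h1
      rw [map_smul, norm_smul, norm_inv, RCLike.norm_ofReal, abs_of_pos hn,
        inv_mul_le_iff₀ hn] at h2
      linarith [mul_comm ‖f‖ C']
  let T : ({a // P a} → 𝕜) →L[𝕜] Q := T0.mkContinuous C' hbound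
  have hTn : ‖T‖ ≤ C' := T0.mkContinuous_norm_le hC' hbound
  obtain ⟨T', hT', hT'n⟩ := hLL ({a // P a} → 𝕜) T
  have hT'n2 : ‖T'‖ ≤ CL * C' := hT'n.trans (mul_le_mul_of_nonneg_left hTn hCL)
  let L'' : G → E := fun a => if h : P a then T' (Pi.single ⟨a, h⟩ 1) else 0
  have hL'' : ∀ a : {a // P a}, L'' a = T' (Pi.single a 1) := by
    intro a
    show (if h : P a.1 then T' (Pi.single ⟨a.1, h⟩ 1) else 0) = _
    rw [dif_pos a.2]
  refine ⟨L'', ?_, ?_⟩
  · intro a ha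
    rw [hL'' ⟨a, ha⟩, hT']
    show T0 _ = _
    rw [hT0, Finset.sum_eq_single ⟨a, ha⟩]
    · simp
    · intro b _ hb
      rw [Pi.single_eq_of_ne hb, zero_smul]
    · intro h2
      exact absurd (Finset.mem_univ _) h2
  · intro f hf hf1
    have h1 : ∑ a, f a • L'' a = T' (fun a => f a) := by
      rw [leml_sum P f hf L'']
      have h2 : (fun a : {a // P a} => f a) = ∑ a : {a // P a}, f a • Pi.single a (1 : 𝕜) := by
        funext b
        rw [Finset.sum_apply, Finset.sum_eq_single b]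
        · simp
        · intro c _ hc
          rw [Pi.smul_apply, Pi.single_eq_of_ne (Ne.symm hc), smul_zero]
        · intro h2
          exact absurd (Finset.mem_univ _) h2
      rw [h2, map_sum]
      refine Finset.sum_congr rfl fun a _ => ?_
      rw [map_smul, hL'']
    rw [h1]
    have h3 : ‖(fun a : {a // P a} => f a)‖ ≤ 1 := by
      rw [pi_norm_le_iff_of_nonneg zero_le_one]
      intro a
      exact hf1 a
    calc ‖T' (fun a => f a)‖ ≤ ‖T'‖ * ‖(fun a : {a // P a} => f a)‖ := T'.le_opNorm _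
      _ ≤ (CL * C') * 1 := mul_le_mul hT'n2 h3 (norm_nonneg _) (mul_nonneg hCL hC')
      _ = CL * C' := mul_one _

theorem main_lemma (n : ℕ) : ∀ (X : Type) [NormedAddCommGroup X] [NormedSpace 𝕜 X]
    [CompleteSpace X], InjDimLE 𝕜 n X → EP 𝕜 X → ∀ c : ℝ, 0 ≤ c → ∃ C : ℝ, 0 ≤ C ∧
    ∀ (B : Type) [AddCommGroup B] [Module 𝕜 B] (A : ℕ → Type) [∀ k, AddCommGroup (A k)]
      [∀ k, Module 𝕜 (A k)] (d₀ : B →ₗ[𝕜] A 0) (d : ∀ k, A k →ₗ[𝕜] A (k + 1))
      (p : ∀ k, Seminorm 𝕜 (A k))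
      (_ex₀ : ∀ (a : A 0) (η : ℝ), 0 < η → ∃ b : B, p 0 (a - d₀ b) ≤ p 1 (d 0 a) + η)
      (_ex : ∀ (k : ℕ) (a : A (k + 1)) (η : ℝ), 0 < η →
        ∃ b : A k, p (k + 1) (a - d k b) ≤ p (k + 2) (d (k + 1) a) + η)
      (ι : B →ₗ[𝕜] X) (_hι : ∀ b, ‖ι b‖ ≤ c * p 0 (d₀ b))
      (G S : Type) [Fintype G] (V : List S → G → Prop)
      (_hV : ∀ (c c' : List S) (a : G), c'.Sublist c → V c a → V c' a)
      (D₀ : List S → G → B) (D : ∀ k, List S → G → A k)
      (_hD : ∀ (k : ℕ) (c : List S) (f : G → 𝕜), k + c.length = n + 1 →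
        (∀ a, f a ≠ 0 → V c a) → (∀ a, ‖f a‖ ≤ 1) → p k (∑ a, f a • D k c a) ≤ 1)
      (_h₀ : ∀ (c : List S) (a : G), V c a → c.length = n + 2 →
        p 0 (dl (fun c' => D 0 c' a) c - (-1 : ℤ) ^ (c.length + 1) • d₀ (D₀ c a)) = 0)
      (_h : ∀ (k : ℕ) (c : List S) (a : G), V c a → k + c.length = n + 1 → 2 ≤ c.length →
        p (k + 1) (dl (fun c' => D (k + 1) c' a) c - (-1 : ℤ) ^ (c.length + 1) • d k (D k c a)) = 0),
      ∃ L : List S → G → X,
        (∀ (c : List S) (f : G → 𝕜), c.length = n + 1 → (∀ a, f a ≠ 0 → V c a) →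
          (∀ a, ‖f a‖ ≤ 1) → ‖∑ a, f a • L c a‖ ≤ C) ∧
        (∀ (c : List S) (a : G), V c a → c.length = n + 2 →
          dl (fun c' => L c' a) c = ι (D₀ c a)) := by
  induction n with
  | zero =>
    intro X _ _ _ hX _ c hc
    obtain ⟨CE, hCE0, hCE⟩ := inj_ext (𝕜 := 𝕜) (E := X) hX
    refine ⟨CE * (c * 1), by positivity, ?_⟩
    intro B _ _ A _ _ d₀ d p ex₀ ex ι hι G S _ V hV D₀ D hD h₀ h
    obtain ⟨ι0, h1, h2⟩ := hCE B (A 0) d₀ (p 0) ι c hc hι
    have hz : ∀ x y : A 0, p 0 (x - y) = 0 → ι0 x = ι0 y := by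
      intro x y hxy
      have h3 := h2 (x - y)
      rw [hxy, mul_zero, mul_zero, map_sub] at h3
      exact sub_eq_zero.1 (norm_le_zero_iff.1 h3)
    refine ⟨fun c' a => - ι0 (D 0 c' a), ?_, ?_⟩
    · intro c' f hc' hf hf1
      have h3 : ∑ a, f a • -ι0 (D 0 c' a) = - ι0 (∑ a, f a • D 0 c' a) := by
        rw [map_sum, ← Finset.sum_neg_distrib]
        refine Finset.sum_congr rfl fun a _ => ?_
        rw [map_smul, smul_neg]
      rw [h3, norm_neg]
      refine (h2 _).trans ?_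
      exact mul_le_mul_of_nonneg_left (mul_le_mul_of_nonneg_left
        (hD 0 c' f (by omega) hf hf1) hc) hCE0
    · intro c' a hV' hc'
      rw [dl_neg, dl_map_hom ι0, hz _ _ (h₀ c' a hV' hc'), hc']
      have h4 : ((-1 : ℤ) ^ (0 + 2 + 1)) = -1 := by norm_num
      rw [h4, map_zsmul, h1, neg_one_zsmul, neg_neg]
  | succ m IH =>
    intro X _ _ _ hX hEP c hc
    obtain ⟨E, Q, iE1, iE2, iE3, iQ1, iQ2, iQ3, j, q, hE, hj, hq, hex, hQ⟩ := hX
    have hses : SES j q := ⟨hj, hq, hex⟩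
    obtain ⟨CE, hCE0, hCE⟩ := inj_ext (𝕜 := 𝕜) (E := E) hE
    obtain ⟨CL, hCL0, hCL⟩ := ll_of_ep hEP hses
    have hEQ : EP 𝕜 Q := ep_quot hEP hses hE
    obtain ⟨cj, hcj0, hcj⟩ := leml_below j hj hses.isClosed
    set c' : ℝ := ‖q‖ * (CE * (‖j‖ * c)) with hc'
    have hc'0 : 0 ≤ c' := by positivity
    obtain ⟨C', hC'0, hIH⟩ := IH Q hQ hEQ c' hc'0
    refine ⟨cj * (CE * (‖j‖ * c * 1) + (m + 2) * (CL * C')), by positivity, ?_⟩
    intro B _ _ A _ _ d₀ d p ex₀ ex ι hι G S _ V hV D₀ D hD h₀ h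
    have hcj' : 0 ≤ ‖j‖ * c := by positivity
    obtain ⟨ι0, h1, h2⟩ := hCE B (A 0) d₀ (p 0) (j.toLinearMap ∘ₗ ι) (‖j‖ * c) hcj' (by
      intro b
      calc ‖j (ι b)‖ ≤ ‖j‖ * ‖ι b‖ := j.le_opNorm _
        _ ≤ ‖j‖ * (c * p 0 (d₀ b)) := mul_le_mul_of_nonneg_left (hι b) (norm_nonneg _)
        _ = ‖j‖ * c * p 0 (d₀ b) := by ring)
    have h1' : ∀ b, ι0 (d₀ b) = j (ι b) := h1
    have hz : ∀ x y : A 0, p 0 (x - y) = 0 → ι0 x = ι0 y := by
      intro x y hxy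
      have h3 := h2 (x - y)
      rw [hxy, mul_zero, mul_zero, map_sub] at h3
      exact sub_eq_zero.1 (norm_le_zero_iff.1 h3)
    have hι' : ∀ a : A 0, ‖(q.toLinearMap ∘ₗ ι0) a‖ ≤ c' * p 1 (d 0 a) := by
      intro a
      apply le_of_forall_pos_le_add
      intro ε hε
      obtain ⟨b, hb⟩ := ex₀ a (ε / (c' + 1)) (by positivity)
      have h3 : (q.toLinearMap ∘ₗ ι0) a = q (ι0 (a - d₀ b)) := by
        show q (ι0 a) = _
        rw [map_sub, map_sub, h1', hses.zero, sub_zero]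
      rw [h3]
      calc ‖q (ι0 (a - d₀ b))‖ ≤ ‖q‖ * ‖ι0 (a - d₀ b)‖ := q.le_opNorm _
        _ ≤ ‖q‖ * (CE * (‖j‖ * c * p 0 (a - d₀ b))) :=
            mul_le_mul_of_nonneg_left (h2 _) (norm_nonneg _)
        _ = c' * p 0 (a - d₀ b) := by rw [hc']; ring
        _ ≤ c' * (p 1 (d 0 a) + ε / (c' + 1)) := mul_le_mul_of_nonneg_left hb hc'0
        _ = c' * p 1 (d 0 a) + c' / (c' + 1) * ε := by ring
        _ ≤ c' * p 1 (d 0 a) + 1 * ε := by
            have h4 : c' / (c' + 1) ≤ 1 := by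
              rw [div_le_one (by positivity)]
              linarith
            have h5 := mul_le_mul_of_nonneg_right h4 hε.le
            linarith
        _ = c' * p 1 (d 0 a) + ε := by ring
    obtain ⟨L', hL'1, hL'2⟩ := hIH (A 0) (fun k => A (k + 1)) (d 0) (fun k => d (k + 1))
      (fun k => p (k + 1)) (fun a η hη => ex 0 a η hη) (fun k a η hη => ex (k + 1) a η hη)
      (q.toLinearMap ∘ₗ ι0) hι' G S V hV (D 0) (fun k => D (k + 1))
      (fun k c₁ f hc₁ hf hf1 => hD (k + 1) c₁ f (by omega) hf hf1)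
      (fun c₁ a hVa hc₁ => h 0 c₁ a hVa (by omega) (by omega))
      (fun k c₁ a hVa hc₁ hc₂ => h (k + 1) c₁ a hVa (by omega) hc₂)
    -- the lift
    have hlift : ∀ c₁ : List S, ∃ L'' : G → E, c₁.length = m + 1 →
        (∀ a, V c₁ a → q (L'' a) = L' c₁ a) ∧
        ∀ f : G → 𝕜, (∀ a, f a ≠ 0 → V c₁ a) → (∀ a, ‖f a‖ ≤ 1) →
          ‖∑ a, f a • L'' a‖ ≤ CL * C' := by
      intro c₁
      by_cases hc₁ : c₁.length = m + 1
      · obtain ⟨L'', h3, h4⟩ := leml_lift q CL C' hCL0 hC'0 hCL (V c₁) (L' c₁)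
          (fun f hf hf1 => hL'1 c₁ f hc₁ hf hf1)
        exact ⟨L'', fun _ => ⟨h3, h4⟩⟩
      · exact ⟨0, fun h3 => absurd h3 hc₁⟩
    choose L'' hL'' using hlift
    -- the defect
    set e : List S → G → E := fun c₁ a => ι0 (D 0 c₁ a) - dl (fun c₂ => L'' c₂ a) c₁ with he
    have hqe : ∀ (c₁ : List S) (a : G), V c₁ a → c₁.length = m + 2 → ∃ x, j x = e c₁ a := by
      intro c₁ a hVa hc₁
      rw [← hex]
      have h3 : dl (fun c₂ => q (L'' c₂ a)) c₁ = dl (fun c₂ => L' c₂ a) c₁ := by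
        apply dl_congr
        intro c₂ hc₂ hc₂l
        exact (hL'' c₂ (by omega)).1 a (hV c₁ c₂ a hc₂ hVa)
      rw [he]
      show q (ι0 (D 0 c₁ a) - dl (fun c₂ => L'' c₂ a) c₁) = 0
      rw [map_sub, ← dl_map_hom q, h3, hL'2 c₁ a hVa hc₁]
      exact sub_self _
    have hu : ∀ (c₁ : List S) (a : G), ∃ x : X, (V c₁ a → c₁.length = m + 2 → j x = e c₁ a) ∧
        (¬ V c₁ a → x = 0) := by
      intro c₁ a
      by_cases hVa : V c₁ a
      · by_cases hc₁ : c₁.length = m + 2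
        · obtain ⟨x, hx⟩ := hqe c₁ a hVa hc₁
          exact ⟨x, fun _ _ => hx, fun h3 => absurd hVa h3⟩
        · exact ⟨0, fun _ h3 => absurd h3 hc₁, fun h3 => absurd hVa h3⟩
      · exact ⟨0, fun h3 => absurd h3 hVa, fun _ => rfl⟩
    choose u hu1 hu2 using hu
    refine ⟨fun c₁ a => (-1 : ℤ) ^ (m + 2) • u c₁ a, ?_, ?_⟩
    · intro c₁ f hc₁ hf hf1
      have hc₁' : c₁.length = m + 2 := by omega
      have h3 : ‖∑ a, f a • ((-1 : ℤ) ^ (m + 2) • u c₁ a)‖ = ‖∑ a, f a • u c₁ a‖ := by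
        have h4 : ∑ a, f a • ((-1 : ℤ) ^ (m + 2) • u c₁ a) =
            (-1 : ℤ) ^ (m + 2) • ∑ a, f a • u c₁ a := by
          rw [Finset.smul_sum]
          refine Finset.sum_congr rfl fun a _ => ?_
          rw [smul_comm]
        rw [h4]
        rcases neg_one_pow_eq_or ℤ (m + 2) with h5 | h5
        · rw [h5, one_smul]
        · rw [h5, neg_one_zsmul, norm_neg]
      rw [h3]
      refine (hcj _).trans (mul_le_mul_of_nonneg_left ?_ hcj0)
      have h5 : j (∑ a, f a • u c₁ a) =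
          ι0 (∑ a, f a • D 0 c₁ a) - dl (fun c₂ => ∑ a, f a • L'' c₂ a) c₁ := by
        rw [map_sum, map_sum, dl_sum, ← Finset.sum_sub_distrib]
        refine Finset.sum_congr rfl fun a _ => ?_
        rw [map_smul, map_smul, dl_smul, ← smul_sub]
        by_cases hfa : f a = 0
        · rw [hfa, zero_smul, zero_smul]
        · rw [hu1 c₁ a (hf a hfa) hc₁']
      rw [h5]
      refine (norm_sub_le _ _).trans (add_le_add ?_ ?_)
      · refine (h2 _).trans ?_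
        exact mul_le_mul_of_nonneg_left (mul_le_mul_of_nonneg_left
          (hD 0 c₁ f (by omega) hf hf1) hcj') hCE0
      · have h6 := norm_dl_le c₁ (fun c₂ => ∑ a, f a • L'' c₂ a) (CL * C') (by
          intro c₂ hc₂ hc₂l
          exact (hL'' c₂ (by omega)).2 f (fun a ha => hV c₁ c₂ a hc₂ (hf a ha)) hf1)
        rw [hc₁'] at h6
        push_cast at h6
        exact h6
    · intro c₁ a hVa hc₁
      apply hj
      rw [← h1', ← dl_map_hom j]
      have h3 : dl (fun c₂ => j ((-1 : ℤ) ^ (m + 2) • u c₂ a)) c₁ =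
          dl (fun c₂ => (-1 : ℤ) ^ (m + 2) • (ι0 (D 0 c₂ a) - dl (fun c₃ => L'' c₃ a) c₂)) c₁ := by
        apply dl_congr
        intro c₂ hc₂ hc₂l
        rw [map_zsmul, hu1 c₂ a (hV c₁ c₂ a hc₂ hVa) (by omega)]
      rw [h3, dl_smul, dl_sub, dl_dl, sub_zero, dl_map_hom ι0, hz _ _ (h₀ c₁ a hVa hc₁),
        map_zsmul, smul_smul, hc₁, ← pow_add]
      have h4 : ((-1 : ℤ) ^ (m + 2 + (m + 1 + 2 + 1))) = 1 := by
        rw [show m + 2 + (m + 1 + 2 + 1) = 2 * (m + 3) by ring, pow_mul]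
        norm_num
      rw [h4, one_smul]

end Pool.H49.ID
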