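import Pool.Agent.H49.ID.Defs
import Pool.Agent.H74.ID.Ros

/-!
Module QN. The norm of `ℓ_∞ / c_0`, where `c_0 = V 𝕜 0 ℕ` (the bounded functions all of whose sets
`{ε ≤ ‖x i‖}` have fewer than `ℵ_0` elements, i.e. are finite: `lt_aleph0_iff_set_finite`, see
`sm_base` in Pool/Agent/H74/ID/Main.lean).

* `qn_tendsto`: elements of `V 𝕜 0 ℕ` tend to `0` along `cofinite`, and conversely.
* `qn_mk_le`: if `‖x i‖ ≤ δ` for almost all `i`, then `‖mkQ x‖ ≤ δ` (subtract the finitely supported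
  function `x · 1_F`, `F` the finite exceptional set, which is in `V 𝕜 0 ℕ`;
  `Submodule.Quotient.norm_mk_le`-like lemma: the norm of the class is at most the norm of each
  representative).
* `qn_le_mk`: if `x i → z` along the infinite set `R`, then `‖z‖ ≤ ‖mkQ x‖` (for every `v ∈ V`,
  `x + v → z` along `R`, so `‖z‖ ≤ ‖x + v‖`; the quotient norm is the infimum of these: for `ε > 0`
  there is a representative of norm `< ‖mkQ x‖ + ε`).
-/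

open Cardinal Filter Topology
open scoped ENNReal ZeroAtInfty

namespace Pool.H49.ID

open Pool.H74.ID

variable {𝕜 : Type} [RCLike 𝕜]

theorem qn_tendsto (x : LInf 𝕜 ℕ) :
    x ∈ V 𝕜 0 ℕ ↔ Tendsto (fun i => x i) cofinite (𝓝 (0 : 𝕜)) := by
  have h0 : ℵ_ ((0 : ℕ) : Ordinal.{0}) = ℵ₀ := by simp
  rw [mem_V, Metric.tendsto_nhds, h0]
  refine forall_congr' fun ε => forall_congr' fun hε => ?_
  rw [eventually_cofinite]
  have h1 : {i : ℕ | ¬ dist (x i) 0 < ε} = {i : ℕ | ε ≤ ‖x i‖} := by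
    ext i
    simp
  rw [h1]
  exact lt_aleph0_iff_set_finite

theorem qn_mk_le (x : LInf 𝕜 ℕ) (δ : ℝ) (hδ : 0 ≤ δ) (h : ∀ᶠ i in cofinite, ‖x i‖ ≤ δ) :
    ‖(V 𝕜 0 ℕ).mkQ x‖ ≤ δ := by
  classical
  rw [eventually_cofinite] at h
  let F : Set ℕ := {i | ¬ ‖x i‖ ≤ δ}
  have hF : F.Finite := h
  -- the representative cut off on `F`
  have hy : Memℓp (fun i => if i ∈ F then (0 : 𝕜) else x i) ∞ := memℓp_infty ⟨δ, by
    rintro _ ⟨i, rfl⟩
    by_cases hi : i ∈ F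
    · simp [hi, hδ]
    · simp only [hi, if_false]
      exact not_not.1 hi⟩
  let y : LInf 𝕜 ℕ := ⟨fun i => if i ∈ F then (0 : 𝕜) else x i, hy⟩
  have hyi : ∀ i, y i = if i ∈ F then (0 : 𝕜) else x i := fun i => rfl
  have hyn : ‖y‖ ≤ δ := by
    refine lp.norm_le_of_forall_le hδ fun i => ?_
    rw [hyi]
    split_ifs with hi
    · simpa using hδ
    · exact not_not.1 hi
  have hxy : (V 𝕜 0 ℕ).mkQ x = (V 𝕜 0 ℕ).mkQ y := by
    rw [← sub_eq_zero, ← map_sub]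
    refine (Submodule.Quotient.mk_eq_zero (V 𝕜 0 ℕ)).2 ?_
    rw [qn_tendsto]
    refine tendsto_const_nhds.congr' ?_
    rw [EventuallyEq, eventually_cofinite]
    refine hF.subset ?_
    intro i hi
    by_contra hiF
    apply hi
    rw [lp.coeFn_sub, Pi.sub_apply, hyi, if_neg hiF, sub_self]
  rw [hxy]
  exact (Submodule.Quotient.norm_mk_le (V 𝕜 0 ℕ) y).trans hyn

theorem qn_le_mk (x : LInf 𝕜 ℕ) (R : Set ℕ) (hR : R.Infinite) (z : 𝕜)
    (h : Tendsto (fun i => x i) (cofinite ⊓ 𝓟 R) (𝓝 z)) : ‖z‖ ≤ ‖(V 𝕜 0 ℕ).mkQ x‖ := by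
  have hne : (cofinite ⊓ 𝓟 R).NeBot := cofinite_inf_principal_neBot_iff.2 hR
  refine le_of_forall_pos_lt_add fun ε hε => ?_
  obtain ⟨y, hy1, hy2⟩ := Submodule.Quotient.norm_mk_lt ((V 𝕜 0 ℕ).mkQ x) hε
  have h1 : y - x ∈ V 𝕜 0 ℕ := by
    rw [← Submodule.Quotient.mk_eq_zero]
    show (V 𝕜 0 ℕ).mkQ (y - x) = 0
    rw [map_sub, sub_eq_zero]
    exact hy1
  rw [qn_tendsto] at h1
  have h2 := h.add (h1.mono_left (inf_le_left (b := 𝓟 R)))
  rw [add_zero] at h2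
  have h3 : Tendsto (fun i => y i) (cofinite ⊓ 𝓟 R) (𝓝 z) := by
    refine h2.congr fun i => ?_
    rw [lp.coeFn_sub, Pi.sub_apply]
    ring
  have h4 : ‖z‖ ≤ ‖y‖ := by
    refine le_of_tendsto h3.norm (Eventually.of_forall fun i => ?_)
    exact lp.norm_apply_le_norm (by simp) y i
  exact h4.trans_lt hy2

theorem qn_eq (x y : LInf 𝕜 ℕ) (h : (V 𝕜 0 ℕ).mkQ x = (V 𝕜 0 ℕ).mkQ y) (R : Set ℕ) (z : 𝕜)
    (hx : Tendsto (fun i => x i) (cofinite ⊓ 𝓟 R) (𝓝 z)) :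
    Tendsto (fun i => y i) (cofinite ⊓ 𝓟 R) (𝓝 z) := by
  have h1 : y - x ∈ V 𝕜 0 ℕ := by
    rw [← Submodule.Quotient.mk_eq_zero]
    show (V 𝕜 0 ℕ).mkQ (y - x) = 0
    rw [map_sub, h, sub_self]
  rw [qn_tendsto] at h1
  have h2 := hx.add (h1.mono_left (inf_le_left (b := 𝓟 R)))
  rw [add_zero] at h2
  refine h2.congr fun i => ?_
  rw [lp.coeFn_sub, Pi.sub_apply]
  ring

end Pool.H49.ID
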