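import Pool.Agent.H49.ID.PATH
import Pool.Agent.H49.ID.QN

/-!
Module LIM. Limits of the representatives along the rooms of the paths.

Proof. Choose representatives `R c a ∈ ℓ_∞` of `L c a` (as functions `ℕ → 𝕜`, bounded). Every guess
`gs R s` is bounded in each coordinate. For a list `l` of length `d`, increasing, with entries `< N`,
let `t` be its last entry (`d ≥ 1`), put `s = path ε t`; coding `l` as `l' : Fin d → Fin N`,
`Λ ε l a := xl s (gs R s) (l', a)` (for other lists anything). By `hr3` and `gs_path`,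
`R (l.map (path ε)) a` tends to it along `r (path ε (t+1))` (`path ε (t+1) = (gs R s, η) :: s`),
hence along the final room `r (path ε N)`, a subset by `hr2`, `path_suffix` (`t + 1 ≤ N`), which is
infinite.
(i) `∑ a, f a • R c a`, `c = l.map (path ε)`, represents `∑ f a • L c a` and converges along the final
room to `∑ f a * Λ ε l a`: `qn_le_mk`, `hL1`, `va_path`. (`Va x c a` holds iff `x a 0 ≤ i` for `i ∈ l`.)
(ii) for `l` of length `d + 1`, `l = l₁ ++ [t]`: `∑ ± R (face)` represents `dl (L · a) c`,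
`c = l.map (path ε)`, `c = c' ++ [w]`, `w = path ε t`, and converges along the final room to
`dl (Λ ε · a) l` (faces of `l` are increasing of length `d` with entries `< N`; `dl_comp_map`). By
`hL2` and `qn_eq` it equals the limit of `Eco c • 1_{r (ini w (x a d))}`. `Eco c = ea w = sg (ε a)` if
`Chi d (x a) l` (`eco_eq`, `path_length`, `ea_path`; then `x a d ≤ t`, and `1 ≤ x a d` because
`x a 0 < x a 1 ≤ x a d` by `Box`, `d ≥ 1`), `0` otherwise; and if `x a d ≤ t` then
`ini w (x a d) = path ε (x a d) <:+ path ε N`, so the indicator is `1` on the final room.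
(iii) if `ε`, `ε'` agree at all `b` with `x b d ≤ t`, then `path ε i = path ε' i` for `i ≤ t`
(`path_congr`), so the definition of `Λ` gives the same value.
-/

open Cardinal Filter Topology
open scoped ENNReal ZeroAtInfty

namespace Pool.H49.ID

open Pool.H74.ID

variable {𝕜 : Type} [RCLike 𝕜] {d N : ℕ} {G : Type}

/-- faces converge, so the alternating sums converge -/
theorem lim_tendsto_dl {f : Filter ℕ} : ∀ (l : List ℕ) (F : List ℕ → ℕ → 𝕜) (z : List ℕ → 𝕜),
    (∀ l', l'.Sublist l → l'.length + 1 = l.length → Tendsto (F l') f (𝓝 (z l'))) →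
    Tendsto (fun k => dl (fun l' => F l' k) l) f (𝓝 (dl z l))
  | [], F, z, _ => by
    simp only [dl_nil]
    exact tendsto_const_nhds
  | i :: l, F, z, h => by
    simp only [dl_cons]
    refine (h l (List.sublist_cons_self i l) rfl).sub ?_
    exact lim_tendsto_dl l (fun l' => F (i :: l')) (fun l' => z (i :: l')) fun l' h1 h2 =>
      h (i :: l') (h1.cons_cons i) (by simp [h2])

/-- the largest entry -/
def limTop (l : List ℕ) : ℕ := l.toFinset.sup id

theorem limTop_le {l : List ℕ} {i : ℕ} (hi : i ∈ l) : i ≤ limTop l :=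
  Finset.le_sup (f := id) (List.mem_toFinset.2 hi)

theorem limTop_mem {l : List ℕ} (hl : l ≠ []) : limTop l ∈ l := by
  have h1 : l.toFinset.Nonempty := by
    rw [List.toFinset_nonempty_iff]; exact hl
  obtain ⟨i, hi, h2⟩ := Finset.exists_mem_eq_sup l.toFinset h1 id
  unfold limTop
  rw [h2]
  exact List.mem_toFinset.1 hi

/-- coding of lists -/
def limCode (l : List ℕ) (h : l.length = d ∧ ∀ i ∈ l, i < N) : Fin d → Fin N :=
  fun q => ⟨l[(q : ℕ)]'(by have := q.2; have := h.1; omega), h.2 _ (List.getElem_mem _)⟩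

theorem limCode_map (l : List ℕ) (h : l.length = d ∧ ∀ i ∈ l, i < N) {α : Type*} (g : ℕ → α) :
    (List.ofFn (limCode l h)).map (fun i : Fin N => g (i : ℕ)) = l.map g := by
  have h0 : (List.ofFn (limCode l h)).map (fun i : Fin N => (i : ℕ)) = l := by
    apply List.ext_getElem
    · simp [h.1]
    · intro n h1 h2
      simp [limCode]
  conv_rhs => rw [← h0]
  rw [List.map_map]
  rfl

open scoped Classical in
/-- the limits -/
noncomputable def limL (x : G → ℕ → ℕ)
    (xl : List (Lt 𝕜 d N G) → (Ix d N G → ℕ → 𝕜) → Ix d N G → 𝕜)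
    (R : List (List (Lt 𝕜 d N G)) → G → ℕ → 𝕜) (ε : G → Bool) (l : List ℕ) (a : G) : 𝕜 :=
  if h : l.length = d ∧ ∀ i ∈ l, i < N then
    xl (path x R ε (limTop l)) (gs R (path x R ε (limTop l))) (limCode l h, a) else 0

theorem lim_main (hd : 1 ≤ d) (x : G → ℕ → ℕ)
    (r : List (Lt 𝕜 d N G) → Set ℕ)
    (xl : List (Lt 𝕜 d N G) → (Ix d N G → ℕ → 𝕜) → Ix d N G → 𝕜)
    (hr2 : ∀ u v, u <:+ v → r v ⊆ r u)
    (hr3 : ∀ u w, (∀ i, ∃ C : ℝ, ∀ k, ‖w i k‖ ≤ C) → ∀ h i,
      Tendsto (w i) (cofinite ⊓ 𝓟 (r ((w, h) :: u))) (𝓝 (xl u w i)))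
    (R : List (List (Lt 𝕜 d N G)) → G → ℕ → 𝕜)
    (hR : ∀ c a, ∃ C : ℝ, ∀ k, ‖R c a k‖ ≤ C) (ε : G → Bool) (l : List ℕ) (a : G)
    (hl : l.length = d) (hN : ∀ i ∈ l, i < N) :
    Tendsto (R (l.map (path x R ε)) a) (cofinite ⊓ 𝓟 (r (path x R ε N)))
      (𝓝 (limL x xl R ε l a)) := by
  classical
  have hne : l ≠ [] := by
    intro h
    rw [h] at hl
    simp at hl
    omega
  have ht : limTop l < N := hN _ (limTop_mem hne)
  have h0 : l.length = d ∧ ∀ i ∈ l, i < N := ⟨hl, hN⟩
  have h1 := hr3 (path x R ε (limTop l)) (gs R (path x R ε (limTop l)))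
    (fun i => hR _ _) (fun a => if x a d = limTop l + 1 then ε a else true) (limCode l h0, a)
  rw [gs_path x R ε (limTop l) (limCode l h0) a (fun q => limTop_le (List.getElem_mem _)),
    limCode_map l h0 (path x R ε)] at h1
  have h2 : limL x xl R ε l a =
      xl (path x R ε (limTop l)) (gs R (path x R ε (limTop l))) (limCode l h0, a) := by
    unfold limL
    rw [dif_pos h0]
  rw [h2]
  refine h1.mono_left (inf_le_inf_left _ (principal_mono.2 ?_))
  have h3 : path x R ε (limTop l + 1) =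
      (gs R (path x R ε (limTop l)), fun a => if x a d = limTop l + 1 then ε a else true) ::
        path x R ε (limTop l) := by
    rw [path]
  rw [← h3]
  exact hr2 _ _ (path_suffix x R ε _ _ ht)

open scoped Classical in
theorem exists_limits [Fintype G] (hd : 1 ≤ d) (x : G → ℕ → ℕ) (hx : ∀ a, Monotone (x a))
    (r : List (Lt 𝕜 d N G) → Set ℕ)
    (xl : List (Lt 𝕜 d N G) → (Ix d N G → ℕ → 𝕜) → Ix d N G → 𝕜)
    (hr1 : ∀ u, (r u).Infinite) (hr2 : ∀ u v, u <:+ v → r v ⊆ r u)
    (hr3 : ∀ u w, (∀ i, ∃ C : ℝ, ∀ k, ‖w i k‖ ≤ C) → ∀ h i,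
      Tendsto (w i) (cofinite ⊓ 𝓟 (r ((w, h) :: u))) (𝓝 (xl u w i)))
    (C : ℝ) (L : List (List (Lt 𝕜 d N G)) → G → LInf 𝕜 ℕ ⧸ V 𝕜 0 ℕ)
    (hL1 : ∀ (c : List (List (Lt 𝕜 d N G))) (f : G → 𝕜), c.length = d →
      (∀ a, f a ≠ 0 → Va x c a) → (∀ a, ‖f a‖ ≤ 1) → ‖∑ a, f a • L c a‖ ≤ C)
    (hL2 : ∀ (c : List (List (Lt 𝕜 d N G))) (w : List (Lt 𝕜 d N G)) (a : G), Va x (c ++ [w]) a →
      c.length = d → dl (fun c' => L c' a) (c ++ [w]) =
        Eco (ea 𝕜 x a) d (x a) (c ++ [w]) • (V 𝕜 0 ℕ).mkQ (ind 𝕜 (r (ini w (x a d))))) :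
    ∃ Λ : (G → Bool) → List ℕ → G → 𝕜,
      (∀ (ε : G → Bool) (l : List ℕ) (f : G → 𝕜), l.length = d → l.Pairwise (· < ·) →
        (∀ i ∈ l, i < N) → (∀ a, f a ≠ 0 → ∀ i ∈ l, x a 0 ≤ i) → (∀ a, ‖f a‖ ≤ 1) →
        ‖∑ a, f a * Λ ε l a‖ ≤ C) ∧
      (∀ (ε : G → Bool) (l : List ℕ) (a : G), l.length = d + 1 → l.Pairwise (· < ·) →
        (∀ i ∈ l, i < N ∧ x a 0 ≤ i) →
        dl (fun l' => Λ ε l' a) l = if Chi d (x a) l then sg 𝕜 (ε a) else 0) ∧
      (∀ (ε ε' : G → Bool) (l : List ℕ) (a : G), l.length = d → l.Pairwise (· < ·) →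
        (∀ i ∈ l, i < N) → (∀ b, (∃ i ∈ l, x b d ≤ i) → ε b = ε' b) → Λ ε l a = Λ ε' l a) := by
  choose R0 hR0 using fun (c : List (List (Lt 𝕜 d N G))) (a : G) =>
    (V 𝕜 0 ℕ).mkQ_surjective (L c a)
  set R : List (List (Lt 𝕜 d N G)) → G → ℕ → 𝕜 := fun c a k => R0 c a k with hRdef
  have hR : ∀ c a, ∃ C : ℝ, ∀ k, ‖R c a k‖ ≤ C := fun c a =>
    ⟨‖R0 c a‖, fun k => lp.norm_apply_le_norm ENNReal.top_ne_zero (R0 c a) k⟩
  have key := fun ε l a => lim_main hd x r xl hr2 hr3 R hR ε l a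
  refine ⟨limL x xl R, ?_, ?_, ?_⟩
  · intro ε l f hl hp hN hf hf1
    set y : LInf 𝕜 ℕ := ∑ a, f a • R0 (l.map (path x R ε)) a with hy
    have h1 : (V 𝕜 0 ℕ).mkQ y = ∑ a, f a • L (l.map (path x R ε)) a := by
      rw [hy, map_sum]
      apply Finset.sum_congr rfl
      intro a _
      rw [map_smul, hR0]
    have h2 : ∀ k, y k = ∑ a, f a * R (l.map (path x R ε)) a k := by
      intro k
      rw [hy, lp.coeFn_sum, Finset.sum_apply]
      rfl
    have h3 : Tendsto (fun k => y k) (cofinite ⊓ 𝓟 (r (path x R ε N)))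
        (𝓝 (∑ a, f a * limL x xl R ε l a)) := by
      simp only [h2]
      exact tendsto_finsetSum _ fun a _ => (key ε l a hl hN).const_mul (f a)
    have h4 := qn_le_mk y (r (path x R ε N)) (hr1 _) _ h3
    rw [h1] at h4
    refine h4.trans (hL1 _ f (by rw [List.length_map, hl]) (fun a ha => ?_) hf1)
    exact va_path x R ε l a hp (hf a ha)
  · intro ε l a hl hp hN
    obtain ⟨l₁, t, rfl⟩ : ∃ l₁ t, l = l₁ ++ [t] := by
      rcases List.eq_nil_or_concat l with h | ⟨l₁, t, h⟩
      · rw [h] at hl; simp at hl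
      · exact ⟨l₁, t, by rw [h, List.concat_eq_append]⟩
    have hl₁ : l₁.length = d := by simpa using hl
    have htN : t < N := (hN t (by simp)).1
    set l := l₁ ++ [t] with hldef
    set c := l.map (path x R ε) with hc
    have hc' : c = l₁.map (path x R ε) ++ [path x R ε t] := by
      rw [hc, hldef, List.map_append]; rfl
    set y : LInf 𝕜 ℕ := dl (fun c' => R0 c' a) c with hy
    have h1 : (V 𝕜 0 ℕ).mkQ y = dl (fun c' => L c' a) c := by
      rw [hy, ← dl_map_hom (V 𝕜 0 ℕ).mkQ]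
      simp only [hR0]
    have h2 : ∀ k, y k = dl (fun l' => R (l'.map (path x R ε)) a k) l := by
      intro k
      rw [dl_comp_map (path x R ε) l (fun c' => R c' a k), ← hc, hy]
      let E : LInf 𝕜 ℕ →+ 𝕜 :=
        { toFun := fun z => z k
          map_zero' := rfl
          map_add' := fun _ _ => rfl }
      exact (dl_map_hom E c (fun c' => R0 c' a)).symm
    have h3 : Tendsto (fun k => y k) (cofinite ⊓ 𝓟 (r (path x R ε N)))
        (𝓝 (dl (fun l' => limL x xl R ε l' a) l)) := by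
      simp only [h2]
      refine lim_tendsto_dl l (fun l' => R (l'.map (path x R ε)) a) _ fun l' h1 h2 => ?_
      refine key ε l' a ?_ fun i hi => (hN i (h1.subset hi)).1
      rw [hl] at h2
      omega
    have hva : Va x c a := va_path x R ε l a hp fun i hi => (hN i hi).2
    have h4 : (V 𝕜 0 ℕ).mkQ y = (V 𝕜 0 ℕ).mkQ (Eco (ea 𝕜 x a) d (x a) c •
        ind 𝕜 (r (ini (path x R ε t) (x a d)))) := by
      rw [h1, map_smul]
      have h5 := hL2 (l₁.map (path x R ε)) (path x R ε t) a (by rw [← hc']; exact hva)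
        (by rw [List.length_map, hl₁])
      rw [← hc'] at h5
      exact h5
    have h6 := qn_eq _ _ h4 _ _ h3
    have hlen : c.map List.length = l := by
      rw [hc, List.map_map]
      have : (List.length ∘ path x R ε) = id := by
        funext i
        exact path_length x R ε i
      rw [this, List.map_id]
    have heco : Eco (ea 𝕜 x a) d (x a) c =
        if Chi d (x a) l then ea 𝕜 x a (path x R ε t) else 0 := by
      rw [hc', eco_eq, ← hc', hlen]
    have : (cofinite ⊓ 𝓟 (r (path x R ε N))).NeBot := (hr1 _).cofinite_inf_principal_neBot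
    refine tendsto_nhds_unique h6 ?_
    by_cases hchi : Chi d (x a) l
    · rw [if_pos hchi]
      rw [if_pos hchi] at heco
      have hb := (chi_append d (x a) l₁ t hl₁).1 hchi
      have hxd : 1 ≤ x a d := by
        cases l₁ with
        | nil => simp at hl₁; omega
        | cons i l₂ =>
          have h7 : i < x a 1 := hb.1.1.2
          have h8 := hx a hd
          omega
      have hea : ea 𝕜 x a (path x R ε t) = sg 𝕜 (ε a) := ea_path x R ε t a hxd hb.2
      rw [hea] at heco
      have hini : ini (path x R ε t) (x a d) = path x R ε (x a d) :=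
        ini_path x R ε _ _ hb.2
      have hsub : r (path x R ε N) ⊆ r (path x R ε (x a d)) :=
        hr2 _ _ (path_suffix x R ε _ _ (by have := hb.2; omega))
      refine Tendsto.congr' ?_ tendsto_const_nhds
      have h9 : ∀ᶠ k in cofinite ⊓ 𝓟 (r (path x R ε N)), k ∈ r (path x R ε N) :=
        eventually_inf_principal.2 (Eventually.of_forall fun k hk => hk)
      filter_upwards [h9] with k hk
      rw [heco, hini, lp.coeFn_smul, Pi.smul_apply, ind_apply,
        Set.indicator_of_mem (hsub hk), smul_eq_mul, mul_one]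
    · rw [if_neg hchi]
      rw [if_neg hchi] at heco
      rw [heco, zero_smul]
      exact tendsto_const_nhds
  · intro ε ε' l a hl hp hN hε
    have hne : l ≠ [] := by
      intro h
      rw [h] at hl
      simp at hl
      omega
    have h1 : path x R ε (limTop l) = path x R ε' (limTop l) :=
      path_congr x R ε ε' _ fun b hb => hε b ⟨_, limTop_mem hne, hb⟩
    unfold limL
    rw [h1]

end Pool.H49.ID
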