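import Pool.Agent.H49.ID.NINJ
import Pool.Agent.H49.ID.CZ
import Pool.Agent.H74.ID.Main

/-! Module MAIN. `c_0` has infinite injective dimension. -/

open Cardinal Filter Topology
open scoped ENNReal ZeroAtInfty

namespace Pool.H49.ID

open Pool.H74.ID

variable {𝕜 : Type} [RCLike 𝕜]

theorem not_injDimLE_c0 (n : ℕ) : ¬ InjDimLE 𝕜 n C₀(ℕ, 𝕜) := by
  obtain ⟨j, hj⟩ := ses_c0 (𝕜 := 𝕜)
  have hEP : EP 𝕜 (LInf 𝕜 ℕ ⧸ V 𝕜 0 ℕ) := ep_quot ep_c0 hj (inj_LInf ℕ)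
  intro h
  exact not_injDimLE_quot n hEP
    (injDimLE_quot enoughInj n (injDimLE_succ n _ h) hj (inj_LInf ℕ))

end Pool.H49.ID
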