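import Pool.Agent.H49.ID.ROOM

/-!
Module TROOM. The tree of rooms.

Proof. Choose (for every infinite set `s`) `r_s`, `x_s` from `exists_rooms`. Define `r` by recursion
on the word: `r [] = univ`, `r ((w, h) :: u) = r_{r u} w h` (work with the subtype of infinite sets,
or a function defined on all sets by `if s.Infinite then .. else ..`). `x u = x_{r u}`.
Nested: `r (a :: u) ⊆ r u`, induction on `<:+`. Almost disjoint for incomparable `u, v`: induction on
`u`, `v`: take the longest common initial segment `t`, `a :: t <:+ u`, `b :: t <:+ v`, `a ≠ b`, so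
`r u ∩ r v ⊆ r (a :: t) ∩ r (b :: t)` is finite. (Alternatively: if `u`, `v` are incomparable,
induct on `u.length + v.length`; for `u = a :: u'` either `u'` and `v` are incomparable (done by
`r u ⊆ r u'`) or `u' <:+ v`, `u' ≠ v`, `b :: u' <:+ v`, `b ≠ a`.)
-/

open Cardinal Filter Topology
open scoped ENNReal ZeroAtInfty

namespace Pool.H49.ID

open Pool.H74.ID

theorem exists_tree_rooms (𝕜 : Type) [RCLike 𝕜] (I H : Type) [Finite I] [Finite H] :
    ∃ (r : List ((I → ℕ → 𝕜) × H) → Set ℕ)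
      (x : List ((I → ℕ → 𝕜) × H) → (I → ℕ → 𝕜) → I → 𝕜),
      r [] = Set.univ ∧ (∀ u, (r u).Infinite) ∧ (∀ u v, u <:+ v → r v ⊆ r u) ∧
      (∀ u v, ¬ u <:+ v → ¬ v <:+ u → (r u ∩ r v).Finite) ∧
      ∀ u w, (∀ i, ∃ C : ℝ, ∀ k, ‖w i k‖ ≤ C) → ∀ h i,
        Tendsto (w i) (cofinite ⊓ 𝓟 (r ((w, h) :: u))) (𝓝 (x u w i)) := by
  have hall := fun s : {s : Set ℕ // s.Infinite} => exists_rooms 𝕜 I H s.1 s.2
  choose R X hR1 hR2 hR3 using hall
  let rr : List ((I → ℕ → 𝕜) × H) → {s : Set ℕ // s.Infinite} := fun u =>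
    u.foldr (fun a s => ⟨R s a.1 a.2, (hR1 s a.1 a.2).1⟩) ⟨Set.univ, Set.infinite_univ⟩
  have hrr : ∀ a u, (rr (a :: u)).1 = R (rr u) a.1 a.2 := fun a u => rfl
  have hstep : ∀ a u, (rr (a :: u)).1 ⊆ (rr u).1 := by
    intro a u
    rw [hrr]
    exact (hR1 (rr u) a.1 a.2).2
  have hnest : ∀ u v, u <:+ v → (rr v).1 ⊆ (rr u).1 := by
    rintro u v ⟨t, rfl⟩
    induction t with
    | nil => exact subset_rfl
    | cons a t ih => exact (hstep a (t ++ u)).trans ih
  refine ⟨fun u => (rr u).1, fun u => X (rr u), rfl, fun u => (rr u).2, hnest, ?_, ?_⟩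
  · intro u
    induction u with
    | nil => intro v h1 _; exact absurd List.nil_suffix h1
    | cons a u ih =>
      intro v h1 h2
      by_cases h3 : u <:+ v
      · obtain ⟨t, ht⟩ := h3
        have htne : t ≠ [] := by
          rintro rfl
          apply h2
          rw [← ht]
          exact ⟨[a], rfl⟩
        obtain ⟨t', b, rfl⟩ : ∃ t' b, t = t' ++ [b] :=
          ⟨t.dropLast, t.getLast htne, (List.dropLast_append_getLast htne).symm⟩
        have hb : (b :: u) <:+ v := ⟨t', by rw [← ht]; simp⟩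
        have hab : a ≠ b := by
          rintro rfl
          exact h1 hb
        refine (hR2 (rr u) a.1 a.2 b.1 b.2 (fun h => hab h)).subset ?_
        exact Set.inter_subset_inter subset_rfl (hnest _ _ hb)
      · have h4 : ¬ v <:+ u := fun h => h2 (h.trans ⟨[a], rfl⟩)
        exact (ih v h3 h4).subset (Set.inter_subset_inter (hstep a u) subset_rfl)
  · intro u w hw h i
    exact hR3 (rr u) w hw h i

end Pool.H49.ID
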