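import Pool.Agent.H49.ID.BAD
import Pool.Agent.H49.ID.LEML
import Pool.Agent.H49.ID.EPC0
import Pool.Agent.H49.ID.EXJ
import Pool.Agent.H49.ID.EXZ
import Pool.Agent.H49.ID.DCS
import Pool.Agent.H49.ID.DZS
import Pool.Agent.H49.ID.TROOM
import Pool.Agent.H49.ID.IOTA
import Pool.Agent.H49.ID.LIM
import Pool.Agent.H49.ID.AVG

/-! Module NINJ. Assembly: `ℓ_∞ / c_0` has infinite injective dimension. -/

open Cardinal Filter Topology
open scoped ENNReal ZeroAtInfty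

namespace Pool.H49.ID

open Pool.H74.ID

variable {𝕜 : Type} [RCLike 𝕜]

theorem not_injDimLE_quot (n : ℕ) (hEP : EP 𝕜 (LInf 𝕜 ℕ ⧸ V 𝕜 0 ℕ)) :
    ¬ InjDimLE 𝕜 n (LInf 𝕜 ℕ ⧸ V 𝕜 0 ℕ) := by
  classical
  intro hn
  obtain ⟨C, hC0, hC⟩ := main_lemma n (LInf 𝕜 ℕ ⧸ V 𝕜 0 ℕ) hn hEP 1 zero_le_one
  obtain ⟨G, _, x, hx, hone, hbad⟩ := bad_all (n + 1) (by omega) (C + 1) 0 one_pos
  -- the height of the tree
  obtain ⟨N, hN⟩ : ∃ N, ∀ a, x a (n + 1) < N := by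
    refine ⟨(∑ a, x a (n + 1)) + 1, fun a => ?_⟩
    have := Finset.single_le_sum (f := fun a => x a (n + 1)) (fun _ _ => Nat.zero_le _)
      (Finset.mem_univ a)
    omega
  obtain ⟨r, xl, hr0, hr1, hr2, hr3, hr4⟩ :=
    exists_tree_rooms 𝕜 (Ix (n + 1) N G) (G → Bool)
  obtain ⟨ι, hι1, hι2⟩ := exists_iota (𝕜 := 𝕜) N r hr0 hr2 hr3
  let T := List (Lt 𝕜 (n + 1) N G)
  obtain ⟨L, hL1, hL2⟩ := hC (T →₀ 𝕜) (fun _ => BL 𝕜 T)
    (d0 𝕜 (Lt 𝕜 (n + 1) N G)) (fun _ => dB 𝕜 T) (fun k => pn 𝕜 (Lt 𝕜 (n + 1) N G) N k)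
    (fun a η hη => tower_exact_zero N a η hη) (fun k a η hη => tower_exact N k a η hη)
    ι (fun b => by rw [one_mul]; exact hι2 b)
    G T (Va x) (fun c c' a h1 h2 => va_sublist x c c' a h1 h2)
    (fun c a => Dz (ea 𝕜 x a) (n + 1) (x a) c)
    (fun _ c a => Dc (ea 𝕜 x a) (norm_ea x a) (n + 1) (x a) c)
    (by
      intro k c f hk hf hf1
      refine pn_le zero_le_one (Eventually.of_forall fun l => ?_)
      have h : ((∑ a, f a • Dc (ea 𝕜 x a) (norm_ea x a) (n + 1) (x a) c : BL 𝕜 T) : List T → 𝕜) l =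
          ∑ a, f a * (Dc (ea 𝕜 x a) (norm_ea x a) (n + 1) (x a) c : List T → 𝕜) l := by
        rw [Submodule.coe_sum, Finset.sum_apply]
        rfl
      rw [h]
      match l with
      | [] =>
        have : ∀ a, (Dc (ea 𝕜 x a) (norm_ea x a) (n + 1) (x a) c : List T → 𝕜) [] = 0 :=
          fun a => rfl
        simp [this]
      | v :: l' =>
        exact eco_sum_le (n + 1) x (fun a => ea 𝕜 x a) (fun a w => norm_ea x a w) hone _ f hf1)
    (by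
      intro c a hc hlen
      exact dz_step N (n + 1) (x a) (hx a) _ (norm_ea x a) (fun w w' h h' => ea_eq x a w w' h h')
        c hc.1 hc.2 (by omega))
    (by
      intro k c a hc hk hlen
      exact dc_step N k (n + 1) (x a) (hx a) _ (norm_ea x a) (fun w w' h h' => ea_eq x a w w' h h')
        c hc.1 hc.2 hlen)
  obtain ⟨Λ, hΛ1, hΛ2, hΛ3⟩ := exists_limits (d := n + 1) (N := N) (by omega) x hx r xl hr1 hr2 hr4
    C L hL1 (by
      intro c w a hV hlen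
      rw [hL2 (c ++ [w]) a hV (by simp [hlen])]
      have h : Dz (ea 𝕜 x a) (n + 1) (x a) (c ++ [w]) =
          Finsupp.single (ini w (x a (n + 1))) (Eco (ea 𝕜 x a) (n + 1) (x a) (c ++ [w])) := by
        unfold Dz
        rw [List.getLast?_concat]
      rw [h]
      exact hι1 _ _ ((length_ini_le _ _).trans (hN a).le))
  obtain ⟨lam, hlam1, hlam2⟩ := avg_signs 𝕜 (n + 1) N (by omega) x hx hN C hC0 Λ hΛ1 hΛ2 hΛ3
  obtain ⟨m, hm1, hm2, hm3⟩ := hbad lam (by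
    intro a l hl1 hl2 hl3
    rw [hlam1 a l hl1 hl2 hl3]
    simp)
  have := hlam2 m hm1 hm2
  linarith

end Pool.H49.ID
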