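import Pool.Agent.H49.ID.Coc

/-!
Module PATH. Letters, signs, and the path attached to a sign vector.

A letter is a pair (guess, sign vector); `gs R s` is the guess that contains the representatives `R c a` for
all the lists `c` of `d` initial segments of `s` (with levels `< N`). The path of `ε`:
`path 0 = []`, `path (t+1) = (gs R (path t), η) :: path t`, where `η a = ε a` if `x a d = t + 1`, and
`η a = true` otherwise.
-/

open Cardinal Filter Topology
open scoped ENNReal ZeroAtInfty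

namespace Pool.H49.ID

open Pool.H74.ID

/-- Index set of guesses. -/
abbrev Ix (d N : ℕ) (G : Type) : Type := (Fin d → Fin N) × G

/-- Letters. -/
abbrev Lt (𝕜 : Type) (d N : ℕ) (G : Type) : Type := (Ix d N G → ℕ → 𝕜) × (G → Bool)

/-- The sign of a boolean. -/
def sg (𝕜 : Type) [RCLike 𝕜] (b : Bool) : 𝕜 := if b then 1 else -1

/-- The sign number `a` of the letter number `x a d` of a word. -/
def ea (𝕜 : Type) [RCLike 𝕜] {d N : ℕ} {G : Type} (x : G → ℕ → ℕ) (a : G)
    (w : List (Lt 𝕜 d N G)) : 𝕜 :=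
  match ini w (x a d) with
  | [] => 1
  | p :: _ => sg 𝕜 (p.2 a)

variable {𝕜 : Type} [RCLike 𝕜] {d N : ℕ} {G : Type}

/-- The guess at the node `s`. -/
noncomputable def gs (R : List (List (Lt 𝕜 d N G)) → G → ℕ → 𝕜) (s : List (Lt 𝕜 d N G)) :
    Ix d N G → ℕ → 𝕜 :=
  fun p => R ((List.ofFn p.1).map fun i : Fin N => ini s (i : ℕ)) p.2

/-- The path attached to a sign vector. -/
noncomputable def path (x : G → ℕ → ℕ) (R : List (List (Lt 𝕜 d N G)) → G → ℕ → 𝕜)
    (ε : G → Bool) : ℕ → List (Lt 𝕜 d N G)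
  | 0 => []
  | t + 1 => (gs R (path x R ε t), fun a => if x a d = t + 1 then ε a else true) :: path x R ε t

set_option linter.unusedSectionVars false

theorem norm_sg (b : Bool) : ‖sg 𝕜 b‖ = 1 := by
  cases b <;> simp [sg]

theorem norm_ea (x : G → ℕ → ℕ) (a : G) (w : List (Lt 𝕜 d N G)) : ‖ea 𝕜 x a w‖ ≤ 1 := by
  unfold ea
  split
  · simp
  · rw [norm_sg]

theorem ea_eq (x : G → ℕ → ℕ) (a : G) (w w' : List (Lt 𝕜 d N G)) (h : w <:+ w')
    (h' : x a d ≤ w.length) : ea 𝕜 x a w = ea 𝕜 x a w' := by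
  unfold ea
  rw [ini_eq_of_suffix h h']

theorem path_length (x : G → ℕ → ℕ) (R : List (List (Lt 𝕜 d N G)) → G → ℕ → 𝕜)
    (ε : G → Bool) (t : ℕ) : (path x R ε t).length = t := by
  induction t with
  | zero => rfl
  | succ t ih => simp [path, ih]

theorem path_suffix (x : G → ℕ → ℕ) (R : List (List (Lt 𝕜 d N G)) → G → ℕ → 𝕜)
    (ε : G → Bool) (t t' : ℕ) (h : t ≤ t') : path x R ε t <:+ path x R ε t' := by
  induction t', h using Nat.le_induction with
  | base => exact List.suffix_refl _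
  | succ t' _ ih => exact ih.trans (List.suffix_cons _ _)

theorem ini_path (x : G → ℕ → ℕ) (R : List (List (Lt 𝕜 d N G)) → G → ℕ → 𝕜)
    (ε : G → Bool) (t t' : ℕ) (h : t ≤ t') : ini (path x R ε t') t = path x R ε t :=
  eq_of_suffix (ini_suffix _ _) (path_suffix x R ε t t' h)
    (by rw [length_ini _ _ (by rw [path_length]; exact h), path_length])

theorem path_congr (x : G → ℕ → ℕ) (R : List (List (Lt 𝕜 d N G)) → G → ℕ → 𝕜)
    (ε ε' : G → Bool) (t : ℕ) (h : ∀ a, x a d ≤ t → ε a = ε' a) :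
    path x R ε t = path x R ε' t := by
  induction t with
  | zero => rfl
  | succ t ih =>
    have ih' := ih (fun a ha => h a (by omega))
    simp only [path]
    rw [ih']
    congr 2
    funext a
    by_cases ha : x a d = t + 1
    · rw [if_pos ha, if_pos ha, h a ha.le]
    · rw [if_neg ha, if_neg ha]

/-- The sign number `a` of the path is `ε a`. -/
theorem ea_path (x : G → ℕ → ℕ) (R : List (List (Lt 𝕜 d N G)) → G → ℕ → 𝕜)
    (ε : G → Bool) (t : ℕ) (a : G) (h0 : 1 ≤ x a d) (h : x a d ≤ t) :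
    ea 𝕜 x a (path x R ε t) = sg 𝕜 (ε a) := by
  obtain ⟨k, hk⟩ : ∃ k, x a d = k + 1 := ⟨x a d - 1, by omega⟩
  have h1 := ini_path x R ε (x a d) t h
  unfold ea
  rw [h1, hk]
  simp [path, hk]

/-- The guess at level `t` on the path contains the representatives of the chains below `t`. -/
theorem gs_path (x : G → ℕ → ℕ) (R : List (List (Lt 𝕜 d N G)) → G → ℕ → 𝕜)
    (ε : G → Bool) (t : ℕ) (l : Fin d → Fin N) (a : G) (h : ∀ q, (l q : ℕ) ≤ t) :
    gs R (path x R ε t) (l, a) = R ((List.ofFn l).map fun i : Fin N => path x R ε (i : ℕ)) a := by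
  unfold gs
  congr 1
  apply List.map_congr_left
  intro i hi
  rw [List.mem_ofFn] at hi
  obtain ⟨q, rfl⟩ := hi
  exact ini_path x R ε _ _ (h q)

/-- Chains on the path are admissible. -/
theorem va_path (x : G → ℕ → ℕ) (R : List (List (Lt 𝕜 d N G)) → G → ℕ → 𝕜)
    (ε : G → Bool) (l : List ℕ) (a : G) (hl : l.Pairwise (· < ·)) (h : ∀ i ∈ l, x a 0 ≤ i) :
    Va x (l.map (path x R ε)) a := by
  constructor
  · rw [List.pairwise_map]
    refine hl.imp ?_
    intro i k hik
    exact ⟨path_suffix x R ε i k hik.le, by rw [path_length, path_length]; exact hik⟩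
  · intro s hs
    obtain ⟨i, hi, rfl⟩ := List.mem_map.1 hs
    rw [path_length]
    exact h i hi

end Pool.H49.ID
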