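import Pool.Agent.H74.ID.Main

/-! Every Banach space has an injective resolution. -/

open Cardinal
open scoped ENNReal ZeroAtInfty

namespace Pool.H49.ID

open Pool.H74.ID

/-- A bundled Banach space. -/
structure BS (𝕜 : Type) [RCLike 𝕜] where
  C : Type
  g : NormedAddCommGroup C
  s : NormedSpace 𝕜 C
  c : CompleteSpace C

attribute [instance] BS.g BS.s BS.c

variable {𝕜 : Type} [RCLike 𝕜]

theorem res_step (P : BS 𝕜) : ∃ (G S : BS 𝕜) (j : P.C →L[𝕜] G.C) (q : G.C →L[𝕜] S.C),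
    Inj 𝕜 G.C ∧ SES j q := by
  obtain ⟨G, S, i1, i2, i3, i4, i5, i6, j, q, h1, h2⟩ := enoughInj (𝕜 := 𝕜) P.C
  exact ⟨⟨G, i1, i2, i3⟩, ⟨S, i4, i5, i6⟩, j, q, h1, h2⟩

noncomputable def resG (P : BS 𝕜) : BS 𝕜 := (res_step P).choose

noncomputable def resS (P : BS 𝕜) : BS 𝕜 := (res_step P).choose_spec.choose

noncomputable def resj (P : BS 𝕜) : P.C →L[𝕜] (resG P).C := (res_step P).choose_spec.choose_spec.choose

noncomputable def resq (P : BS 𝕜) : (resG P).C →L[𝕜] (resS P).C :=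
  (res_step P).choose_spec.choose_spec.choose_spec.choose

theorem res_spec (P : BS 𝕜) : Inj 𝕜 (resG P).C ∧ SES (resj P) (resq P) :=
  (res_step P).choose_spec.choose_spec.choose_spec.choose_spec

noncomputable def resQ (P : BS 𝕜) : ℕ → BS 𝕜
  | 0 => P
  | n + 1 => resS (resQ P n)

noncomputable def resd (P : BS 𝕜) (n : ℕ) :
    (resG (resQ P n)).C →L[𝕜] (resG (resQ P (n + 1))).C :=
  (resj (resQ P (n + 1))).comp (resq (resQ P n))

theorem resd_eq_zero (P : BS 𝕜) (n : ℕ) (z : (resG (resQ P n)).C) :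
    resd P n z = 0 ↔ ∃ y, resj (resQ P n) y = z := by
  have h1 : resd P n z = 0 ↔ resq (resQ P n) z = 0 :=
    map_eq_zero_iff (resj (resQ P (n + 1))) (res_spec (resQ P (n + 1))).2.inj
  exact h1.trans ((res_spec (resQ P n)).2.exact z)

theorem exists_injRes (X : Type) [i1 : NormedAddCommGroup X] [i2 : NormedSpace 𝕜 X]
    [i3 : CompleteSpace X] :
    ∃ (E : ℕ → Type) (_ : ∀ n, NormedAddCommGroup (E n)) (_ : ∀ n, NormedSpace 𝕜 (E n))
      (_ : ∀ n, CompleteSpace (E n)) (e : X →L[𝕜] E 0) (d : ∀ n, E n →L[𝕜] E (n + 1)),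
      IsInjRes 𝕜 X E e d := by
  let P : BS 𝕜 := ⟨X, i1, i2, i3⟩
  refine ⟨fun n => (resG (resQ P n)).C, fun n => inferInstance, fun n => inferInstance,
    fun n => inferInstance, resj P, resd P, ?_, ?_, ?_, ?_⟩
  · exact fun n => (res_spec (resQ P n)).1
  · exact (res_spec P).2.inj
  · intro z
    exact resd_eq_zero P 0 z
  · intro n z
    refine (resd_eq_zero P (n + 1) z).trans ?_
    constructor
    · rintro ⟨y, hy⟩
      obtain ⟨w, hw⟩ := (res_spec (resQ P n)).2.surj y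
      exact ⟨w, by rw [← hy, ← hw]; rfl⟩
    · rintro ⟨w, hw⟩
      exact ⟨resq (resQ P n) w, hw⟩

end Pool.H49.ID
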