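import Pool.Agent.H49.ID.Defs
import Pool.Agent.H74.ID.AD

/-!
Module ROOM. Almost disjoint rooms inside an infinite set.

`I`, `H` finite. `W = I → ℕ → 𝕜`. Inside the infinite set `s` choose infinite sets `r w h`,
`w ∈ W`, `h ∈ H`, pairwise almost disjoint for different pairs `(w, h)`, such that a bounded `w`
converges along `r w h` to a limit that does not depend on `h`.

Proof. `#W ≤ 𝔠` (`mk_field_le` in Pool/Agent/H74/ID/LI.lean gives `#𝕜 ≤ 𝔠`; `W` has `𝔠 ^ (#I * ℵ₀)`
elements). `hasAD_branches 0` (Pool/Agent/H74/ID/AD.lean, with `I := s`, `#s = ℵ₀`) gives an almost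
disjoint family of `2 ^ ℵ₀` infinite subsets of `s`, so there is an injection of `W` into it: infinite
sets `a w ⊆ s`, almost disjoint. If `w` is bounded (each `w i` bounded) then `k ↦ (w i k)_i` is a
bounded sequence in the proper space `I → 𝕜`, so it converges along an infinite subset `a' w` of
`a w` to some `x w` (enumerate `a w` by `Nat.nth` or an order embedding and use
`tendsto_subseq_of_bounded`); otherwise `a' w = a w`. Split `a' w` into `#H` disjoint infinite
sets (e.g. enumerate it by `ℕ` and use residue classes modulo `#H`, or an equivalence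
`ℕ ≃ ℕ × Fin (#H)`; or apply `hasAD_branches` again). If `H` is empty there is nothing to do for the sets.
-/

open Cardinal Filter Topology
open scoped ENNReal ZeroAtInfty

namespace Pool.H49.ID

open Pool.H74.ID

private theorem room_card (𝕜 : Type) [RCLike 𝕜] (I : Type) [Finite I] : #(I → ℕ → 𝕜) ≤ 𝔠 := by
  have h1 : #(I → ℕ → 𝕜) = (#𝕜 ^ ℵ₀) ^ #I := by simp
  rw [h1]
  have h2 : #𝕜 ≤ 𝔠 := mk_field_le
  have h3 : #𝕜 ^ ℵ₀ ≤ 𝔠 := by
    calc #𝕜 ^ ℵ₀ ≤ 𝔠 ^ ℵ₀ := power_le_power_right h2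
      _ = 𝔠 := continuum_power_aleph0
  calc (#𝕜 ^ ℵ₀) ^ #I ≤ 𝔠 ^ #I := power_le_power_right h3
    _ ≤ 𝔠 ^ ℵ₀ := power_le_power_left continuum_ne_zero (lt_aleph0_of_finite I).le
    _ = 𝔠 := continuum_power_aleph0

/-- almost disjoint infinite subsets of `s`, one for every `w` -/
private theorem room_ad (W : Type) (hW : #W ≤ 𝔠) (s : Set ℕ) (hs : s.Infinite) :
    ∃ a : W → Set ℕ, (∀ w, (a w).Infinite ∧ a w ⊆ s) ∧
      ∀ w w', w ≠ w' → (a w ∩ a w').Finite := by
  have hs' : #s = ℵ_ ((0 : ℕ) : Ordinal.{0}) := by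
    have : Infinite s := hs.to_subtype
    rw [mk_eq_aleph0, Nat.cast_zero, aleph_zero]
  obtain ⟨S, A, hS, hA, hAA⟩ := hasAD_branches 0 (fun i hi => absurd hi (Nat.not_lt_zero i)) s hs'
  rw [Nat.cast_zero, aleph_zero] at hS hA hAA
  have hle : #W ≤ #S := by
    rw [hS]
    exact hW
  obtain ⟨φ⟩ := Cardinal.le_def W S |>.1 hle
  refine ⟨fun w => Subtype.val '' A (φ w), ?_, ?_⟩
  · intro w
    constructor
    · refine Set.Infinite.image Subtype.val_injective.injOn ?_
      have h1 := hA (φ w)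
      rw [← Set.infinite_coe_iff]
      exact Cardinal.infinite_iff.2 h1
    · rintro _ ⟨x, _, rfl⟩
      exact x.2
  · intro w w' hww
    rw [← Set.image_inter Subtype.val_injective]
    refine Set.Finite.image _ ?_
    have h1 := hAA (φ w) (φ w') (fun h => hww (φ.injective h))
    exact Cardinal.lt_aleph0_iff_set_finite.1 h1

private theorem room_tendsto {E : Type} [TopologicalSpace E] (u : ℕ → E) (f : ℕ → ℕ)
    (hf : Function.Injective f) (x : E) (h : Tendsto (fun m => u (f m)) atTop (𝓝 x)) :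
    Tendsto u (cofinite ⊓ 𝓟 (Set.range f)) (𝓝 x) := by
  rw [← Filter.map_comap, hf.comap_cofinite_eq, Nat.cofinite_eq_atTop, tendsto_map'_iff]
  exact h

theorem exists_rooms (𝕜 : Type) [RCLike 𝕜] (I H : Type) [Finite I] [Finite H] (s : Set ℕ)
    (hs : s.Infinite) :
    ∃ (r : (I → ℕ → 𝕜) → H → Set ℕ) (x : (I → ℕ → 𝕜) → I → 𝕜),
      (∀ w h, (r w h).Infinite ∧ r w h ⊆ s) ∧
      (∀ w h w' h', (w, h) ≠ (w', h') → (r w h ∩ r w' h').Finite) ∧
      ∀ w, (∀ i, ∃ C : ℝ, ∀ k, ‖w i k‖ ≤ C) → ∀ h i,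
        Tendsto (w i) (cofinite ⊓ 𝓟 (r w h)) (𝓝 (x w i)) := by
  classical
  have := Fintype.ofFinite I
  obtain ⟨n, ⟨e⟩⟩ := Finite.exists_equiv_fin H
  obtain ⟨a, ha, haa⟩ := room_ad (I → ℕ → 𝕜) (room_card 𝕜 I) s hs
  have hsub : ∀ w : I → ℕ → 𝕜, ∃ (f : ℕ → ℕ) (x : I → 𝕜), Function.Injective f ∧
      (∀ m, f m ∈ a w) ∧ ((∀ i, ∃ C : ℝ, ∀ k, ‖w i k‖ ≤ C) →
        ∀ i, Tendsto (fun m => w i (f m)) atTop (𝓝 (x i))) := by
    intro w
    let f0 : ℕ ↪ a w := (ha w).1.natEmbedding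
    have hf0 : Function.Injective (fun m => ((f0 m : a w) : ℕ)) :=
      Subtype.val_injective.comp f0.injective
    by_cases hb : ∀ i, ∃ C : ℝ, ∀ k, ‖w i k‖ ≤ C
    · choose C hC using hb
      let v : ℕ → I → 𝕜 := fun m i => w i (f0 m)
      have hbdd : Bornology.IsBounded (Set.range v) := by
        rw [isBounded_iff_forall_norm_le]
        refine ⟨∑ i, |C i|, ?_⟩
        rintro _ ⟨m, rfl⟩
        rw [pi_norm_le_iff_of_nonneg (Finset.sum_nonneg fun i _ => abs_nonneg _)]
        intro i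
        calc ‖w i (f0 m)‖ ≤ C i := hC i _
          _ ≤ |C i| := le_abs_self _
          _ ≤ ∑ i, |C i| := Finset.single_le_sum (f := fun i => |C i|)
              (fun i _ => abs_nonneg _) (Finset.mem_univ i)
      obtain ⟨x, -, φ, hφ, hlim⟩ := tendsto_subseq_of_bounded hbdd (fun m => Set.mem_range_self m)
      refine ⟨fun m => f0 (φ m), x, hf0.comp hφ.injective, fun m => (f0 (φ m)).2, fun _ i => ?_⟩
      exact (tendsto_pi_nhds.1 hlim) i
    · exact ⟨fun m => f0 m, 0, hf0, fun m => (f0 m).2, fun h => absurd h hb⟩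
  choose f x hf hfa hlim using hsub
  have hinj : ∀ (w : I → ℕ → 𝕜) (h : H),
      Function.Injective (fun m => f w (n * m + (e h : ℕ))) := by
    intro w h m m' hmm
    have h1 := hf w hmm
    have hn : 0 < n := lt_of_le_of_lt (Nat.zero_le _) (e h).2
    have h2 : n * m = n * m' := by omega
    exact Nat.eq_of_mul_eq_mul_left hn h2
  refine ⟨fun w h => Set.range (fun m => f w (n * m + (e h : ℕ))), x, ?_, ?_, ?_⟩
  · intro w h
    refine ⟨Set.infinite_range_of_injective (hinj w h), ?_⟩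
    rintro _ ⟨m, rfl⟩
    exact (ha w).2 (hfa w _)
  · intro w h w' h' hne
    by_cases hw : w = w'
    · subst hw
      have hh : h ≠ h' := fun hh => hne (by rw [hh])
      have hemp : Set.range (fun m => f w (n * m + (e h : ℕ))) ∩
          Set.range (fun m => f w (n * m + (e h' : ℕ))) = ∅ := by
        rw [Set.eq_empty_iff_forall_notMem]
        rintro _ ⟨⟨m, rfl⟩, ⟨m', hm'⟩⟩
        have h1 : n * m' + (e h' : ℕ) = n * m + (e h : ℕ) := hf w hm'
        have h2 : ((e h : Fin n) : ℕ) < n := (e h).2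
        have h3 : ((e h' : Fin n) : ℕ) < n := (e h').2
        have h4 : (n * m' + (e h' : ℕ)) % n = (n * m + (e h : ℕ)) % n := by rw [h1]
        rw [Nat.mul_add_mod, Nat.mul_add_mod, Nat.mod_eq_of_lt h2, Nat.mod_eq_of_lt h3] at h4
        exact hh (e.injective (Fin.ext h4.symm))
      rw [hemp]
      exact Set.finite_empty
    · refine (haa w w' hw).subset ?_
      rintro _ ⟨⟨m, rfl⟩, ⟨m', hm'⟩⟩
      refine ⟨hfa w _, ?_⟩
      rw [← hm']
      exact hfa w' _
  · intro w hb h i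
    apply room_tendsto (w i) (fun m => f w (n * m + (e h : ℕ))) (hinj w h)
    have hn : 0 < n := lt_of_le_of_lt (Nat.zero_le _) (e h).2
    have h1 : Tendsto (fun m : ℕ => n * m + (e h : ℕ)) atTop atTop := by
      refine tendsto_atTop_mono (fun m => ?_) tendsto_id
      show m ≤ n * m + (e h : ℕ)
      nlinarith
    exact (hlim w hb i).comp h1

end Pool.H49.ID
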